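import Pool.Agent.W_ccff5b_h86.CountA

set_option autoImplicit false

namespace Pool.CCff5b

open Finset
open scoped Classical

variable {Pt Ln : Type} [Fintype Pt] [Fintype Ln] {I : Pt → Ln → Prop} {s t : ℕ}

/-- **Task LineC.** `x, y` far, both off the line `l`, with the same projection `m` on `l`. Then the
numbers of common neighbours of `x, y, z`, `z ∈ l`, `z ≠ m`, add up to `s + t`.
Proof. Double counting (`Finset.sum_card_bipartiteAbove_eq_sum_card_bipartiteBelow` or
`Finset.sum_comm`) of the pairs `(z, w)`, `w ∈ cns2 I x y`, `z ∈ (pts I l).erase m`, `z ∼ w`: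
`w = m` gives `s` pairs (`m ∼ z` for all the `s` other points of `l`). For `w ≠ m` (there are `t` such
`w`, `GQ.card_cns2`): `w ∉ l` (otherwise `w = m` by `GQ.proj_unique`, both collinear with `x`), and
`w` is collinear with exactly one point of `l`; this is not `m` by `GQ.common_not_adj`. So it gives
exactly one pair. -/
theorem GQ.sum_cn_same (h : GQ I s t) {x y m : Pt} {l : Ln} (hxy : Far I x y) (hx : ¬ I x l)
    (hy : ¬ I y l) (hm : I m l) (hxm : Adj I x m) (hym : Adj I y m) :
    ∑ z ∈ (pts I l).erase m, cn I x y z = s + t := by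
  have hmB : m ∈ cns2 I x y := mem_cns2.2 ⟨hxm, hym⟩
  have e1 : ∀ z, cn I x y z = (Finset.bipartiteAbove (fun z w => Adj I z w) (cns2 I x y) z).card := by
    intro z
    unfold cn Finset.bipartiteAbove
    congr 1
    ext w
    simp only [mem_cns, Finset.mem_filter, mem_cns2]
    tauto
  have e2 : ∑ z ∈ (pts I l).erase m, cn I x y z =
      ∑ w ∈ cns2 I x y,
        (Finset.bipartiteBelow (fun z w => Adj I z w) ((pts I l).erase m) w).card := by
    rw [← Finset.sum_card_bipartiteAbove_eq_sum_card_bipartiteBelow]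
    exact Finset.sum_congr rfl fun z _ => e1 z
  rw [e2, ← Finset.add_sum_erase _ _ hmB]
  have e3 : (Finset.bipartiteBelow (fun z w => Adj I z w) ((pts I l).erase m) m).card = s := by
    have : Finset.bipartiteBelow (fun z w => Adj I z w) ((pts I l).erase m) m =
        (pts I l).erase m := by
      unfold Finset.bipartiteBelow
      refine Finset.filter_true_of_mem ?_
      intro z hz
      rw [Finset.mem_erase, mem_pts] at hz
      exact ⟨hz.1, l, hz.2, hm⟩
    rw [this, Finset.card_erase_of_mem (mem_pts.2 hm), h.pts_card l]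
    simp
  have e4 : ∀ w ∈ (cns2 I x y).erase m,
      (Finset.bipartiteBelow (fun z w => Adj I z w) ((pts I l).erase m) w).card = 1 := by
    intro w hw
    rw [Finset.mem_erase, mem_cns2] at hw
    obtain ⟨hwm, hxw, hyw⟩ := hw
    have hwl : ¬ I w l := fun hwl => hwm (h.proj_unique hx hwl hm hxw hxm)
    obtain ⟨q, hq, hwq⟩ := h.exists_proj hwl
    rw [Finset.card_eq_one]
    refine ⟨q, ?_⟩
    ext z
    unfold Finset.bipartiteBelow
    rw [Finset.mem_filter, Finset.mem_erase, mem_pts, Finset.mem_singleton]
    constructor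
    · rintro ⟨⟨_, hz⟩, hzw⟩
      exact h.proj_unique hwl hz hq hzw.symm hwq
    · rintro rfl
      refine ⟨⟨?_, hq⟩, hwq.symm⟩
      rintro rfl
      exact h.common_not_adj hxy hxw hyw hxm hym hwq
  rw [e3, Finset.sum_congr rfl e4, Finset.sum_const, Finset.card_erase_of_mem hmB,
    h.card_cns2 hxy]
  simp

end Pool.CCff5b
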