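import Pool.Agent.W_ccff5b_h86.CountB
import Pool.Agent.W_ccff5b_h86.LineC

set_option autoImplicit false

namespace Pool.CCff5b

open Finset
open scoped Classical

variable {Pt Ln : Type} [Fintype Pt] [Fintype Ln] {I : Pt → Ln → Prop} {s t : ℕ}

/-- the matrix `s * ⊕ (s I - J)` -/
noncomputable def K (I : Pt → Ln → Prop) (s : ℕ) (y z : Pt) : ℤ :=
  if y = z then (s : ℤ) * ((s : ℤ) - 1) else if Adj I y z then -(s : ℤ) else 0

/-- **Task RankA.** `w ∈ l`, `y, z ∼ w` not on `l` (so `y, z` are far from each `x ∈ l`, `x ≠ w`,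
see `GQ.offs_eq`). The sum of `G^x_y(z)` over the `s` points `x ∈ l`, `x ≠ w`, is `K y z`.
Proof. `y = z`: `s` times `s - 1`. `y ∼ z`: `s` times `-1`. Otherwise `y, z` are far
(`far_of_ne`): `∑_x (s - cn x y z)`, and `∑_x cn x y z` counts pairs `(x, u)`, `u` a common neighbour of
`y, z` (`t+1` of them, `GQ.card_cns2`), `x ∈ l`, `x ≠ w`, `x ∼ u`: `u = w` gives `s`; for `u ≠ w`:
`u ∉ l` (`y ∼ u ∈ l` would give `u = w` by `proj_unique`), `u` is collinear with exactly one point of
`l`, and it is not `w` (`GQ.common_not_adj` for the far points `y, z`); so exactly one.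
Total `s + t = s^2`. -/
theorem GQ.sum_G_line (h : GQ I s t) (hst : s + t = s * s) {l : Ln} {w y z : Pt} (hw : I w l)
    (hy : y ∈ offs I l w) (hz : z ∈ offs I l w) :
    ∑ x ∈ (pts I l).erase w, G I s x y z = K I s y z := by
  have hcard : ((pts I l).erase w).card = s := by
    rw [Finset.card_erase_of_mem (mem_pts.2 hw), h.pts_card l]
    simp
  have hfar : ∀ v ∈ offs I l w, ∀ x ∈ (pts I l).erase w, Far I x v := by
    intro v hv x hx
    rw [Finset.mem_erase, mem_pts] at hx
    rw [h.offs_eq hx.2 hw hx.1, Finset.mem_filter] at hv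
    exact hv.2.2
  have hy' := mem_offs.1 hy
  have hz' := mem_offs.1 hz
  unfold K
  by_cases hyz : y = z
  · subst hyz
    rw [if_pos rfl, Finset.sum_congr rfl fun x hx => G_self (s := s) (hfar y hy x hx),
      Finset.sum_const, hcard, nsmul_eq_mul]
  rw [if_neg hyz]
  by_cases hadj : Adj I y z
  · rw [if_pos hadj, Finset.sum_congr rfl fun x hx => G_adj (s := s) (hfar z hz x hx) hadj,
      Finset.sum_const, hcard, nsmul_eq_mul]
    ring
  rw [if_neg hadj]
  have hyz' : Far I y z := far_of_ne hyz hadj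
  rw [Finset.sum_congr rfl fun x hx => h.G_triad (hfar z hz x hx) hyz', Finset.sum_sub_distrib,
    Finset.sum_const, hcard, nsmul_eq_mul]
  have e : ∑ x ∈ (pts I l).erase w, cn I x y z = s + t := by
    rw [← h.sum_cn_same hyz' hy'.2 hz'.2 hw hy'.1.symm hz'.1.symm]
    refine Finset.sum_congr rfl fun x _ => ?_
    rw [cn_swap12 x y z, cn_swap23 y x z]
  have e' : ∑ x ∈ (pts I l).erase w, (cn I x y z : ℤ) = (s : ℤ) + t := by
    exact_mod_cast e
  have hst' : (s : ℤ) + t = s * s := by exact_mod_cast hst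
  rw [e', hst', sub_self]

end Pool.CCff5b
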