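import Pool.Agent.W_ccff5b_h86.Defs

set_option autoImplicit false

namespace Pool.CCff5b

open Finset
open scoped Classical

variable {Pt Ln : Type} [Fintype Pt] [Fintype Ln] {I : Pt → Ln → Prop} {s t : ℕ}

omit [Fintype Pt] [Fintype Ln] in
theorem Adj.symm {p q : Pt} (h : Adj I p q) : Adj I q p := by
  obtain ⟨h1, l, h2, h3⟩ := h
  exact ⟨h1.symm, l, h3, h2⟩

omit [Fintype Pt] [Fintype Ln] in
theorem adj_comm {p q : Pt} : Adj I p q ↔ Adj I q p := ⟨Adj.symm, Adj.symm⟩

omit [Fintype Pt] [Fintype Ln] in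
theorem Far.symm {p q : Pt} (h : Far I p q) : Far I q p := fun l hq hp => h l hp hq

omit [Fintype Pt] [Fintype Ln] in
theorem far_comm {p q : Pt} : Far I p q ↔ Far I q p := ⟨Far.symm, Far.symm⟩

omit [Fintype Pt] [Fintype Ln] in
theorem not_adj_self {p : Pt} : ¬ Adj I p p := fun h => h.1 rfl

omit [Fintype Pt] [Fintype Ln] in
theorem Far.not_adj {p q : Pt} (h : Far I p q) : ¬ Adj I p q := by
  rintro ⟨_, l, h2, h3⟩
  exact h l h2 h3

omit [Fintype Pt] [Fintype Ln] in
theorem Adj.not_far {p q : Pt} (h : Adj I p q) : ¬ Far I p q := fun h' => h'.not_adj h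

omit [Fintype Pt] [Fintype Ln] in
theorem Adj.ne {p q : Pt} (h : Adj I p q) : p ≠ q := h.1

omit [Fintype Pt] [Fintype Ln] in
theorem far_of_ne {p q : Pt} (h : p ≠ q) (h' : ¬ Adj I p q) : Far I p q := by
  intro l hp hq
  exact h' ⟨h, l, hp, hq⟩

theorem GQ.exists_line (h : GQ I s t) (p : Pt) : ∃ l, I p l := by
  have h1 := h.lns_card p
  have h2 : (lns I p).Nonempty := by
    rw [← Finset.card_pos]; omega
  obtain ⟨l, hl⟩ := h2
  exact ⟨l, by simpa [lns] using hl⟩

theorem GQ.not_far_self (h : GQ I s t) {p : Pt} : ¬ Far I p p := by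
  intro hp
  obtain ⟨l, hl⟩ := h.exists_line p
  exact hp l hl hl

theorem GQ.far_ne (h : GQ I s t) {p q : Pt} (hpq : Far I p q) : p ≠ q := by
  rintro rfl
  exact h.not_far_self hpq

/-- trichotomy -/
theorem eq_or_adj_or_far (I : Pt → Ln → Prop) (p q : Pt) : q = p ∨ Adj I p q ∨ Far I p q := by
  by_cases h1 : q = p
  · exact Or.inl h1
  by_cases h2 : Adj I p q
  · exact Or.inr (Or.inl h2)
  · exact Or.inr (Or.inr (far_of_ne (fun h => h1 h.symm) h2))

/-- a point `p` off the line `l` is collinear with exactly one point of `l` -/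
theorem GQ.proj_unique (h : GQ I s t) {p q q' : Pt} {l : Ln} (hp : ¬ I p l) (hq : I q l)
    (hq' : I q' l) (h1 : Adj I p q) (h2 : Adj I p q') : q = q' := by
  obtain ⟨_, m, hm1, hm2⟩ := h1
  obtain ⟨_, m', hm1', hm2'⟩ := h2
  have := (h.proj p l hp).unique (y₁ := (q, m)) (y₂ := (q', m')) ⟨hm1, hm2, hq⟩ ⟨hm1', hm2', hq'⟩
  exact congrArg Prod.fst this

theorem GQ.exists_proj (h : GQ I s t) {p : Pt} {l : Ln} (hp : ¬ I p l) :
    ∃ q, I q l ∧ Adj I p q := by
  obtain ⟨⟨q, m⟩, ⟨h1, h2, h3⟩, _⟩ := h.proj p l hp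
  refine ⟨q, h3, ?_, m, h1, h2⟩
  rintro rfl
  exact hp h3

/-- no triangles: if `a, b, c` are pairwise collinear, then `c` is on each line through `a` and `b` -/
theorem GQ.tri (h : GQ I s t) {a b c : Pt} {l : Ln} (hab : a ≠ b) (ha : I a l) (hb : I b l)
    (hac : Adj I a c) (hbc : Adj I b c) : I c l := by
  by_contra hc
  exact hab (h.proj_unique hc ha hb hac.symm hbc.symm)

/-- if `x` is far from `y` and `w` is collinear with both, then `w` is neither ... (helper facts) -/
theorem GQ.not_on_of_far (_h : GQ I s t) {x y : Pt} {l : Ln} (hxy : Far I x y) (hx : I x l) :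
    ¬ I y l := hxy l hx

/-- two distinct common neighbours of two far points are not collinear -/
theorem GQ.common_not_adj (h : GQ I s t) {x y w w' : Pt} (hxy : Far I x y) (h1 : Adj I x w)
    (h2 : Adj I y w) (h3 : Adj I x w') (h4 : Adj I y w') : ¬ Adj I w w' := by
  rintro ⟨hne, l, hl, hl'⟩
  have hx : I x l := h.tri hne hl hl' h1.symm h3.symm
  have hy : I y l := h.tri hne hl hl' h2.symm h4.symm
  exact hxy l hx hy

end Pool.CCff5b
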