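import Mathlib

set_option autoImplicit false

namespace Pool.CCff5b

/-- Arithmetic of the divisibility condition: with `t = s^2 - s - e`, `s + t = s^2 - e` divides
`e (e - 1)`. So `t ≤ s^2` leaves only `t = s^2` (`e = -s`), `e = 0`, `e = 1` and `e ≥ s`. -/
theorem gap_arith {s t : ℕ} (hs : 2 ≤ s) (ht : t ≤ s ^ 2) (hd : (s + t) ∣ s ^ 2 * (s * t + 1)) :
    t = s ^ 2 ∨ s + t = s * s ∨ s + t + 1 = s * s ∨ t + 2 * s ≤ s ^ 2 := by
  by_contra hcon
  push Not at hcon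
  obtain ⟨h1, h2, h3, h4⟩ := hcon
  obtain ⟨k, hk⟩ := hd
  -- integers
  obtain ⟨e, he⟩ : ∃ e : ℤ, e = (s : ℤ) ^ 2 - s - t := ⟨_, rfl⟩
  have ht' : (t : ℤ) = (s : ℤ) ^ 2 - s - e := by rw [he]; ring
  have hdvd : ((s : ℤ) ^ 2 - e) ∣ e * (e - 1) := by
    have hk' : (s : ℤ) ^ 2 * ((s : ℤ) * t + 1) = ((s : ℤ) + t) * k := by exact_mod_cast hk
    rw [ht'] at hk'
    refine ⟨(s : ℤ) ^ 3 - k - ((s : ℤ) ^ 2 + e - 1), ?_⟩
    linear_combination (-1 : ℤ) * hk'
  have hs' : (2 : ℤ) ≤ s := by exact_mod_cast hs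
  have hlo : -(s : ℤ) < e := by
    have : (t : ℤ) < (s : ℤ) ^ 2 := by
      have : t < s ^ 2 := lt_of_le_of_ne ht h1
      exact_mod_cast this
    linarith
  have hhi : e < s := by
    have : (s : ℤ) ^ 2 < t + 2 * s := by exact_mod_cast h4
    linarith
  have he0 : e ≠ 0 := by
    intro h0
    apply h2
    have : (s : ℤ) + t = (s : ℤ) * s := by rw [ht', h0]; ring
    exact_mod_cast this
  have he1 : e ≠ 1 := by
    intro h0
    apply h3
    have : (s : ℤ) + t + 1 = (s : ℤ) * s := by rw [ht', h0]; ring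
    exact_mod_cast this
  have hpos : 0 < e * (e - 1) := by
    rcases lt_or_gt_of_ne he0 with h5 | h5
    · nlinarith
    · have : 1 < e := lt_of_le_of_ne (by omega) (Ne.symm he1)
      nlinarith
  have hle := Int.le_of_dvd hpos hdvd
  rcases lt_or_gt_of_ne he0 with h5 | h5
  · nlinarith
  · nlinarith

/-- the feasible `t` for `s ≤ 4` -/
theorem small_arith {s t : ℕ} (hs : 2 ≤ s) (hs4 : s ≤ 4) (hst : s ≤ t) (ht : t ≤ s ^ 2)
    (hd : (s + t) ∣ s ^ 2 * (s * t + 1)) :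
    (s = 2 ∧ (t = 2 ∨ t = 4)) ∨ (s = 3 ∧ (t = 3 ∨ t = 5 ∨ t = 6 ∨ t = 9)) ∨
      (s = 4 ∧ (t = 4 ∨ t = 6 ∨ t = 8 ∨ t = 11 ∨ t = 12 ∨ t = 16)) := by
  interval_cases s
  · have : t ≤ 4 := by simpa using ht
    interval_cases t <;> revert hd <;> decide
  · have : t ≤ 9 := by simpa using ht
    interval_cases t <;> revert hd <;> decide
  · have : t ≤ 16 := by simpa using ht
    interval_cases t <;> revert hd <;> decide

/-- conclusion of Q1 for the remaining orders -/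
theorem concl_small {s t : ℕ} (h : (s = 2 ∧ (t = 2 ∨ t = 4)) ∨ (s = 3 ∧ (t = 3 ∨ t = 5 ∨ t = 9)) ∨
      (s = 4 ∧ (t = 4 ∨ t = 6 ∨ t = 8 ∨ t = 16))) :
    (t = s ∨ t = s + 2 ∨ t ^ 2 = s ^ 3 ∨ t = s ^ 2) ∧
      ((t = s ∨ t ^ 2 = s ^ 3 ∨ t = s ^ 2) → IsPrimePow t) ∧
      (t = s + 2 → IsPrimePow (t - 1)) := by
  have p2 : IsPrimePow 2 := Nat.prime_two.isPrimePow
  have p3 : IsPrimePow 3 := Nat.prime_three.isPrimePow
  have p5 : IsPrimePow 5 := Nat.prime_five.isPrimePow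
  have p4 : IsPrimePow 4 := by
    have := p2.pow (k := 2) two_ne_zero
    simpa using this
  have p8 : IsPrimePow 8 := by
    have := p2.pow (k := 3) three_ne_zero
    simpa using this
  have p16 : IsPrimePow 16 := by
    have := p2.pow (k := 4) four_ne_zero
    simpa using this
  have p9 : IsPrimePow 9 := by
    have := p3.pow (k := 2) two_ne_zero
    simpa using this
  rcases h with ⟨rfl, rfl | rfl⟩ | ⟨rfl, rfl | rfl | rfl⟩ | ⟨rfl, rfl | rfl | rfl | rfl⟩ <;>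
    norm_num <;> first | assumption | exact ⟨by assumption, by assumption⟩ | skip

end Pool.CCff5b
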