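import Pool.Agent.W_ccff5b_h86.ClC
import Pool.Agent.W_ccff5b_h54.IBound
import Pool.Agent.W_ccff5b_h54.IFinal

set_option autoImplicit false

namespace Pool.CCff5b

open Finset
open scoped Classical

variable {Pt Ln : Type} [Fintype Pt] [Fintype Ln] {I : Pt → Ln → Prop} {s t : ℕ}

/-- Q1 for `s ≤ 4` -/
theorem GQ.q1_small (h : GQ I s t) (hs : 2 ≤ s) (hst : s ≤ t) (hs4 : s ≤ 4) (x : Pt) :
    (t = s ∨ t = s + 2 ∨ t ^ 2 = s ^ 3 ∨ t = s ^ 2) ∧
      ((t = s ∨ t ^ 2 = s ^ 3 ∨ t = s ^ 2) → IsPrimePow t) ∧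
      (t = s + 2 → IsPrimePow (t - 1)) := by
  apply concl_small
  rcases small_arith hs hs4 hst (h.le_sq hs x) (h.dvd_mult (by omega) x) with
    ⟨h1, h2⟩ | ⟨h1, h2⟩ | ⟨h1, h2⟩
  · exact Or.inl ⟨h1, h2⟩
  · refine Or.inr (Or.inl ⟨h1, ?_⟩)
    rcases h2 with h2 | h2 | h2 | h2
    · exact Or.inl h2
    · exact Or.inr (Or.inl h2)
    · subst h1; subst h2
      exact (h.no_extremal (by norm_num) (by norm_num) x).elim
    · exact Or.inr (Or.inr h2)
  · refine Or.inr (Or.inr ⟨h1, ?_⟩)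
    rcases h2 with h2 | h2 | h2 | h2 | h2 | h2
    · exact Or.inl h2
    · exact Or.inr (Or.inl h2)
    · exact Or.inr (Or.inr (Or.inl h2))
    · subst h1; subst h2
      exact (h.no_iso (by norm_num) (by norm_num) x).elim
    · subst h1; subst h2
      exact (h.no_extremal (by norm_num) (by norm_num) x).elim
    · exact Or.inr (Or.inr (Or.inr h2))

end Pool.CCff5b
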