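import Pool.Agent.W_ccff5b_h86.GApi

set_option autoImplicit false

namespace Pool.CCff5b

open Finset
open scoped Classical

variable {Pt Ln : Type} [Fintype Pt] [Fintype Ln] {I : Pt → Ln → Prop} {s t : ℕ}

/-- **Task CountA (1).** Two far points `x, y` have exactly `t+1` common neighbours.
Proof. Bijection with the lines through `x` (`h.lns_card x`): a line `l ∋ x` does not contain `y`
(`Far`), so it has a unique point `w` collinear with `y` (`GQ.exists_proj`, `GQ.proj_unique`), and
`w ≠ x` since `y` is not collinear with `x`; conversely `w ↦` the line `xw` (unique by `h.two`).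
For instance: `Finset.card_bij'` or: the sets `(pts I l).filter (Adj I y)` (`l ∈ lns I x`) are
singletons, pairwise disjoint, with union `cns2 I x y`. -/
theorem GQ.card_cns2 (h : GQ I s t) {x y : Pt} (hxy : Far I x y) :
    (cns2 I x y).card = t + 1 := by
  rw [← h.lns_card x]
  symm
  have hq : ∀ l ∈ lns I x, ∃ q, I q l ∧ Adj I y q := fun l hl =>
    h.exists_proj (hxy l (mem_lns.1 hl))
  choose f hf using hq
  have hne : ∀ l hl, x ≠ f l hl := fun l hl e =>
    hxy.symm.not_adj (e ▸ (hf l hl).2)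
  refine Finset.card_bij (fun l hl => f l hl) ?_ ?_ ?_
  · intro l hl
    exact mem_cns2.2 ⟨⟨hne l hl, l, mem_lns.1 hl, (hf l hl).1⟩, (hf l hl).2⟩
  · intro l hl l' hl' e
    exact h.two x (f l hl) l l' (mem_lns.1 hl) (hf l hl).1 (mem_lns.1 hl')
      (by rw [e]; exact (hf l' hl').1) (hne l hl)
  · intro w hw
    obtain ⟨⟨hxw, l, hl, hwl⟩, hyw⟩ := mem_cns2.1 hw
    have hl' : l ∈ lns I x := mem_lns.2 hl
    exact ⟨l, hl', h.proj_unique (hxy l hl) (hf l hl').1 hwl (hf l hl').2 hyw⟩

/-- **Task CountA (2).** If `y ∼ z` are both far from `x`, then `x, y, z` have exactly one common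
neighbour: the unique point of the line `yz` collinear with `x` (a common neighbour of `y` and `z`
is on the line `yz` by `GQ.tri`; `x` is not on this line). -/
theorem GQ.cn_of_adj (h : GQ I s t) {x y z : Pt} (hxy : Far I x y) (hxz : Far I x z)
    (hyz : Adj I y z) : cn I x y z = 1 := by
  obtain ⟨hne, l, hy, hz⟩ := hyz
  have hx : ¬ I x l := hxy.symm l hy
  obtain ⟨q, hql, hxq⟩ := h.exists_proj hx
  have hyq : Adj I y q := ⟨fun e => hxy.not_adj (e ▸ hxq), l, hy, hql⟩
  have hzq : Adj I z q := ⟨fun e => hxz.not_adj (e ▸ hxq), l, hz, hql⟩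
  unfold cn
  rw [Finset.card_eq_one]
  refine ⟨q, ?_⟩
  ext w
  rw [mem_cns, Finset.mem_singleton]
  constructor
  · rintro ⟨h1, h2, h3⟩
    exact h.proj_unique hx (h.tri hne hy hz h2 h3) hql h1 hxq
  · rintro rfl
    exact ⟨hxq, hyq, hzq⟩

end Pool.CCff5b
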