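import Pool.Agent.W_ccff5b_h86.CountA

set_option autoImplicit false

namespace Pool.CCff5b

open Finset
open scoped Classical

variable {Pt Ln : Type} [Fintype Pt] [Fintype Ln] {I : Pt → Ln → Prop} {s t : ℕ}

/-- the points collinear with `w`, not on the line `l` (used for `w` on `l`) -/
noncomputable def offs (I : Pt → Ln → Prop) (l : Ln) (w : Pt) : Finset Pt :=
  univ.filter (fun z => Adj I w z ∧ ¬ I z l)

omit [Fintype Ln] in
@[simp] theorem mem_offs {l : Ln} {w z : Pt} : z ∈ offs I l w ↔ Adj I w z ∧ ¬ I z l := by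
  simp [offs]

private theorem card_union_lines (h : GQ I s t) (x : Pt) (S : Finset Ln)
    (hS : ∀ l ∈ S, I x l) :
    (S.biUnion (fun l => (pts I l).erase x)).card = S.card * s := by
  rw [Finset.card_biUnion]
  · rw [Finset.sum_congr rfl (g := fun _ => s), Finset.sum_const, smul_eq_mul]
    intro l hl
    rw [Finset.card_erase_of_mem (by simpa using hS l hl), h.pts_card]
    rfl
  · intro l hl m hm hlm
    show Disjoint ((pts I l).erase x) ((pts I m).erase x)
    rw [Finset.disjoint_left]
    intro z hz hz'
    rw [Finset.mem_erase, mem_pts] at hz hz'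
    exact hlm (h.two x z l m (hS l hl) hz.2 (hS m hm) hz'.2 (Ne.symm hz.1))

/-- **Task CountB (1).** `nb I x` is the disjoint union of the sets `(pts I l).erase x` over the
`t+1` lines `l` through `x` (disjoint by `h.two`). -/
theorem GQ.card_nb (h : GQ I s t) (x : Pt) : (nb I x).card = s * (t + 1) := by
  have h1 : nb I x = (lns I x).biUnion (fun l => (pts I l).erase x) := by
    ext z
    simp only [mem_nb, Finset.mem_biUnion, mem_lns, Finset.mem_erase, mem_pts, Adj]
    constructor
    · rintro ⟨hne, l, h1, h2⟩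
      exact ⟨l, h1, hne.symm, h2⟩
    · rintro ⟨l, h1, hne, h2⟩
      exact ⟨hne.symm, l, h1, h2⟩
  rw [h1, card_union_lines h x _ (fun l hl => by simpa using hl), h.lns_card, mul_comm]

/-- **Task CountB (2).** The same with the line `l` removed. -/
theorem GQ.card_offs (h : GQ I s t) {w : Pt} {l : Ln} (hw : I w l) :
    (offs I l w).card = s * t := by
  have h1 : offs I l w = ((lns I w).erase l).biUnion (fun l => (pts I l).erase w) := by
    ext z
    simp only [mem_offs, Finset.mem_biUnion, mem_lns, Finset.mem_erase, mem_pts, Adj]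
    constructor
    · rintro ⟨⟨hne, m, h1, h2⟩, h3⟩
      refine ⟨m, ⟨?_, h1⟩, hne.symm, h2⟩
      rintro rfl
      exact h3 h2
    · rintro ⟨m, ⟨hml, h1⟩, hne, h2⟩
      refine ⟨⟨hne.symm, m, h1, h2⟩, fun h3 => hml (h.two w z m l h1 h2 hw h3 hne.symm)⟩
  rw [h1, card_union_lines h w _ (fun l hl => by
    rw [Finset.mem_erase, mem_lns] at hl
    exact hl.2), Finset.card_erase_of_mem (by simpa using hw), h.lns_card, mul_comm]
  rfl

/-- **Task CountB (3).** If `x ≠ w` are on `l`, the points collinear with `w` and not on `l` are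
exactly the points collinear with `w` and far from `x`. (If `z ∼ w`, `z ∉ l` and `z ∼ x`, then
`z ∈ l` by `GQ.tri`; points of `l` are not far from `x`.) -/
theorem GQ.offs_eq (h : GQ I s t) {x w : Pt} {l : Ln} (hx : I x l) (hw : I w l) (hxw : x ≠ w) :
    offs I l w = univ.filter (fun z => Adj I w z ∧ Far I x z) := by
  ext z
  simp only [mem_offs, Finset.mem_filter, Finset.mem_univ, true_and]
  constructor
  · rintro ⟨h1, h2⟩
    refine ⟨h1, ?_⟩
    rcases eq_or_adj_or_far I x z with h3 | h3 | h3
    · subst h3
      exact absurd hx h2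
    · exact absurd (h.tri hxw hx hw h3 h1) h2
    · exact h3
  · rintro ⟨h1, h2⟩
    exact ⟨h1, h2 l hx⟩

/-- **Task CountB (4).** Count the pairs `(w, z)`, `w ∼ x`, `w ∼ z`, `z` far from `x`, in two ways:
`(far I x).card * (t+1)` by `GQ.card_cns2`, and `(nb I x).card * (s*t)`. -/
theorem GQ.card_far (h : GQ I s t) (x : Pt) : (far I x).card = s ^ 2 * t := by
  have key := Finset.sum_card_bipartiteAbove_eq_sum_card_bipartiteBelow (s := far I x)
    (t := nb I x) (fun z w => Adj I z w)
  have h1 : ∀ z ∈ far I x,
      (Finset.bipartiteAbove (fun z w => Adj I z w) (nb I x) z).card = t + 1 := by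
    intro z hz
    rw [← h.card_cns2 (mem_far.1 hz)]
    congr 1
    ext w
    simp only [Finset.bipartiteAbove, Finset.mem_filter, mem_nb, mem_cns2]
  have h2 : ∀ w ∈ nb I x,
      (Finset.bipartiteBelow (fun z w => Adj I z w) (far I x) w).card = s * t := by
    intro w hw
    obtain ⟨hne, l, hxl, hwl⟩ := mem_nb.1 hw
    rw [← h.card_offs hwl, h.offs_eq hxl hwl hne]
    congr 1
    ext z
    simp only [Finset.bipartiteBelow, Finset.mem_filter, mem_far, Finset.mem_univ, true_and]
    rw [adj_comm, and_comm]
  rw [Finset.sum_congr rfl h1, Finset.sum_congr rfl h2, Finset.sum_const, Finset.sum_const,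
    smul_eq_mul, smul_eq_mul, h.card_nb] at key
  have h3 : (far I x).card * (t + 1) = (s ^ 2 * t) * (t + 1) := by
    rw [key]; ring
  exact Nat.eq_of_mul_eq_mul_right (Nat.succ_pos t) h3

/-- **Task CountB (5).** `nb I y` splits into the `t+1` common neighbours with `x` and the points
far from `x` (`x` itself is not collinear with `y`). -/
theorem GQ.card_nb_far (h : GQ I s t) {x y : Pt} (hxy : Far I x y) :
    (univ.filter (fun z => Adj I y z ∧ Far I x z)).card + (t + 1) = s * (t + 1) := by
  rw [← h.card_nb y, ← h.card_cns2 hxy, ← Finset.card_union_of_disjoint]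
  · congr 1
    ext z
    simp only [Finset.mem_union, Finset.mem_filter, Finset.mem_univ, true_and, mem_cns2, mem_nb]
    constructor
    · rintro (h1 | h1)
      · exact h1.1
      · exact h1.2
    · intro h1
      rcases eq_or_adj_or_far I x z with h3 | h3 | h3
      · subst h3
        exact absurd h1.symm hxy.not_adj
      · exact Or.inr ⟨h3, h1⟩
      · exact Or.inl ⟨h1, h3⟩
  · rw [Finset.disjoint_left]
    intro z hz hz'
    simp only [Finset.mem_filter, Finset.mem_univ, true_and, mem_cns2] at hz hz'
    exact hz.2.not_adj hz'.1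

end Pool.CCff5b
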