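import Pool.Agent.W_ccff5b_h86.Repro
import Pool.Agent.W_ccff5b_h86.CountB

set_option autoImplicit false

namespace Pool.CCff5b

open Finset
open scoped Classical

variable {Pt Ln : Type} [Fintype Pt] [Fintype Ln] {I : Pt → Ln → Prop} {s t : ℕ}

/-- the points far from both `x` and `y` -/
noncomputable def tr (I : Pt → Ln → Prop) (x y : Pt) : Finset Pt :=
  univ.filter (fun z => Far I x z ∧ Far I y z)

omit [Fintype Ln] in
@[simp] theorem mem_tr {x y z : Pt} : z ∈ tr I x y ↔ Far I x z ∧ Far I y z := by simp [tr]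

/-- **Task Moments (0).** `far x` is the disjoint union of `{y}`, the points `z ∼ y` far from `x`, and
`tr x y`; general form for sums of a function. -/
theorem GQ.sum_far_split (h : GQ I s t) {x y : Pt} (hxy : Far I x y) (f : Pt → ℤ) :
    ∑ z ∈ far I x, f z = f y + ∑ z ∈ univ.filter (fun z => Adj I y z ∧ Far I x z), f z
      + ∑ z ∈ tr I x y, f z := by
  have h1 : far I x = insert y (univ.filter (fun z => Adj I y z ∧ Far I x z) ∪ tr I x y) := by
    ext z
    simp only [mem_far, Finset.mem_insert, Finset.mem_union, Finset.mem_filter, Finset.mem_univ,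
      true_and, mem_tr]
    constructor
    · intro hz
      rcases eq_or_adj_or_far I y z with h2 | h2 | h2
      · exact Or.inl h2
      · exact Or.inr (Or.inl ⟨h2, hz⟩)
      · exact Or.inr (Or.inr ⟨hz, h2⟩)
    · rintro (rfl | h2 | h2)
      · exact hxy
      · exact h2.2
      · exact h2.1
  rw [h1, Finset.sum_insert, Finset.sum_union, add_assoc]
  · rw [Finset.disjoint_left]
    intro z hz hz'
    rw [Finset.mem_filter] at hz
    rw [mem_tr] at hz'
    exact hz'.2.not_adj hz.2.1
  · rw [Finset.mem_union, Finset.mem_filter, mem_tr]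
    rintro (h2 | h2)
    · exact not_adj_self h2.2.1
    · exact h.not_far_self h2.2

/-- **Task Moments (1).** From (0), `GQ.card_far`, `GQ.card_nb_far`. -/
theorem GQ.card_tr (h : GQ I s t) {x y : Pt} (hxy : Far I x y) :
    (tr I x y).card + 1 + s * (t + 1) = s ^ 2 * t + (t + 1) := by
  have h1 := h.sum_far_split hxy (fun _ => 1)
  simp only [Finset.sum_const, nsmul_eq_mul, mul_one] at h1
  rw [h.card_far x] at h1
  have h2 := h.card_nb_far hxy
  have h3 : s ^ 2 * t = 1 + (univ.filter (fun z => Adj I y z ∧ Far I x z)).card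
      + (tr I x y).card := by exact_mod_cast h1
  omega

private theorem sum_far_eq (x : Pt) {f : Pt → ℤ} (hf : ∀ z, ¬ Far I x z → f z = 0) :
    ∑ z, f z = ∑ z ∈ far I x, f z := by
  symm
  refine Finset.sum_subset (Finset.subset_univ _) fun z _ hz => hf z ?_
  rwa [mem_far] at hz

private theorem sum_adj_const (h : GQ I s t) {x y : Pt} (hxy : Far I x y) {f : Pt → ℤ} {c : ℤ}
    (hf : ∀ z, Adj I y z → Far I x z → f z = c) :
    ∑ z ∈ univ.filter (fun z => Adj I y z ∧ Far I x z), f z = ((s : ℤ) - 1) * ((t : ℤ) + 1) * c := by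
  have h1 : ∀ z ∈ univ.filter (fun z => Adj I y z ∧ Far I x z), f z = c := by
    intro z hz
    rw [Finset.mem_filter] at hz
    exact hf z hz.2.1 hz.2.2
  have h2 : ((univ.filter (fun z => Adj I y z ∧ Far I x z)).card : ℤ) + (t + 1) = s * (t + 1) := by
    exact_mod_cast h.card_nb_far hxy
  rw [Finset.sum_congr rfl h1, Finset.sum_const, nsmul_eq_mul]
  have h3 : ((univ.filter (fun z => Adj I y z ∧ Far I x z)).card : ℤ) =
      ((s : ℤ) - 1) * ((t : ℤ) + 1) := by linarith
  rw [h3]

/-- **Task Moments (2).** `∑_z G x y z = 0` (`GQ.LS_G`, `GQ.sum_univ`), (0), `G_self`, `G_adj`. -/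
theorem GQ.sum_tr_one (h : GQ I s t) (hst : s + t = s * s) {x y : Pt} (hxy : Far I x y) :
    ∑ z ∈ tr I x y, G I s x y z = (t : ℤ) * ((s : ℤ) - 1) := by
  have h1 := h.sum_univ (h.LS_G hst hxy)
  rw [sum_far_eq x fun z hz => G_zero hz, h.sum_far_split hxy, G_self hxy,
    sum_adj_const h hxy (c := -1) fun z h2 h3 => G_adj h3 h2] at h1
  linarith

/-- **Task Moments (3).** `∑_z (G x y z)^2 = s^3 (s-1)` (`GQ.sum_G_mul_G`), (0). -/
theorem GQ.sum_tr_sq (h : GQ I s t) (hst : s + t = s * s) {x y : Pt} (hxy : Far I x y) :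
    ∑ z ∈ tr I x y, (G I s x y z) ^ 2 =
      (s : ℤ) ^ 3 * ((s : ℤ) - 1) - ((s : ℤ) - 1) ^ 2 - ((t : ℤ) + 1) * ((s : ℤ) - 1) := by
  have h1 := h.sum_G_mul_G hst hxy hxy
  rw [G_self hxy] at h1
  have h0 : ∀ z, G I s x y z * G I s x y z = (G I s x y z) ^ 2 := fun z => (sq _).symm
  rw [Finset.sum_congr rfl fun z _ => h0 z, sum_far_eq x fun z hz => by
    rw [G_zero hz]; norm_num, h.sum_far_split hxy, G_self hxy,
    sum_adj_const h hxy (c := 1) fun z h2 h3 => by rw [G_adj h3 h2]; norm_num] at h1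
  linarith

end Pool.CCff5b
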