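import Pool.Agent.W_ccff5b_h86.RankF
import Pool.Agent.W_ccff5b_h86.Moments

set_option autoImplicit false

namespace Pool.CCff5b

open Finset
open scoped Classical

variable {Pt Ln : Type} [Fintype Pt] [Fintype Ln] {I : Pt → Ln → Prop} {s t : ℕ}

/-- The sum at one common neighbour `w`, restricted to the triads. -/
theorem GQ.cube_at (h : GQ I s t) (hst : s + t = s * s) (hs : 1 ≤ s) {x y w : Pt}
    (hxy : Far I x y) (hxw : Adj I x w) (hyw : Adj I y w) :
    ∑ z ∈ (tr I x y).filter (fun z => Adj I w z), (G I s x y z) ^ 2 =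
      (s : ℤ) ^ 2 * ((s : ℤ) - 1) - ((s : ℤ) - 1) ^ 2 - ((s : ℤ) - 1) := by
  have h0 := h.sum_sq_at hst hs hxy hxw hyw
  obtain ⟨hne, l, hy, hw⟩ := hyw
  have hxl : ¬ I x l := hxy.symm l hy
  have hyl : y ∈ pts I l := mem_pts.2 hy
  have hwl : w ∈ pts I l := mem_pts.2 hw
  have hyw' : Adj I y w := ⟨hne, l, hy, hw⟩
  set B : Finset Pt := ((pts I l).erase w).erase y with hB
  have hmB : ∀ z, z ∈ B ↔ z ≠ y ∧ z ≠ w ∧ I z l := by
    intro z
    rw [hB, mem_erase, mem_erase, mem_pts]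
  have hBfar : ∀ z ∈ B, Far I x z := by
    intro z hz
    obtain ⟨h1, h2, h3⟩ := (hmB z).1 hz
    refine far_of_ne (fun e => hxl (e ▸ h3)) (fun ha => ?_)
    exact h2 (h.proj_unique hxl h3 hw ha hxw)
  have hBadj : ∀ z ∈ B, Adj I y z := by
    intro z hz
    obtain ⟨h1, h2, h3⟩ := (hmB z).1 hz
    exact ⟨h1.symm, l, hy, h3⟩
  have hset : univ.filter (fun z => Adj I w z ∧ Far I x z) =
      insert y (B ∪ (tr I x y).filter (fun z => Adj I w z)) := by
    ext z
    simp only [mem_filter, mem_univ, true_and, mem_insert, mem_union, mem_tr, hmB]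
    constructor
    · rintro ⟨h1, h2⟩
      rcases eq_or_adj_or_far I y z with h3 | h3 | h3
      · exact Or.inl h3
      · right; left
        exact ⟨h3.ne.symm, h1.ne.symm, h.tri hne hy hw h3 h1⟩
      · right; right
        exact ⟨⟨h2, h3⟩, h1⟩
    · rintro (h3 | h3 | h3)
      · subst h3
        exact ⟨hyw'.symm, hxy⟩
      · exact ⟨⟨h3.2.1.symm, l, hw, h3.2.2⟩, hBfar z ((hmB z).2 h3)⟩
      · exact ⟨h3.2, h3.1.1⟩
  have hyn : y ∉ B ∪ (tr I x y).filter (fun z => Adj I w z) := by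
    simp only [mem_union, hmB, mem_filter, mem_tr]
    rintro (h3 | h3)
    · exact h3.1 rfl
    · exact h.not_far_self h3.1.2
  have hdis : Disjoint B ((tr I x y).filter (fun z => Adj I w z)) := by
    rw [disjoint_left]
    intro z hz hz'
    simp only [mem_filter, mem_tr] at hz'
    exact (hBadj z hz).not_far hz'.1.2
  have hBc : (B.card : ℤ) = (s : ℤ) - 1 := by
    have h1 : B.card = s + 1 - 1 - 1 := by
      rw [hB, card_erase_of_mem (mem_erase.2 ⟨hne, hyl⟩), card_erase_of_mem hwl, h.pts_card l]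
    rw [h1]
    have h2 : s + 1 - 1 - 1 = s - 1 := by omega
    rw [h2, Nat.cast_sub hs]
    simp
  have hBs : ∑ z ∈ B, (G I s x y z) ^ 2 = (s : ℤ) - 1 := by
    rw [sum_congr rfl (fun z hz => by rw [G_adj (hBfar z hz) (hBadj z hz)] :
      ∀ z ∈ B, (G I s x y z) ^ 2 = (-1 : ℤ) ^ 2)]
    rw [sum_const, nsmul_eq_mul, hBc]
    ring
  rw [hset, sum_insert hyn, sum_union hdis, hBs, G_self hxy] at h0
  linarith

/-- **Task Cube.** Sum `GQ.sum_sq_at` over the `t+1` common neighbours `w` of `x, y`. For each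
`w` the set `{z ∼ w, z far from x}` consists of `y` (value `s-1`), the `s-1` points `≠ w, y` of the line
`wy` (value `-1`; these are the `z` with `z ∼ y` too, `GQ.tri`), and the `z ∼ w` with `z ∈ tr x y`. So
`∑_{z ∈ tr x y} cn x y z * (G x y z)^2 = (t+1) (s^2 (s-1) - (s-1)^2 - (s-1))`, and `cn x y z = s - G x y z`.
With `GQ.sum_tr_sq` and `t = s^2 - s`: `∑ (G x y z)^3 = s (s-1)^3`. -/
theorem GQ.sum_tr_cube (h : GQ I s t) (hst : s + t = s * s) (hs : 1 ≤ s) {x y : Pt}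
    (hxy : Far I x y) : ∑ z ∈ tr I x y, (G I s x y z) ^ 3 = (s : ℤ) * ((s : ℤ) - 1) ^ 3 := by
  have h2 := h.sum_tr_sq hst hxy
  have hcn : ∀ z, (cn I x y z : ℤ) = ∑ w ∈ cns2 I x y, if Adj I w z then (1 : ℤ) else 0 := by
    intro z
    rw [← sum_filter, sum_const, nsmul_eq_mul, mul_one]
    unfold cn
    congr 2
    ext w
    simp only [mem_cns, mem_filter, mem_cns2, and_assoc, adj_comm (p := w) (q := z)]
  have h3 : ∑ z ∈ tr I x y, (cn I x y z : ℤ) * (G I s x y z) ^ 2 =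
      ((t : ℤ) + 1) * ((s : ℤ) ^ 2 * ((s : ℤ) - 1) - ((s : ℤ) - 1) ^ 2 - ((s : ℤ) - 1)) := by
    have h4 : ∑ z ∈ tr I x y, (cn I x y z : ℤ) * (G I s x y z) ^ 2 =
        ∑ w ∈ cns2 I x y, ∑ z ∈ (tr I x y).filter (fun z => Adj I w z), (G I s x y z) ^ 2 := by
      simp_rw [hcn, sum_mul, ite_mul, one_mul, zero_mul]
      rw [sum_comm]
      refine sum_congr rfl fun w _ => ?_
      rw [sum_filter]
    rw [h4, sum_congr rfl (fun w hw => h.cube_at hst hs hxy (mem_cns2.1 hw).1 (mem_cns2.1 hw).2),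
      sum_const, h.card_cns2 hxy, nsmul_eq_mul]
    push_cast
    ring
  have h5 : ∑ z ∈ tr I x y, (G I s x y z) ^ 3 = (s : ℤ) * ∑ z ∈ tr I x y, (G I s x y z) ^ 2 -
      ∑ z ∈ tr I x y, (cn I x y z : ℤ) * (G I s x y z) ^ 2 := by
    rw [mul_sum, ← sum_sub_distrib]
    refine sum_congr rfl fun z hz => ?_
    have h6 := h.G_triad (mem_tr.1 hz).1 (mem_tr.1 hz).2
    have h7 : (cn I x y z : ℤ) = (s : ℤ) - G I s x y z := by rw [h6]; ring
    rw [h7]
    ring
  have ht : (t : ℤ) = (s : ℤ) * s - s := by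
    have h8 : ((s + t : ℕ) : ℤ) = ((s * s : ℕ) : ℤ) := by rw [hst]
    push_cast at h8
    linarith
  rw [h5, h2, h3, ht]
  ring

end Pool.CCff5b
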