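import Mathlib

/-!
# Finite generalized quadrangles, matrices `G` and `F` (MP_ccff5b_co, helper86)

Points `Pt`, lines `Ln`, incidence `I`.  All decidability is classical.
-/

set_option autoImplicit false

namespace Pool.CCff5b

open Finset
open scoped Classical

variable {Pt Ln : Type} [Fintype Pt] [Fintype Ln]

/-- two distinct points on a common line -/
def Adj (I : Pt → Ln → Prop) (p q : Pt) : Prop := p ≠ q ∧ ∃ l, I p l ∧ I q l

/-- two points which are not on a common line -/
def Far (I : Pt → Ln → Prop) (p q : Pt) : Prop := ∀ l, I p l → ¬ I q l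

/-- the points of a line -/
noncomputable def pts (I : Pt → Ln → Prop) (l : Ln) : Finset Pt := univ.filter (fun p => I p l)

/-- the lines through a point -/
noncomputable def lns (I : Pt → Ln → Prop) (p : Pt) : Finset Ln := univ.filter (fun l => I p l)

/-- the neighbours of a point -/
noncomputable def nb (I : Pt → Ln → Prop) (p : Pt) : Finset Pt := univ.filter (fun q => Adj I p q)

/-- the points far from a point -/
noncomputable def far (I : Pt → Ln → Prop) (p : Pt) : Finset Pt := univ.filter (fun q => Far I p q)

/-- finite generalized quadrangle of order `(s,t)` -/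
structure GQ (I : Pt → Ln → Prop) (s t : ℕ) : Prop where
  lns_card : ∀ p : Pt, (lns I p).card = t + 1
  pts_card : ∀ l : Ln, (pts I l).card = s + 1
  two : ∀ p q : Pt, ∀ l m : Ln, I p l → I q l → I p m → I q m → p ≠ q → l = m
  proj : ∀ p : Pt, ∀ l : Ln, ¬ I p l → ∃! qm : Pt × Ln, I p qm.2 ∧ I qm.1 qm.2 ∧ I qm.1 l

/-- common neighbours of three points -/
noncomputable def cns (I : Pt → Ln → Prop) (x y z : Pt) : Finset Pt :=
  univ.filter (fun w => Adj I x w ∧ Adj I y w ∧ Adj I z w)

/-- number of common neighbours of three points -/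
noncomputable def cn (I : Pt → Ln → Prop) (x y z : Pt) : ℕ := (cns I x y z).card

/-- common neighbours of two points -/
noncomputable def cns2 (I : Pt → Ln → Prop) (x y : Pt) : Finset Pt :=
  univ.filter (fun w => Adj I x w ∧ Adj I y w)

/-- `G s x y z`: `0` if `z` is not far from `x`; `s-1` if `z = y`; `-1` if `z ∼ y`;
`s - #(common neighbours of x, y, z)` otherwise. (Only used for `y` far from `x`.) -/
noncomputable def G (I : Pt → Ln → Prop) (s : ℕ) (x y z : Pt) : ℤ :=
  if Far I x z then
    (if z = y then (s : ℤ) - 1 else if Adj I y z then -1 else (s : ℤ) - cn I x y z)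
  else 0

/-- `F s x z`: `s^2` if `z = x`, `-s` if `z ∼ x`, `1` if `z` is far from `x`. -/
noncomputable def F (I : Pt → Ln → Prop) (s : ℕ) (x z : Pt) : ℤ :=
  if z = x then (s : ℤ) ^ 2 else if Adj I x z then -(s : ℤ) else 1

/-- zero line sums -/
def LS (I : Pt → Ln → Prop) (f : Pt → ℤ) : Prop := ∀ l, ∑ z ∈ pts I l, f z = 0

end Pool.CCff5b
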