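import Mathlib

set_option autoImplicit false

namespace Pool.CCff5b

open Finset
open scoped Classical

/-- **Task Triple.** Four subsets of size 39 of a set `T` of size 84, pairwise meeting in 12 elements:
no element is in three of them. Proof. For `p ∈ T` let `m p = ∑_i [p ∈ S i]` (integer). Then
`∑_{p ∈ T} m p = 4 * 39 = 156`, `∑_{p ∈ T} (m p)^2 = ∑_{i,j} |S i ∩ S j| = 4 * 39 + 12 * 12 = 300`, so
`∑_{p ∈ T} (m p - 1)(m p - 2) = 300 - 3 * 156 + 2 * 84 = 0`; each term is `≥ 0` (integers), so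
`m p ∈ {1, 2}` for all `p ∈ T`; `p ∈ S i ∩ S j ∩ S k` would give `m p ≥ 3`. -/
theorem no_triple {P : Type} (T : Finset P) (S : Fin 4 → Finset P) (hS : ∀ i, S i ⊆ T)
    (hc : ∀ i, (S i).card = 39) (hcc : ∀ i j, i ≠ j → (S i ∩ S j).card = 12) (hT : T.card = 84)
    {i j k : Fin 4} (hij : i ≠ j) (hjk : j ≠ k) (hik : i ≠ k) (p : P) (hi : p ∈ S i)
    (hj : p ∈ S j) (hk : p ∈ S k) : False := by
  let a : Fin 4 → P → ℤ := fun i p => if p ∈ S i then 1 else 0
  let m : P → ℤ := fun p => ∑ i, a i p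
  have ha : ∀ i, ∑ p ∈ T, a i p = 39 := by
    intro i
    have h1 : T.filter (fun p => p ∈ S i) = S i := by
      ext q
      simp only [Finset.mem_filter]
      exact ⟨fun h => h.2, fun h => ⟨hS i h, h⟩⟩
    have h2 : ∑ p ∈ T, a i p = ((T.filter (fun p => p ∈ S i)).card : ℤ) := by
      simp only [a]
      exact Finset.sum_boole _ _
    rw [h2, h1, hc i]
    rfl
  have haa : ∀ i j, ∑ p ∈ T, a i p * a j p = if i = j then 39 else 12 := by
    intro i j
    have h0 : ∀ p, a i p * a j p = if p ∈ S i ∩ S j then (1 : ℤ) else 0 := by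
      intro p
      simp only [a, Finset.mem_inter]
      by_cases h1 : p ∈ S i <;> by_cases h2 : p ∈ S j <;> simp [h1, h2]
    have h1 : T.filter (fun p => p ∈ S i ∩ S j) = S i ∩ S j := by
      ext q
      simp only [Finset.mem_filter]
      exact ⟨fun h => h.2, fun h => ⟨hS i (Finset.mem_inter.1 h).1, h⟩⟩
    have h2 : ∑ p ∈ T, a i p * a j p = ((T.filter (fun p => p ∈ S i ∩ S j)).card : ℤ) := by
      rw [Finset.sum_congr rfl fun p _ => h0 p]
      exact Finset.sum_boole _ _
    rw [h2, h1]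
    by_cases hij : i = j
    · rw [if_pos hij, hij, Finset.inter_self, hc j]
      rfl
    · rw [if_neg hij, hcc i j hij]
      rfl
  have hm1 : ∑ p ∈ T, m p = 156 := by
    simp only [m]
    rw [Finset.sum_comm, Finset.sum_congr rfl fun i _ => ha i]
    simp
  have hm2 : ∑ p ∈ T, m p ^ 2 = 300 := by
    have h1 : ∀ p, m p ^ 2 = ∑ i, ∑ j, a i p * a j p := by
      intro p
      simp only [m]
      rw [sq, Finset.sum_mul_sum]
    rw [Finset.sum_congr rfl fun p _ => h1 p, Finset.sum_comm]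
    have h2 : ∀ i, ∑ p ∈ T, ∑ j, a i p * a j p = ∑ j, (if i = j then (39 : ℤ) else 12) := by
      intro i
      rw [Finset.sum_comm]
      exact Finset.sum_congr rfl fun j _ => haa i j
    rw [Finset.sum_congr rfl fun i _ => h2 i]
    decide
  have hm3 : ∑ p ∈ T, (m p - 1) * (m p - 2) = 0 := by
    have h1 : ∀ p, (m p - 1) * (m p - 2) = m p ^ 2 - 3 * m p + 2 := by
      intro p
      ring
    rw [Finset.sum_congr rfl fun p _ => h1 p, Finset.sum_add_distrib, Finset.sum_sub_distrib,
      ← Finset.mul_sum, hm1, hm2, Finset.sum_const, hT]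
    norm_num
  have hnn : ∀ p ∈ T, 0 ≤ (m p - 1) * (m p - 2) := by
    intro p _
    rcases le_or_gt (m p) 1 with h | h
    · nlinarith
    · have h' : 2 ≤ m p := h
      nlinarith
  have hz := (Finset.sum_eq_zero_iff_of_nonneg hnn).1 hm3 p (hS i hi)
  have hmle : m p ≤ 2 := by
    rcases mul_eq_zero.1 hz with h | h <;> omega
  have hm3' : 3 ≤ m p := by
    have h1 : ∑ l ∈ ({i, j, k} : Finset (Fin 4)), a l p ≤ ∑ l, a l p := by
      refine Finset.sum_le_sum_of_subset_of_nonneg (Finset.subset_univ _) fun l _ _ => ?_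
      simp only [a]
      split_ifs <;> norm_num
    have h2 : ∑ l ∈ ({i, j, k} : Finset (Fin 4)), a l p = 3 := by
      have e1 : i ∉ ({j, k} : Finset (Fin 4)) := by simp [hij, hik]
      have e2 : j ∉ ({k} : Finset (Fin 4)) := by simp [hjk]
      rw [Finset.sum_insert e1, Finset.sum_insert e2, Finset.sum_singleton]
      simp only [a, if_pos hi, if_pos hj, if_pos hk]
      norm_num
    rw [h2] at h1
    exact h1
  omega

end Pool.CCff5b
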