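import Pool.Agent.W_ccff5b_h86.Four
import Pool.Agent.W_ccff5b_h86.Triple

set_option autoImplicit false

namespace Pool.CCff5b

open Finset
open scoped Classical

variable {Pt Ln : Type} [Fintype Pt] [Fintype Ln] {I : Pt → Ln → Prop}

/-- **Task ExW.** `y_0, ..., y_3` distinct points far from `x` with `G^x_{y_i}(y_j) = 3` for all
`i, j`, and exactly 84 points of `far x` where `G^x_{y_0}` is `-1`. Then some `w` is collinear with `x`
and all `y_i`.
Proof. By `GQ.G_eq_of_top` the functions `G^x_{y_i}` are equal. For `i ≠ j`, `y_i` is far from `y_j`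
(if `y_i ∼ y_j` the value would be `-1`, `G_adj`) and `cn x y_i y_j = 1` (`G_triad`: `3 = 4 - cn`).
Let `S i = {z : z ∼ y_i, z far from x}`: `39` elements (`GQ.card_nb_far`: `+13 = 52`), contained in
`T = {z ∈ far x : G^x_{y_0} z = -1}` (`G_adj`). `S i ∩ S j` = the common neighbours of `y_i, y_j`
(13, `GQ.card_cns2`) which are far from `x`; a common neighbour of `y_i, y_j` is `≠ x`, and exactly
`cn x y_i y_j = 1` is collinear with `x`; so `|S i ∩ S j| = 12`. By `no_triple` no point is in three of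
the `S i`. For `i, j, k` distinct, `G^{y_i}_{y_j}(y_k) ≤ 3` (`GQ.G_le`), so `cn y_i y_j y_k ≥ 1`: there is a
common neighbour, not far from `x` (it would be in three `S`), `≠ x`, so collinear with `x`: so it is a
common neighbour of `x, y_i, y_j`. As `cn x y_i y_j = 1`, with `w` the common neighbour of
`x, y_0, y_1`: `w ∼ y_2` (triple 0,1,2) and `w ∼ y_3` (triple 0,1,3). -/
theorem GQ.exists_w (h : GQ I 4 12) {x : Pt} {y : Fin 4 → Pt} (hinj : Function.Injective y)
    (hfar : ∀ i, Far I x (y i)) (htop : ∀ i j, G I 4 x (y i) (y j) = 3)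
    (h84 : ((far I x).filter (fun z => G I 4 x (y 0) z = -1)).card = 84) :
    ∃ w, Adj I x w ∧ ∀ i, Adj I (y i) w := by
  have hfy : ∀ i j, i ≠ j → Far I (y i) (y j) := by
    intro i j hij
    rcases eq_or_adj_or_far I (y i) (y j) with h1 | h1 | h1
    · exact absurd (hinj h1).symm hij
    · have h2 := G_adj (s := 4) (hfar j) h1
      rw [htop i j] at h2
      norm_num at h2
    · exact h1
  have hcn : ∀ i j, i ≠ j → (cns I x (y i) (y j)).card = 1 := by
    intro i j hij
    have h1 := h.G_triad (hfar j) (hfy i j hij)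
    rw [htop i j] at h1
    have h2 : ((cn I x (y i) (y j) : ℕ) : ℤ) = 1 := by
      push_cast at h1
      linarith
    have h3 : cn I x (y i) (y j) = 1 := by exact_mod_cast h2
    exact h3
  let S : Fin 4 → Finset Pt := fun i => univ.filter (fun z => Adj I (y i) z ∧ Far I x z)
  let T : Finset Pt := (far I x).filter (fun z => G I 4 x (y 0) z = -1)
  have hmS : ∀ i z, z ∈ S i ↔ Adj I (y i) z ∧ Far I x z := by
    intro i z
    simp only [S, Finset.mem_filter, Finset.mem_univ, true_and]
  have hS : ∀ i, S i ⊆ T := by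
    intro i z hz
    obtain ⟨h1, h2⟩ := (hmS i z).1 hz
    refine Finset.mem_filter.2 ⟨mem_far.2 h2, ?_⟩
    have h3 : G I 4 x (y 0) (y i) = ((4 : ℕ) : ℤ) - 1 := by
      rw [htop 0 i]
      norm_num
    rw [h.G_eq_of_top (by norm_num) (hfar 0) (hfar i) h3 z]
    exact G_adj h2 h1
  have hSc : ∀ i, (S i).card = 39 := by
    intro i
    have h1 := h.card_nb_far (hfar i)
    have h2 : (S i).card = (univ.filter (fun z => Adj I (y i) z ∧ Far I x z)).card := rfl
    omega
  have hno : ∀ i z, Adj I (y i) z → z ≠ x := by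
    intro i z hz hzx
    rw [hzx] at hz
    exact (hfar i).not_adj hz.symm
  have hSS : ∀ i j, i ≠ j → (S i ∩ S j).card = 12 := by
    intro i j hij
    have h1 := h.card_cns2 (hfy i j hij)
    have h2 := Finset.card_filter_add_card_filter_not (s := cns2 I (y i) (y j))
      (fun z => Far I x z)
    have h3 : (cns2 I (y i) (y j)).filter (fun z => Far I x z) = S i ∩ S j := by
      ext z
      rw [Finset.mem_filter, mem_cns2, Finset.mem_inter, hmS, hmS]
      tauto
    have h4 : (cns2 I (y i) (y j)).filter (fun z => ¬ Far I x z) = cns I x (y i) (y j) := by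
      ext z
      rw [Finset.mem_filter, mem_cns2, mem_cns]
      constructor
      · rintro ⟨⟨h5, h6⟩, h7⟩
        rcases eq_or_adj_or_far I x z with h8 | h8 | h8
        · exact absurd h8 (hno i z h5)
        · exact ⟨h8, h5, h6⟩
        · exact absurd h8 h7
      · rintro ⟨h5, h6, h7⟩
        exact ⟨⟨h6, h7⟩, h5.not_far⟩
    rw [h3, h4, hcn i j hij, h1] at h2
    omega
  have hT : T.card = 84 := h84
  have htri : ∀ i j k, i ≠ j → j ≠ k → i ≠ k → ∃ w, w ∈ cns I x (y i) (y j) ∧ Adj I (y k) w := by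
    intro i j k hij hjk hik
    have h1 := h.G_le (by norm_num) (by norm_num) (hfy i j hij) (hfy i k hik)
    have h2 := h.G_triad (hfy i k hik) (hfy j k hjk)
    rw [h2] at h1
    have h3 : (1 : ℤ) ≤ ((cn I (y i) (y j) (y k) : ℕ) : ℤ) := by linarith
    have h4 : 0 < (cns I (y i) (y j) (y k)).card := by
      have h5 : 1 ≤ cn I (y i) (y j) (y k) := by exact_mod_cast h3
      exact h5
    obtain ⟨w, hw⟩ := Finset.card_pos.1 h4
    obtain ⟨hw1, hw2, hw3⟩ := mem_cns.1 hw
    refine ⟨w, mem_cns.2 ⟨?_, hw1, hw2⟩, hw3⟩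
    rcases eq_or_adj_or_far I x w with h8 | h8 | h8
    · exact absurd h8 (hno i w hw1)
    · exact h8
    · exact (no_triple T S hS hSc hSS hT hij hjk hik w ((hmS i w).2 ⟨hw1, h8⟩)
        ((hmS j w).2 ⟨hw2, h8⟩) ((hmS k w).2 ⟨hw3, h8⟩)).elim
  obtain ⟨w, hw, hw2⟩ := htri 0 1 2 (by decide) (by decide) (by decide)
  obtain ⟨w', hw', hw3⟩ := htri 0 1 3 (by decide) (by decide) (by decide)
  obtain ⟨v, hv⟩ := Finset.card_eq_one.1 (hcn 0 1 (by decide))
  have e1 : w = v := by
    rw [hv] at hw
    exact Finset.mem_singleton.1 hw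
  have e2 : w' = v := by
    rw [hv] at hw'
    exact Finset.mem_singleton.1 hw'
  rw [e2, ← e1] at hw3
  obtain ⟨h1, h2, h3⟩ := mem_cns.1 hw
  refine ⟨w, h1, ?_⟩
  intro i
  fin_cases i
  · exact h2
  · exact h3
  · exact hw2
  · exact hw3

end Pool.CCff5b
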