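import Mathlib

set_option autoImplicit false

namespace Pool.CCff5b

open Finset

private theorem quB_swap {P : Type} (D : Finset P) (f : P → P → P → P → P → ℤ) :
    ∑ a ∈ D, ∑ b ∈ D, ∑ c ∈ D, ∑ d ∈ D, ∑ y ∈ D, f a b c d y =
      ∑ y ∈ D, ∑ a ∈ D, ∑ b ∈ D, ∑ c ∈ D, ∑ d ∈ D, f a b c d y := by
  have h1 : ∀ a b c, ∑ d ∈ D, ∑ y ∈ D, f a b c d y = ∑ y ∈ D, ∑ d ∈ D, f a b c d y :=
    fun a b c => Finset.sum_comm
  have h2 : ∀ a b, ∑ c ∈ D, ∑ y ∈ D, ∑ d ∈ D, f a b c d y =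
      ∑ y ∈ D, ∑ c ∈ D, ∑ d ∈ D, f a b c d y := fun a b => Finset.sum_comm
  have h3 : ∀ a, ∑ b ∈ D, ∑ y ∈ D, ∑ c ∈ D, ∑ d ∈ D, f a b c d y =
      ∑ y ∈ D, ∑ b ∈ D, ∑ c ∈ D, ∑ d ∈ D, f a b c d y := fun a => Finset.sum_comm
  simp only [h1, h2, h3]
  exact Finset.sum_comm

private theorem quB_key {P : Type} (D : Finset P) (g : P → P → ℤ) (κ δ : ℤ)
    (hg : ∀ y ∈ D, ∀ z ∈ D, ∑ u ∈ D, g y u * g z u = κ * g y z) (hd : ∀ y ∈ D, g y y = δ)
    (y : P) (hy : y ∈ D) :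
    ∑ a ∈ D, ∑ b ∈ D, g y a * g y b * g a b = κ ^ 2 * δ := by
  have h1 : ∀ a ∈ D, ∑ b ∈ D, g y a * g y b * g a b = κ * (g y a * g y a) := by
    intro a ha
    calc ∑ b ∈ D, g y a * g y b * g a b = g y a * ∑ b ∈ D, g y b * g a b := by
          rw [Finset.mul_sum]
          exact Finset.sum_congr rfl fun b _ => by ring
      _ = κ * (g y a * g y a) := by rw [hg y hy a ha]; ring
  rw [Finset.sum_congr rfl h1, ← Finset.mul_sum, hg y hy y hy, hd y hy]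
  ring

private theorem quB_prod {P : Type} (D : Finset P) (g : P → P → ℤ) (κ δ : ℤ)
    (hg : ∀ y ∈ D, ∀ z ∈ D, ∑ u ∈ D, g y u * g z u = κ * g y z) (hd : ∀ y ∈ D, g y y = δ)
    (y : P) (hy : y ∈ D) :
    ∑ a ∈ D, ∑ b ∈ D, ∑ c ∈ D, ∑ d ∈ D,
      (g y a * g y b * g a b) * (g y c * g y d * g c d) = (κ ^ 2 * δ) ^ 2 := by
  have h := quB_key D g κ δ hg hd y hy
  have h1 : ∀ a b, ∑ c ∈ D, ∑ d ∈ D, (g y a * g y b * g a b) * (g y c * g y d * g c d) =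
      (g y a * g y b * g a b) * (κ ^ 2 * δ) := by
    intro a b
    simp only [← Finset.mul_sum]
    rw [h]
  simp only [h1, ← Finset.sum_mul]
  rw [h]
  ring

/-- **Task QuB.** `⟨S, T⟩ = 3 κ^4 |D| δ^2`, `T a b c d = g a b * g c d + g a c * g b d +
g a d * g b c`: each of the three terms gives `∑_y (∑_{a,b} g y a g y b g a b)^2 = ∑_y (κ^2 g y y)^2`. -/
theorem quartic_ST {P : Type} (D : Finset P) (g : P → P → ℤ) (κ δ : ℤ)
    (hsymm : ∀ y ∈ D, ∀ z ∈ D, g y z = g z y)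
    (hg : ∀ y ∈ D, ∀ z ∈ D, ∑ u ∈ D, g y u * g z u = κ * g y z) (hd : ∀ y ∈ D, g y y = δ) :
    ∑ a ∈ D, ∑ b ∈ D, ∑ c ∈ D, ∑ d ∈ D, (∑ y ∈ D, g y a * g y b * g y c * g y d) *
      (g a b * g c d + g a c * g b d + g a d * g b c) = 3 * κ ^ 4 * ((D.card : ℤ) * δ ^ 2) := by
  have _ := hsymm
  simp only [Finset.sum_mul]
  rw [quB_swap D (fun a b c d y => g y a * g y b * g y c * g y d *
    (g a b * g c d + g a c * g b d + g a d * g b c))]
  have hA := quB_prod D g κ δ hg hd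
  have hy : ∀ y ∈ D, ∑ a ∈ D, ∑ b ∈ D, ∑ c ∈ D, ∑ d ∈ D, g y a * g y b * g y c * g y d *
      (g a b * g c d + g a c * g b d + g a d * g b c) = 3 * κ ^ 4 * δ ^ 2 := by
    intro y hy
    have h0 := hA y hy
    have e1 : ∑ a ∈ D, ∑ b ∈ D, ∑ c ∈ D, ∑ d ∈ D, g y a * g y b * g y c * g y d *
        (g a b * g c d) = (κ ^ 2 * δ) ^ 2 := by
      rw [← h0]
      refine Finset.sum_congr rfl fun a _ => Finset.sum_congr rfl fun b _ =>
        Finset.sum_congr rfl fun c _ => Finset.sum_congr rfl fun d _ => by ring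
    have e2 : ∑ a ∈ D, ∑ b ∈ D, ∑ c ∈ D, ∑ d ∈ D, g y a * g y b * g y c * g y d *
        (g a c * g b d) = (κ ^ 2 * δ) ^ 2 := by
      rw [← h0]
      refine Finset.sum_congr rfl fun a _ => ?_
      rw [Finset.sum_comm]
      refine Finset.sum_congr rfl fun b _ =>
        Finset.sum_congr rfl fun c _ => Finset.sum_congr rfl fun d _ => by ring
    have e3 : ∑ a ∈ D, ∑ b ∈ D, ∑ c ∈ D, ∑ d ∈ D, g y a * g y b * g y c * g y d *
        (g a d * g b c) = (κ ^ 2 * δ) ^ 2 := by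
      rw [← h0]
      refine Finset.sum_congr rfl fun a _ => ?_
      calc ∑ b ∈ D, ∑ c ∈ D, ∑ d ∈ D, g y a * g y b * g y c * g y d * (g a d * g b c)
          = ∑ b ∈ D, ∑ d ∈ D, ∑ c ∈ D, g y a * g y b * g y c * g y d * (g a d * g b c) :=
            Finset.sum_congr rfl fun b _ => Finset.sum_comm
        _ = ∑ d ∈ D, ∑ b ∈ D, ∑ c ∈ D, g y a * g y b * g y c * g y d * (g a d * g b c) :=
            Finset.sum_comm
        _ = _ := Finset.sum_congr rfl fun b _ =>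
            Finset.sum_congr rfl fun c _ => Finset.sum_congr rfl fun d _ => by ring
    simp only [mul_add, Finset.sum_add_distrib]
    rw [e1, e2, e3]
    ring
  rw [Finset.sum_congr rfl hy, Finset.sum_const, nsmul_eq_mul]
  ring

end Pool.CCff5b
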