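import Mathlib

set_option autoImplicit false

namespace Pool.CCff5b

open Finset

/-- **Task QuC.** `⟨T, T⟩ = 3 (κ |D| δ)^2 + 6 κ^3 |D| δ`: three square terms
`(∑_{a,b} (g a b)^2)^2 = (κ |D| δ)^2`, and three double products, each
`2 ∑_{a,d} (∑_b g a b g b d) (∑_c g a c g c d) = 2 κ^2 ∑_{a,d} (g a d)^2 = 2 κ^3 |D| δ`. -/
theorem quartic_TT {P : Type} (D : Finset P) (g : P → P → ℤ) (κ δ : ℤ)
    (hsymm : ∀ y ∈ D, ∀ z ∈ D, g y z = g z y)
    (hg : ∀ y ∈ D, ∀ z ∈ D, ∑ u ∈ D, g y u * g z u = κ * g y z) (hd : ∀ y ∈ D, g y y = δ) :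
    ∑ a ∈ D, ∑ b ∈ D, ∑ c ∈ D, ∑ d ∈ D,
      (g a b * g c d + g a c * g b d + g a d * g b c) ^ 2 =
      3 * (κ * ((D.card : ℤ) * δ)) ^ 2 + 6 * κ ^ 3 * ((D.card : ℤ) * δ) := by
  have row : ∀ y ∈ D, ∑ u ∈ D, g y u * g y u = κ * δ := fun y hy => by
    rw [hg y hy y hy, hd y hy]
  have s1 : ∀ a ∈ D, ∀ b ∈ D, ∀ c ∈ D, ∑ d ∈ D,
      (g a b * g c d + g a c * g b d + g a d * g b c) ^ 2 =
      (g a b * g a b) * (κ * δ) + (g a c * g a c) * (κ * δ) + (g b c * g b c) * (κ * δ) +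
        6 * κ * g a b * (g a c * g b c) := by
    intro a ha b hb c hc
    have e : ∀ d ∈ D, (g a b * g c d + g a c * g b d + g a d * g b c) ^ 2 =
        (g a b * g a b) * (g c d * g c d) + (g a c * g a c) * (g b d * g b d) +
          (g b c * g b c) * (g a d * g a d) + (2 * g a b * g a c) * (g c d * g b d) +
          (2 * g a b * g b c) * (g c d * g a d) + (2 * g a c * g b c) * (g b d * g a d) := by
      intro d _
      ring
    rw [Finset.sum_congr rfl e]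
    simp only [Finset.sum_add_distrib, ← Finset.mul_sum]
    rw [row c hc, row b hb, row a ha, hg c hc b hb, hg c hc a ha, hg b hb a ha,
      hsymm c hc b hb, hsymm c hc a ha, hsymm b hb a ha]
    ring
  have s2 : ∀ a ∈ D, ∀ b ∈ D, ∑ c ∈ D, ∑ d ∈ D,
      (g a b * g c d + g a c * g b d + g a d * g b c) ^ 2 =
      (D.card : ℤ) * ((g a b * g a b) * (κ * δ)) + 2 * (κ * δ) ^ 2 +
        6 * κ ^ 2 * (g a b * g a b) := by
    intro a ha b hb
    rw [Finset.sum_congr rfl (s1 a ha b hb)]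
    simp only [Finset.sum_add_distrib, ← Finset.mul_sum, ← Finset.sum_mul]
    rw [row a ha, row b hb, hg a ha b hb, Finset.sum_const, nsmul_eq_mul]
    ring
  have s3 : ∀ a ∈ D, ∑ b ∈ D, ∑ c ∈ D, ∑ d ∈ D,
      (g a b * g c d + g a c * g b d + g a d * g b c) ^ 2 =
      3 * (D.card : ℤ) * (κ * δ) ^ 2 + 6 * κ ^ 3 * δ := by
    intro a ha
    rw [Finset.sum_congr rfl (s2 a ha)]
    simp only [Finset.sum_add_distrib, ← Finset.mul_sum, ← Finset.sum_mul]
    rw [row a ha, Finset.sum_const, nsmul_eq_mul]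
    ring
  rw [Finset.sum_congr rfl s3, Finset.sum_const, nsmul_eq_mul]
  ring

end Pool.CCff5b
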