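import Pool.Agent.W_ccff5b_h86.QuA
import Pool.Agent.W_ccff5b_h86.QuB
import Pool.Agent.W_ccff5b_h86.QuC

set_option autoImplicit false

namespace Pool.CCff5b

open Finset

private theorem sq_expand {P : Type} (D : Finset P) (S T : P → P → P → P → ℤ) (lam mu : ℤ) :
    lam ^ 2 * (∑ a ∈ D, ∑ b ∈ D, ∑ c ∈ D, ∑ d ∈ D, (S a b c d) ^ 2)
      - 2 * lam * mu * (∑ a ∈ D, ∑ b ∈ D, ∑ c ∈ D, ∑ d ∈ D, S a b c d * T a b c d)
      + mu ^ 2 * (∑ a ∈ D, ∑ b ∈ D, ∑ c ∈ D, ∑ d ∈ D, (T a b c d) ^ 2) =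
      ∑ a ∈ D, ∑ b ∈ D, ∑ c ∈ D, ∑ d ∈ D, (lam * S a b c d - mu * T a b c d) ^ 2 := by
  simp only [Finset.mul_sum, ← Finset.sum_sub_distrib, ← Finset.sum_add_distrib]
  refine Finset.sum_congr rfl fun a _ => Finset.sum_congr rfl fun b _ =>
    Finset.sum_congr rfl fun c _ => Finset.sum_congr rfl fun d _ => ?_
  ring

/-- `0 ≤ ∑ (lam S - mu T)^2`, expanded with `quartic_SS`, `quartic_ST`, `quartic_TT`. -/
theorem quartic {P : Type} (D : Finset P) (g : P → P → ℤ) (κ δ lam mu : ℤ)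
    (hsymm : ∀ y ∈ D, ∀ z ∈ D, g y z = g z y)
    (hg : ∀ y ∈ D, ∀ z ∈ D, ∑ u ∈ D, g y u * g z u = κ * g y z) (hd : ∀ y ∈ D, g y y = δ) :
    0 ≤ lam ^ 2 * (κ ^ 4 * ∑ y ∈ D, ∑ z ∈ D, (g y z) ^ 4)
      - 2 * lam * mu * (3 * κ ^ 4 * ((D.card : ℤ) * δ ^ 2))
      + mu ^ 2 * (3 * (κ * ((D.card : ℤ) * δ)) ^ 2 + 6 * κ ^ 3 * ((D.card : ℤ) * δ)) := by
  rw [← quartic_SS D g κ hg, ← quartic_ST D g κ δ hsymm hg hd, ← quartic_TT D g κ δ hsymm hg hd]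
  have key := sq_expand D (fun a b c d => ∑ y ∈ D, g y a * g y b * g y c * g y d)
    (fun a b c d => g a b * g c d + g a c * g b d + g a d * g b c) lam mu

  rw [key]
  refine Finset.sum_nonneg fun a _ => Finset.sum_nonneg fun b _ =>
    Finset.sum_nonneg fun c _ => Finset.sum_nonneg fun d _ => sq_nonneg _

end Pool.CCff5b
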