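import Pool.Agent.W_ccff5b_h86.NoThree
import Pool.Agent.W_ccff5b_h86.Quartic

set_option autoImplicit false

namespace Pool.CCff5b

open Finset
open scoped Classical

variable {Pt Ln : Type} [Fintype Pt] [Fintype Ln] {I : Pt → Ln → Prop}

/-- No generalized quadrangle of order `(4,12)`. -/
theorem GQ.not_four_twelve (h : GQ I 4 12) (x : Pt) : False := by
  have hst : 4 + 12 = 4 * 4 := by norm_num
  have hcard : (far I x).card = 192 := by
    have := h.card_far x
    norm_num at this
    exact this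
  -- sums over `far x` are sums over all points
  have hsum : ∀ y ∈ far I x, ∀ z ∈ far I x,
      ∑ u ∈ far I x, G I 4 x y u * G I 4 x z u = (64 : ℤ) * G I 4 x y z := by
    intro y hy z hz
    have h1 := h.sum_G_mul_G hst (mem_far.1 hy) (mem_far.1 hz)
    have h2 : ∑ u ∈ far I x, G I 4 x y u * G I 4 x z u = ∑ u, G I 4 x y u * G I 4 x z u := by
      apply Finset.sum_subset (Finset.subset_univ _)
      intro u _ hu
      rw [G_zero (fun h' => hu (mem_far.2 h')), zero_mul]
    rw [h2, h1]
    norm_num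
  have hsymm : ∀ y ∈ far I x, ∀ z ∈ far I x, G I 4 x y z = G I 4 x z y :=
    fun y hy z hz => G_symm (mem_far.1 hy) (mem_far.1 hz)
  have hd : ∀ y ∈ far I x, G I 4 x y y = 3 := by
    intro y hy
    rw [G_self (mem_far.1 hy)]
    norm_num
  have hq := quartic (far I x) (G I 4 x) 64 3 11 192 hsymm hsum hd
  have hle : ∑ y ∈ far I x, ∑ z ∈ far I x, (G I 4 x y z) ^ 4 ≤ 192 * 456 := by
    calc ∑ y ∈ far I x, ∑ z ∈ far I x, (G I 4 x y z) ^ 4
        ≤ ∑ y ∈ far I x, (456 : ℤ) := by
          apply Finset.sum_le_sum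
          intro y hy
          rw [h.sum_fourth (mem_far.1 hy)]
          have := h.nn_three_le (mem_far.1 hy)
          have h3 : (nn I x y 3 : ℤ) ≤ 2 := by exact_mod_cast this
          linarith
      _ = 192 * 456 := by
          rw [Finset.sum_const, hcard]
          norm_num
  rw [hcard] at hq
  norm_num at hq
  norm_num at hle
  linarith

/-- passage from `Set.ncard` to the structure `GQ` -/
theorem GQ.of_ncard {s t : ℕ}
    (h1 : ∀ p : Pt, Set.ncard {l : Ln | I p l} = t + 1)
    (h2 : ∀ l : Ln, Set.ncard {p : Pt | I p l} = s + 1)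
    (h3 : ∀ p q : Pt, ∀ l m : Ln, I p l → I q l → I p m → I q m → p ≠ q → l = m)
    (h4 : ∀ p : Pt, ∀ l : Ln, ¬ I p l →
        ∃! qm : Pt × Ln, I p qm.2 ∧ I qm.1 qm.2 ∧ I qm.1 l) : GQ I s t where
  lns_card p := by
    rw [← h1 p, ← Set.ncard_coe_finset]
    congr 1
    ext l
    simp [lns]
  pts_card l := by
    rw [← h2 l, ← Set.ncard_coe_finset]
    congr 1
    ext p
    simp [pts]
  two := h3
  proj := h4

end Pool.CCff5b
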