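import Pool.Agent.W_ccff5b_h86.Repro

set_option autoImplicit false

namespace Pool.CCff5b

open Finset
open scoped Classical

variable {Pt Ln : Type} [Fintype Pt] [Fintype Ln] {I : Pt → Ln → Prop} {s t : ℕ}

/-- **Task Lower (1).** Pointwise, by cases (`z = x`, `z = y`, `z ∼ x` or far, `z ∼ y` or far;
`eq_or_adj_or_far`): `z=x`: `-(s-1)` and `1 - s^2`; `z = y`: `s-1` and `s^2-1`; `z ∼ x, z far y`: `+1`;
`z ∼ y`, `z` far from `x`: `-1`; `z ∼ x, y`: `0`; `z` far from both: `0` (`GQ.G_swap`). -/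
theorem GQ.G_sub_G (h : GQ I s t) {x y : Pt} (hxy : Far I x y) (z : Pt) :
    ((s : ℤ) + 1) * (G I s x y z - G I s y x z) = F I s y z - F I s x z := by
  rcases eq_or_adj_or_far I x z with hx | hx | hx
  · subst hx
    rw [G_zero h.not_far_self, G_self hxy.symm, h.F_far hxy.symm, F_self]
    ring
  · rcases eq_or_adj_or_far I y z with hy | hy | hy
    · subst hy
      exact absurd hx hxy.not_adj
    · rw [G_zero hx.not_far, G_zero hy.not_far, F_adj hx, F_adj hy]
      ring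
    · rw [G_zero hx.not_far, G_adj hy hx, F_adj hx, h.F_far hy]
      ring
  · rcases eq_or_adj_or_far I y z with hy | hy | hy
    · subst hy
      rw [G_self hxy, G_zero h.not_far_self, F_self, h.F_far hx]
      ring
    · rw [G_adj hx hy, G_zero hy.not_far, F_adj hy, h.F_far hx]
      ring
    · rw [h.G_swap hx hy, h.F_far hx, h.F_far hy]
      ring

/-- **Task Lower (2).** For a triad: `(s+1) ⟨G^x_y, G^y_z⟩ = (s+1) ⟨G^y_x, G^y_z⟩ + ⟨F_y - F_x, G^y_z⟩
= (s+1) s^3 d + (s+1)(s+t) (G^y_z(y) - G^y_z(x)) = (s+1) s^3 d - (s+1) s^2 d` (`GQ.sum_G_mul_G`,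
`GQ.sum_F_mul`, `GQ.LS_G`; `G^y_z(y) = 0`; `G^y_z(x) = G^x_y(z)` by `G_symm`, `GQ.G_swap`). -/
theorem GQ.inner_cyc (h : GQ I s t) (hst : s + t = s * s) {x y z : Pt} (hxy : Far I x y)
    (hxz : Far I x z) (hyz : Far I y z) :
    ∑ u, G I s x y u * G I s y z u = (s : ℤ) ^ 2 * ((s : ℤ) - 1) * G I s x y z := by
  have h1 : ((s : ℤ) + 1) * ∑ u, G I s x y u * G I s y z u =
      ((s : ℤ) + 1) * (∑ u, G I s y x u * G I s y z u) + (∑ u, F I s y u * G I s y z u)
        - ∑ u, F I s x u * G I s y z u := by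
    rw [Finset.mul_sum, Finset.mul_sum, ← Finset.sum_add_distrib, ← Finset.sum_sub_distrib]
    refine Finset.sum_congr rfl fun u _ => ?_
    have h2 := h.G_sub_G hxy u
    linear_combination (G I s y z u) * h2
  have hLS : LS I (G I s y z) := h.LS_G hst hyz
  rw [h.sum_G_mul_G hst hxy.symm hyz, h.sum_F_mul hLS y, h.sum_F_mul hLS x,
    G_zero h.not_far_self, G_symm hyz hxy.symm, ← h.G_swap hxz hyz] at h1
  have hst' : (s : ℤ) + t = (s : ℤ) * s := by exact_mod_cast hst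
  have hs1 : ((s : ℤ) + 1) ≠ 0 := by positivity
  apply mul_left_cancel₀ hs1
  rw [h1, hst']
  ring

/-- **Task Lower (3).** With `C = G^x_y + G^y_z + G^z_x`, `d = G^x_y(z)`:
`∑ C^2 = 3 s^3 (s-1) + 6 s^2 (s-1) d = 3 s^2 (s-1) (s + 2d) ≥ 0`; if `s + 2 d = 0` then `C = 0`, but
`C x = 0 + d + (s-1)`, so `s + 2 (1 - s) = 0`, `s = 2`. (Use (2) for `(x,y,z)`, `(y,z,x)`, `(z,x,y)`, and
`G_symm`, `GQ.G_swap` for the symmetry of `d`.) -/
theorem GQ.lower (h : GQ I s t) (hst : s + t = s * s) (hs : 3 ≤ s) {x y z : Pt} (hxy : Far I x y)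
    (hxz : Far I x z) (hyz : Far I y z) : 0 < (s : ℤ) + 2 * G I s x y z := by
  have e1 : G I s y z x = G I s x y z := by
    rw [G_symm hyz hxy.symm, ← h.G_swap hxz hyz]
  have e2 : G I s z x y = G I s x y z := by
    rw [G_symm hxz.symm hyz.symm, h.G_swap hxz.symm hxy.symm, e1]
  have a1 := h.sum_G_mul_G hst hxy hxy
  have a2 := h.sum_G_mul_G hst hyz hyz
  have a3 := h.sum_G_mul_G hst hxz.symm hxz.symm
  have b1 := h.inner_cyc hst hxy hxz hyz
  have b2 := h.inner_cyc hst hyz hxy.symm hxz.symm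
  have b3 := h.inner_cyc hst hxz.symm hyz.symm hxy
  rw [G_self hxy] at a1
  rw [G_self hyz] at a2
  rw [G_self hxz.symm] at a3
  rw [e1] at b2
  rw [e2] at b3
  set C : Pt → ℤ := fun u => G I s x y u + G I s y z u + G I s z x u with hC
  have hsum : ∑ u, (C u) ^ 2 = 3 * (s : ℤ) ^ 2 * ((s : ℤ) - 1) * ((s : ℤ) + 2 * G I s x y z) := by
    have h1 : ∑ u, (C u) ^ 2 =
        (∑ u, G I s x y u * G I s x y u) + (∑ u, G I s y z u * G I s y z u)
        + (∑ u, G I s z x u * G I s z x u) + 2 * (∑ u, G I s x y u * G I s y z u)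
        + 2 * (∑ u, G I s y z u * G I s z x u) + 2 * (∑ u, G I s z x u * G I s x y u) := by
      rw [Finset.mul_sum, Finset.mul_sum, Finset.mul_sum, ← Finset.sum_add_distrib,
        ← Finset.sum_add_distrib, ← Finset.sum_add_distrib, ← Finset.sum_add_distrib,
        ← Finset.sum_add_distrib]
      refine Finset.sum_congr rfl fun u _ => ?_
      simp only [hC]
      ring
    rw [h1, a1, a2, a3, b1, b2, b3]
    ring
  have hs3 : (3 : ℤ) ≤ s := by exact_mod_cast hs
  have hpos : 0 < 3 * (s : ℤ) ^ 2 * ((s : ℤ) - 1) := by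
    have : 0 < (s : ℤ) - 1 := by linarith
    positivity
  have hnn : 0 ≤ ∑ u, (C u) ^ 2 := Finset.sum_nonneg fun u _ => sq_nonneg _
  rcases lt_trichotomy ((s : ℤ) + 2 * G I s x y z) 0 with hneg | hzero | hp
  · exfalso
    rw [hsum] at hnn
    nlinarith
  · exfalso
    rw [hsum, hzero, mul_zero] at hnn
    have h0 : ∑ u, (C u) ^ 2 = 0 := by rw [hsum, hzero, mul_zero]
    have h2 := (Finset.sum_eq_zero_iff_of_nonneg (fun u _ => sq_nonneg (C u))).1 h0 x
      (Finset.mem_univ x)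
    have h3 : C x = 0 := by
      exact pow_eq_zero_iff (two_ne_zero) |>.1 h2
    simp only [hC] at h3
    rw [G_zero h.not_far_self, e1, G_self hxz.symm] at h3
    linarith
  · exact hp

end Pool.CCff5b
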