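import Pool.Agent.W_ccff5b_h86.Cube
import Pool.Agent.W_ccff5b_h86.Lower

set_option autoImplicit false

namespace Pool.CCff5b

open Finset
open scoped Classical

variable {Pt Ln : Type} [Fintype Pt] [Fintype Ln] {I : Pt → Ln → Prop}

/-- number of `z` far from `x` and `y` with `G^x_y(z) = i` -/
noncomputable def nn (I : Pt → Ln → Prop) (x y : Pt) (i : ℤ) : ℕ :=
  ((tr I x y).filter (fun z => G I 4 x y z = i)).card

/-- **Task Four (1).** `GQ.lower` (`4 + 2 d > 0`) and `GQ.G_le` (`d ≤ 3`). -/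
theorem GQ.val_range (h : GQ I 4 12) {x y z : Pt} (hxy : Far I x y) (hz : z ∈ tr I x y) :
    G I 4 x y z = -1 ∨ G I 4 x y z = 0 ∨ G I 4 x y z = 1 ∨ G I 4 x y z = 2 ∨ G I 4 x y z = 3 := by
  obtain ⟨hxz, hyz⟩ := mem_tr.1 hz
  have h1 := h.lower (by norm_num) (by norm_num) hxy hxz hyz
  have h2 := h.G_le (by norm_num) (by norm_num) hxy hxz
  push_cast at h1 h2
  omega

/-- **Task Four (2).** Sum over `tr x y` by the value: for any function `φ` of the value. -/
theorem GQ.sum_by_val (h : GQ I 4 12) {x y : Pt} (hxy : Far I x y) (φ : ℤ → ℤ) :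
    ∑ z ∈ tr I x y, φ (G I 4 x y z) = φ (-1) * nn I x y (-1) + φ 0 * nn I x y 0 + φ 1 * nn I x y 1
      + φ 2 * nn I x y 2 + φ 3 * nn I x y 3 := by
  have h1 : ∀ z ∈ tr I x y, φ (G I 4 x y z) = φ (-1) * (if G I 4 x y z = -1 then 1 else 0)
      + φ 0 * (if G I 4 x y z = 0 then 1 else 0) + φ 1 * (if G I 4 x y z = 1 then 1 else 0)
      + φ 2 * (if G I 4 x y z = 2 then 1 else 0) + φ 3 * (if G I 4 x y z = 3 then 1 else 0) := by
    intro z hz
    rcases h.val_range hxy hz with h1 | h1 | h1 | h1 | h1 <;> rw [h1] <;> norm_num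
  rw [Finset.sum_congr rfl h1]
  simp only [Finset.sum_add_distrib, ← Finset.mul_sum, Finset.sum_boole]
  rfl

/-- **Task Four (3).** From (2) with `φ = 1, v, v^2, v^3`: `152, 36, 144, 108` (`GQ.card_tr`,
`GQ.sum_tr_one`, `GQ.sum_tr_sq`, `GQ.sum_tr_cube`), linear algebra (`omega`). -/
theorem GQ.nn_eqs (h : GQ I 4 12) {x y : Pt} (hxy : Far I x y) :
    nn I x y 2 + 4 * nn I x y 3 = 12 ∧ nn I x y 1 = 54 + 6 * nn I x y 3 ∧
      nn I x y (-1) = 42 + nn I x y 3 ∧ nn I x y 0 + 4 * nn I x y 3 = 44 := by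
  have e0 := h.sum_by_val hxy (fun _ => 1)
  have e1 := h.sum_by_val hxy (fun v => v)
  have e2 := h.sum_by_val hxy (fun v => v ^ 2)
  have e3 := h.sum_by_val hxy (fun v => v ^ 3)
  have f0 := h.card_tr hxy
  have f1 := h.sum_tr_one (by norm_num) hxy
  have f2 := h.sum_tr_sq (by norm_num) hxy
  have f3 := h.sum_tr_cube (by norm_num) (by norm_num) hxy
  push_cast at f1 f2 f3
  simp only [f1, f2, f3] at e1 e2 e3
  rw [Finset.sum_const, nsmul_eq_mul, mul_one] at e0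
  norm_num at e0 e1 e2 e3 f0
  omega

/-- **Task Four (4).** `∑_{z far from x} (G x y z)^4 = 81 + 39 + (288 + 24 n_3)`
(`GQ.sum_far_split`, `GQ.card_nb_far`, (2), (3)). -/
theorem GQ.sum_fourth (h : GQ I 4 12) {x y : Pt} (hxy : Far I x y) :
    ∑ z ∈ far I x, (G I 4 x y z) ^ 4 = 408 + 24 * (nn I x y 3 : ℤ) := by
  obtain ⟨h1, h2, h3, h4⟩ := h.nn_eqs hxy
  have e4 := h.sum_by_val hxy (fun v => v ^ 4)
  have h5 : ∑ z ∈ univ.filter (fun z => Adj I y z ∧ Far I x z), (G I 4 x y z) ^ 4 = 39 := by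
    have h6 : ∀ z ∈ univ.filter (fun z => Adj I y z ∧ Far I x z), (G I 4 x y z) ^ 4 = 1 := by
      intro z hz
      have hz' := (Finset.mem_filter.1 hz).2
      rw [G_adj hz'.2 hz'.1]
      norm_num
    rw [Finset.sum_congr rfl h6, Finset.sum_const, nsmul_eq_mul, mul_one]
    have h7 := h.card_nb_far hxy
    have h8 : (univ.filter (fun z => Adj I y z ∧ Far I x z)).card = 39 := by omega
    exact_mod_cast h8
  rw [h.sum_far_split hxy, h5, G_self hxy, e4]
  norm_num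
  omega

end Pool.CCff5b
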