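import Pool.Agent.W_ccff5b_h86.Basic

set_option autoImplicit false

namespace Pool.CCff5b

open Finset
open scoped Classical

variable {Pt Ln : Type} [Fintype Pt] [Fintype Ln] {I : Pt → Ln → Prop} {s t : ℕ}

omit [Fintype Ln] in
@[simp] theorem mem_pts {l : Ln} {p : Pt} : p ∈ pts I l ↔ I p l := by simp [pts]
omit [Fintype Pt] in
@[simp] theorem mem_lns {l : Ln} {p : Pt} : l ∈ lns I p ↔ I p l := by simp [lns]
omit [Fintype Ln] in
@[simp] theorem mem_nb {p q : Pt} : q ∈ nb I p ↔ Adj I p q := by simp [nb]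
omit [Fintype Ln] in
@[simp] theorem mem_far {p q : Pt} : q ∈ far I p ↔ Far I p q := by simp [far]
omit [Fintype Ln] in
@[simp] theorem mem_cns {x y z w : Pt} : w ∈ cns I x y z ↔ Adj I x w ∧ Adj I y w ∧ Adj I z w := by
  simp [cns]
omit [Fintype Ln] in
@[simp] theorem mem_cns2 {x y w : Pt} : w ∈ cns2 I x y ↔ Adj I x w ∧ Adj I y w := by
  simp [cns2]

omit [Fintype Ln] in
theorem cn_swap12 (x y z : Pt) : cn I x y z = cn I y x z := by
  unfold cn
  congr 1
  ext w
  simp only [mem_cns]
  tauto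

omit [Fintype Ln] in
theorem cn_swap23 (x y z : Pt) : cn I x y z = cn I x z y := by
  unfold cn
  congr 1
  ext w
  simp only [mem_cns]
  tauto

omit [Fintype Ln] in
theorem cn_self (x y : Pt) : cn I x y y = (cns2 I x y).card := by
  unfold cn
  congr 1
  ext w
  simp only [mem_cns, mem_cns2]
  tauto

omit [Fintype Ln] in
theorem G_zero {x y z : Pt} (h : ¬ Far I x z) : G I s x y z = 0 := by simp [G, h]

omit [Fintype Ln] in
theorem G_self {x y : Pt} (h : Far I x y) : G I s x y y = (s : ℤ) - 1 := by simp [G, h]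

omit [Fintype Ln] in
theorem G_adj {x y z : Pt} (h : Far I x z) (h' : Adj I y z) : G I s x y z = -1 := by
  have : z ≠ y := h'.ne.symm
  simp [G, h, h', this]

theorem GQ.G_triad (hG : GQ I s t) {x y z : Pt} (h : Far I x z) (h' : Far I y z) :
    G I s x y z = (s : ℤ) - cn I x y z := by
  have h1 : z ≠ y := (hG.far_ne h').symm
  have h2 : ¬ Adj I y z := h'.not_adj
  simp [G, h, h1, h2]

omit [Fintype Ln] in
/-- symmetry of the matrix `G^x` on `far x` -/
theorem G_symm {x y z : Pt} (h : Far I x y) (h' : Far I x z) : G I s x y z = G I s x z y := by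
  by_cases h1 : z = y
  · subst h1; rfl
  by_cases h2 : Adj I y z
  · rw [G_adj h' h2, G_adj h h2.symm]
  · have h3 : ¬ Adj I z y := fun h => h2 h.symm
    have h1' : ¬ y = z := fun h => h1 h.symm
    simp [G, h, h', h1, h2, h1', h3, cn_swap23 x y z]

/-- symmetry of `d(x,y,z)` in the first two arguments for triads -/
theorem GQ.G_swap (hG : GQ I s t) {x y z : Pt} (h : Far I x z) (h' : Far I y z) :
    G I s x y z = G I s y x z := by
  rw [hG.G_triad h h', hG.G_triad h' h, cn_swap12]

omit [Fintype Ln] in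
theorem F_self (x : Pt) : F I s x x = (s : ℤ) ^ 2 := by simp [F]

omit [Fintype Ln] [Fintype Pt] in
theorem F_adj {x z : Pt} (h : Adj I x z) : F I s x z = -(s : ℤ) := by
  have : z ≠ x := h.ne.symm
  simp [F, this, h]

theorem GQ.F_far (hG : GQ I s t) {x z : Pt} (h : Far I x z) : F I s x z = 1 := by
  have h1 : z ≠ x := (hG.far_ne h).symm
  have h2 := h.not_adj
  simp [F, h1, h2]

end Pool.CCff5b
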