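import Pool.Agent.W_ccff5b_h86.RankC

set_option autoImplicit false

namespace Pool.CCff5b

open Finset

/-- **Task GenA.** Equality version of `trace_ineq` (copy its proof):
`∑_{u,v ∈ D} (∑_{y ∈ Y} g y u g y v - a g u v)^2` equals the left side of `h0`, so it is `0`, so all its
terms are `0`. -/
theorem trace_eq {P : Type} (D Y : Finset P) (hYD : Y ⊆ D) (g : P → P → ℤ) (κ δ a : ℤ)
    (hsymm : ∀ y ∈ D, ∀ z ∈ D, g y z = g z y)
    (hg : ∀ y ∈ D, ∀ z ∈ D, ∑ u ∈ D, g y u * g z u = κ * g y z) (hd : ∀ y ∈ D, g y y = δ)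
    (h0 : κ ^ 2 * (∑ y ∈ Y, ∑ z ∈ Y, g y z * g y z) - 2 * a * κ ^ 2 * ((Y.card : ℤ) * δ)
      + a ^ 2 * (κ * ((D.card : ℤ) * δ)) = 0) :
    ∀ u ∈ D, ∀ v ∈ D, ∑ y ∈ Y, g y u * g y v = a * g u v := by
  have row : ∀ y ∈ D, ∑ u ∈ D, g y u * g y u = κ * δ := fun y hy => by
    rw [hg y hy y hy, hd y hy]
  have e1 : ∑ u ∈ D, ∑ v ∈ D, (∑ y ∈ Y, g y u * g y v - a * g u v) ^ 2 =
      ∑ u ∈ D, ∑ v ∈ D, (∑ y ∈ Y, g y u * g y v) ^ 2 -
        2 * a * (∑ u ∈ D, ∑ v ∈ D, (∑ y ∈ Y, g y u * g y v) * g u v) +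
        a ^ 2 * ∑ u ∈ D, ∑ v ∈ D, g u v * g u v := by
    rw [Finset.mul_sum, Finset.mul_sum, ← Finset.sum_sub_distrib, ← Finset.sum_add_distrib]
    refine Finset.sum_congr rfl fun u _ => ?_
    rw [Finset.mul_sum, Finset.mul_sum, ← Finset.sum_sub_distrib, ← Finset.sum_add_distrib]
    refine Finset.sum_congr rfl fun v _ => ?_
    ring
  have e2 : ∑ u ∈ D, ∑ v ∈ D, (∑ y ∈ Y, g y u * g y v) ^ 2 =
      κ ^ 2 * (∑ y ∈ Y, ∑ z ∈ Y, g y z * g y z) := by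
    rw [RankC_aux, Finset.mul_sum]
    refine Finset.sum_congr rfl fun y hy => ?_
    rw [Finset.mul_sum]
    refine Finset.sum_congr rfl fun z hz => ?_
    rw [hg y (hYD hy) z (hYD hz)]
    ring
  have e3 : ∑ u ∈ D, ∑ v ∈ D, (∑ y ∈ Y, g y u * g y v) * g u v =
      κ ^ 2 * ((Y.card : ℤ) * δ) := by
    have h1 : ∑ u ∈ D, ∑ v ∈ D, (∑ y ∈ Y, g y u * g y v) * g u v =
        ∑ y ∈ Y, ∑ u ∈ D, ∑ v ∈ D, g y u * (g y v * g u v) := by
      simp only [Finset.sum_mul]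
      calc ∑ u ∈ D, ∑ v ∈ D, ∑ y ∈ Y, g y u * g y v * g u v
          = ∑ u ∈ D, ∑ y ∈ Y, ∑ v ∈ D, g y u * g y v * g u v :=
            Finset.sum_congr rfl fun u _ => Finset.sum_comm
        _ = ∑ y ∈ Y, ∑ u ∈ D, ∑ v ∈ D, g y u * g y v * g u v := Finset.sum_comm
        _ = _ := by
            refine Finset.sum_congr rfl fun y _ => Finset.sum_congr rfl fun u _ =>
              Finset.sum_congr rfl fun v _ => ?_
            ring
    rw [h1]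
    have h2 : ∀ y ∈ Y, ∑ u ∈ D, ∑ v ∈ D, g y u * (g y v * g u v) = κ ^ 2 * δ := by
      intro y hy
      have h3 : ∀ u ∈ D, ∑ v ∈ D, g y u * (g y v * g u v) = κ * (g y u * g y u) := by
        intro u hu
        rw [← Finset.mul_sum, hg y (hYD hy) u hu]
        ring
      rw [Finset.sum_congr rfl h3, ← Finset.mul_sum, row y (hYD hy)]
      ring
    rw [Finset.sum_congr rfl h2, Finset.sum_const, nsmul_eq_mul]
    ring
  have e4 : ∑ u ∈ D, ∑ v ∈ D, g u v * g u v = κ * ((D.card : ℤ) * δ) := by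
    rw [Finset.sum_congr rfl row, Finset.sum_const, nsmul_eq_mul]
    ring
  have e5 : ∑ u ∈ D, ∑ v ∈ D, (∑ y ∈ Y, g y u * g y v - a * g u v) ^ 2 = 0 := by
    rw [e1, e2, e3, e4]
    linarith
  intro u hu v hv
  have h5 := (Finset.sum_eq_zero_iff_of_nonneg fun u _ =>
    Finset.sum_nonneg fun v _ => sq_nonneg (∑ y ∈ Y, g y u * g y v - a * g u v)).1 e5 u hu
  have h6 := (Finset.sum_eq_zero_iff_of_nonneg fun v _ =>
    sq_nonneg (∑ y ∈ Y, g y u * g y v - a * g u v)).1 h5 v hv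
  exact sub_eq_zero.1 (pow_eq_zero_iff (two_ne_zero)|>.1 h6)

end Pool.CCff5b
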