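import Pool.Agent.W_ccff5b_h86.RankF
import Pool.Agent.W_ccff5b_h86.GenA

set_option autoImplicit false

namespace Pool.CCff5b

open Finset
open scoped Classical

variable {Pt Ln : Type} [Fintype Pt] [Fintype Ln] {I : Pt → Ln → Prop} {s t : ℕ}

/-- **Task GenB.** For `w ∼ x` and `u, v` far from `x`:
`∑_{z ∼ w, z far from x} G^x_u(z) G^x_v(z) = s^2 G^x_u(v)`.
Proof. `trace_eq` with `D = far I x`, `Y` = the summation set (`= offs I l w` for the line `l = xw`,
`GQ.offs_eq`; `s t` elements by `GQ.card_offs`), `κ = s^3`, `δ = s - 1`, `a = s^2`, `|D| = s^2 t`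
(`GQ.card_far`). The hypothesis `h0`: `∑_{y,z ∈ Y} (G y z)^2 = s t * s^2 (s-1)` by `GQ.sum_sq_at` for each
`y ∈ Y` (`w` is a common neighbour of `x` and `y`), and `s^6 s^3 t (s-1) - 2 s^2 s^6 s t (s-1) + s^4 s^3 s^2 t (s-1) = 0`.
Hypotheses `hsymm`, `hg`, `hd`: `G_symm`, `GQ.sum_G_mul_G` (the sum over `far x` is the full sum,
`G_zero`), `G_self` (see the proof in RankE.lean). -/
theorem GQ.sum_at_w (h : GQ I s t) (hst : s + t = s * s) (hs : 1 ≤ s) {x w u v : Pt}
    (hxw : Adj I x w) (hu : Far I x u) (hv : Far I x v) :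
    ∑ z ∈ univ.filter (fun z => Adj I w z ∧ Far I x z), G I s x u z * G I s x v z =
      (s : ℤ) ^ 2 * G I s x u v := by
  obtain ⟨hne, l, hxl, hwl⟩ := id hxw
  rw [← h.offs_eq hxl hwl hne]
  have hfar : ∀ z ∈ offs I l w, Far I x z := by
    intro z hz
    rw [h.offs_eq hxl hwl hne] at hz
    exact (Finset.mem_filter.1 hz).2.2
  have hsq : ∀ y ∈ offs I l w, ∑ z ∈ offs I l w, G I s x y z * G I s x y z =
      (s : ℤ) ^ 2 * ((s : ℤ) - 1) := by
    intro y hy
    have h1 := h.sum_sq_at hst hs (hfar y hy) hxw (mem_offs.1 hy).1.symm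
    rw [← h.offs_eq hxl hwl hne] at h1
    rw [← h1]
    exact Finset.sum_congr rfl fun z _ => (sq _).symm
  have key := trace_eq (far I x) (offs I l w)
    (fun y hy => mem_far.2 (hfar y hy)) (G I s x) ((s : ℤ) ^ 3) ((s : ℤ) - 1) ((s : ℤ) ^ 2)
    (fun y hy z hz => G_symm (mem_far.1 hy) (mem_far.1 hz))
    (fun y hy z hz => by
      rw [← h.sum_G_mul_G hst (mem_far.1 hy) (mem_far.1 hz)]
      refine Finset.sum_subset (Finset.subset_univ _) fun u _ hu => ?_
      rw [G_zero (fun hf => hu (mem_far.2 hf)), zero_mul])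
    (fun y hy => G_self (mem_far.1 hy))
    (by
      rw [Finset.sum_congr rfl hsq, Finset.sum_const, h.card_offs hwl, h.card_far x, nsmul_eq_mul]
      push_cast
      ring)
    u (mem_far.2 hu) v (mem_far.2 hv)
  rw [← key]
  refine Finset.sum_congr rfl fun z hz => ?_
  rw [G_symm hu (hfar z hz), G_symm hv (hfar z hz)]

end Pool.CCff5b
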