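import Pool.Agent.W_ccff5b_h86.GenB

set_option autoImplicit false

namespace Pool.CCff5b

open Finset
open scoped Classical

variable {Pt Ln : Type} [Fintype Pt] [Fintype Ln] {I : Pt → Ln → Prop} {s t : ℕ}

omit [Fintype Ln] in
private theorem genC_cn (x y z : Pt) :
    (cn I x y z : ℤ) = ∑ w ∈ cns2 I x y, if Adj I w z then (1 : ℤ) else 0 := by
  rw [Finset.sum_ite, Finset.sum_const_zero, add_zero, Finset.sum_const, nsmul_eq_mul, mul_one]
  unfold cn
  congr 2
  ext w
  rw [mem_cns, Finset.mem_filter, mem_cns2, adj_comm (p := w)]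
  tauto

omit [Fintype Ln] in
private theorem genC_far (x y : Pt) {f : Pt → ℤ} (hf : ∀ z, ¬ Far I x z → f z = 0) :
    ∑ z ∈ univ.filter (fun z => Adj I y z), f z =
      ∑ z ∈ univ.filter (fun z => Adj I y z ∧ Far I x z), f z := by
  symm
  refine Finset.sum_subset ?_ ?_
  · intro z hz
    rw [Finset.mem_filter] at hz ⊢
    exact ⟨hz.1, hz.2.1⟩
  · intro z hz hz'
    rw [Finset.mem_filter] at hz hz'
    exact hf z fun h => hz' ⟨hz.1, hz.2, h⟩

/-- **Task GenC.** Triple products. `x` far from `y, u, v`. Then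
`∑_z G_y(z) G_u(z) G_v(z) = (s^4 - (t+1) s^2) G_u(v) + t G_u(y) G_v(y) - s ∑_{z ∼ y, z far x} G_u(z) G_v(z)`
(`G = G^x`). Proof: on `far x`, `G_y(z) = s - cn x y z + t [z = y] - s [y ∼ z]` (`GQ.G_formula`), off `far x`
everything is `0`. `∑_z cn x y z * G_u z * G_v z = ∑_{w ∈ cns2 x y} ∑_{z ∼ w, z far x} G_u z G_v z
= (t+1) s^2 G_u v` (`GQ.sum_at_w`, `GQ.card_cns2`), `∑_z G_u G_v = s^3 G_u v` (`GQ.sum_G_mul_G`). -/
theorem GQ.triple_sum (h : GQ I s t) (hst : s + t = s * s) (hs : 1 ≤ s) {x y u v : Pt}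
    (hy : Far I x y) (hu : Far I x u) (hv : Far I x v) :
    ∑ z, G I s x y z * G I s x u z * G I s x v z =
      ((s : ℤ) ^ 4 - ((t : ℤ) + 1) * (s : ℤ) ^ 2) * G I s x u v
        + (t : ℤ) * (G I s x u y * G I s x v y)
        - (s : ℤ) * ∑ z ∈ univ.filter (fun z => Adj I y z ∧ Far I x z),
            G I s x u z * G I s x v z := by
  set f : Pt → ℤ := fun z => G I s x u z * G I s x v z with hf
  have hf0 : ∀ z, ¬ Far I x z → f z = 0 := by
    intro z hz
    simp only [hf]
    rw [G_zero hz, zero_mul]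
  have h1 : ∀ z, G I s x y z * G I s x u z * G I s x v z = (s : ℤ) * f z - (cn I x y z : ℤ) * f z +
      (if z = y then (t : ℤ) * f z else 0) - (if Adj I y z then (s : ℤ) * f z else 0) := by
    intro z
    by_cases hz : Far I x z
    · rw [h.G_formula hy hz]
      simp only [hf]
      split_ifs <;> ring
    · rw [hf0 z hz, G_zero hz]
      simp
  have h2 : ∑ z, (s : ℤ) * f z = (s : ℤ) ^ 4 * G I s x u v := by
    rw [← Finset.mul_sum, h.sum_G_mul_G hst hu hv]
    ring
  have h3 : ∑ z, (cn I x y z : ℤ) * f z = ((t : ℤ) + 1) * (s : ℤ) ^ 2 * G I s x u v := by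
    have h31 : ∀ z, (cn I x y z : ℤ) * f z =
        ∑ w ∈ cns2 I x y, if Adj I w z then f z else 0 := by
      intro z
      rw [genC_cn, Finset.sum_mul]
      refine Finset.sum_congr rfl fun w _ => ?_
      split_ifs <;> simp
    rw [Finset.sum_congr rfl fun z _ => h31 z, Finset.sum_comm]
    have h32 : ∀ w ∈ cns2 I x y, ∑ z, (if Adj I w z then f z else 0) =
        (s : ℤ) ^ 2 * G I s x u v := by
      intro w hw
      rw [← Finset.sum_filter, genC_far x w hf0]
      exact h.sum_at_w hst hs (mem_cns2.1 hw).1 hu hv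
    rw [Finset.sum_congr rfl h32, Finset.sum_const, h.card_cns2 hy, nsmul_eq_mul]
    push_cast
    ring
  have h4 : ∑ z, (if z = y then (t : ℤ) * f z else 0) = (t : ℤ) * f y := by
    simp
  have h5 : ∑ z, (if Adj I y z then (s : ℤ) * f z else 0) =
      (s : ℤ) * ∑ z ∈ univ.filter (fun z => Adj I y z ∧ Far I x z), f z := by
    rw [← Finset.sum_filter, ← Finset.mul_sum, genC_far x y hf0]
  rw [Finset.sum_congr rfl fun z _ => h1 z, Finset.sum_sub_distrib, Finset.sum_add_distrib,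
    Finset.sum_sub_distrib, h2, h3, h4, h5]
  ring

/-- **Task GenC (2).** The case `u = y`: `G_y(z) = -1` for `z ∼ y`, and
`∑_{z ∼ y, far x} G_v z = -(t+1) G_v y` (`GQ.sum_nb`, `GQ.LS_G`, `G_zero`), so
`∑_z (G_y z)^2 G_v z = (s^4 - (t+1)s^2 + t (s-1) - s (t+1)) G_y v = s^2 (s-2) G_y v`. -/
theorem GQ.sum_sq_mul (h : GQ I s t) (hst : s + t = s * s) (hs : 1 ≤ s) {x y v : Pt}
    (hy : Far I x y) (hv : Far I x v) :
    ∑ z, (G I s x y z) ^ 2 * G I s x v z = (s : ℤ) ^ 2 * ((s : ℤ) - 2) * G I s x y v := by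
  have h1 := h.triple_sum hst hs hy hy hv
  have h2 : ∑ z, (G I s x y z) ^ 2 * G I s x v z = ∑ z, G I s x y z * G I s x y z * G I s x v z :=
    Finset.sum_congr rfl fun z _ => by ring
  have h3 : ∑ z ∈ univ.filter (fun z => Adj I y z ∧ Far I x z), G I s x y z * G I s x v z =
      ((t : ℤ) + 1) * G I s x v y := by
    have h31 : ∑ z ∈ univ.filter (fun z => Adj I y z ∧ Far I x z), G I s x y z * G I s x v z =
        ∑ z ∈ univ.filter (fun z => Adj I y z ∧ Far I x z), - G I s x v z := by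
      refine Finset.sum_congr rfl fun z hz => ?_
      rw [Finset.mem_filter] at hz
      rw [G_adj hz.2.2 hz.2.1]
      ring
    have h32 := h.sum_nb (h.LS_G hst hv) y
    unfold nb at h32
    rw [h31, Finset.sum_neg_distrib, ← genC_far x y (f := G I s x v) fun z hz => G_zero hz, h32]
    ring
  have h4 : G I s x v y = G I s x y v := G_symm hv hy
  have h5 : (s : ℤ) + t = s * s := by exact_mod_cast hst
  have h6 : (t : ℤ) = s * s - s := by linarith
  rw [h2, h1, h3, G_self hy, h4, h6]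
  ring

end Pool.CCff5b
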