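import Pool.Agent.W_ccff5b_h86.Repro
import Pool.Agent.W_ccff5b_h86.CountB

set_option autoImplicit false

namespace Pool.CCff5b

open Finset
open scoped Classical

variable {Pt Ln : Type} [Fintype Pt] [Fintype Ln] {I : Pt → Ln → Prop} {s t : ℕ}

/-- **Task GenD (1).** `∑_{z far y} f z = t f y`: `0 = f y + ∑_{nb y} f + ∑_{far y} f`. -/
theorem GQ.sum_far (h : GQ I s t) {f : Pt → ℤ} (hf : LS I f) (y : Pt) :
    ∑ z ∈ far I y, f z = (t : ℤ) * f y := by
  have h1 : ∀ z, f z = (if z = y then f z else 0) + (if Adj I y z then f z else 0) +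
      (if Far I y z then f z else 0) := by
    intro z
    rcases eq_or_adj_or_far I y z with h2 | h2 | h2
    · subst h2
      rw [if_pos rfl, if_neg not_adj_self, if_neg h.not_far_self]
      ring
    · rw [if_neg h2.ne.symm, if_pos h2, if_neg h2.not_far]
      ring
    · rw [if_neg (h.far_ne h2).symm, if_neg h2.not_adj, if_pos h2]
      ring
  have h3 := h.sum_univ hf
  rw [Finset.sum_congr rfl (fun z _ => h1 z), Finset.sum_add_distrib, Finset.sum_add_distrib,
    Finset.sum_ite_eq' Finset.univ y, if_pos (Finset.mem_univ _), ← Finset.sum_filter,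
    ← Finset.sum_filter] at h3
  have h4 := h.sum_nb hf y
  unfold nb at h4
  unfold far
  rw [h4] at h3
  linarith

/-- **Task GenD (2).** For `w ∼ y`: `∑_{z ∼ w, z far y} f z = - t f w`: the neighbours of `w` are the
points `≠ w` of the line `l = wy` (sum of `f` over them: `0 - f w`) and `offs I l w`
(`GQ.offs_eq`, `GQ.sum_nb`). -/
theorem GQ.sum_nb_far (h : GQ I s t) {f : Pt → ℤ} (hf : LS I f) {w y : Pt} (hwy : Adj I y w) :
    ∑ z ∈ univ.filter (fun z => Adj I w z ∧ Far I y z), f z = -(t : ℤ) * f w := by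
  obtain ⟨hne, l, hy, hw⟩ := hwy
  rw [← h.offs_eq hy hw hne]
  have h1 : ∀ z, (if z ∈ nb I w then f z else 0) = (if z ∈ offs I l w then f z else 0) +
      (if z ∈ (pts I l).erase w then f z else 0) := by
    intro z
    by_cases hz : Adj I w z
    · by_cases hl : I z l
      · rw [if_pos (mem_nb.2 hz), if_neg (fun hh => (mem_offs.1 hh).2 hl),
          if_pos (Finset.mem_erase.2 ⟨hz.ne.symm, mem_pts.2 hl⟩)]
        ring
      · rw [if_pos (mem_nb.2 hz), if_pos (mem_offs.2 ⟨hz, hl⟩),
          if_neg (fun hh => hl (mem_pts.1 (Finset.mem_erase.1 hh).2))]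
        ring
    · rw [if_neg (fun hh => hz (mem_nb.1 hh)), if_neg (fun hh => hz (mem_offs.1 hh).1),
        if_neg (fun hh => hz ⟨(Finset.mem_erase.1 hh).1.symm, l, hw,
          mem_pts.1 (Finset.mem_erase.1 hh).2⟩)]
      ring
  have h2 : ∑ z ∈ nb I w, f z = ∑ z ∈ offs I l w, f z + ∑ z ∈ (pts I l).erase w, f z := by
    have h3 := Finset.sum_congr (s₁ := (Finset.univ : Finset Pt)) rfl (fun z _ => h1 z)
    rw [Finset.sum_add_distrib, Finset.sum_ite_mem, Finset.sum_ite_mem, Finset.sum_ite_mem,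
      Finset.univ_inter, Finset.univ_inter, Finset.univ_inter] at h3
    exact h3
  have h4 := Finset.add_sum_erase (pts I l) f (mem_pts.2 hw)
  rw [hf l] at h4
  rw [h.sum_nb hf w] at h2
  linarith

/-- **Task GenD (3).** For `z` far from `y`: `∑_{a ∼ z, a far y} g a = -(t+1) g z - ∑_{w ∈ cns2 y z} g w`
(each neighbour of `z` is far from `y` or a common neighbour; it is not `y`). -/
theorem GQ.sum_nb_far' (h : GQ I s t) {g : Pt → ℤ} (hg : LS I g) {y z : Pt} (hyz : Far I y z) :
    ∑ a ∈ univ.filter (fun a => Adj I z a ∧ Far I y a), g a =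
      -((t : ℤ) + 1) * g z - ∑ w ∈ cns2 I y z, g w := by
  have h1 : ∀ a, (if Adj I z a then g a else 0) = (if Adj I z a ∧ Far I y a then g a else 0) +
      (if Adj I y a ∧ Adj I z a then g a else 0) := by
    intro a
    by_cases hz : Adj I z a
    · rcases eq_or_adj_or_far I y a with h2 | h2 | h2
      · subst h2
        exact absurd hz.symm hyz.not_adj
      · rw [if_pos hz, if_neg (fun hh => h2.not_far hh.2), if_pos ⟨h2, hz⟩]
        ring
      · rw [if_pos hz, if_pos ⟨hz, h2⟩, if_neg (fun hh => h2.not_adj hh.1)]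
        ring
    · rw [if_neg hz, if_neg (fun hh => hz hh.1), if_neg (fun hh => hz hh.2)]
      ring
  have h3 := h.sum_nb hg z
  unfold nb at h3
  rw [Finset.sum_filter, Finset.sum_congr rfl (fun a _ => h1 a), Finset.sum_add_distrib,
    ← Finset.sum_filter, ← Finset.sum_filter] at h3
  unfold cns2
  linarith

/-- **Task GenD (4).** For `z` far from `y` and `g` with zero line sums:
`⟨G^y_z, g⟩ = s t g(y) + s^2 ∑_{w ∈ cns2 y z} g(w) + s^3 g(z)`.
Proof. `GQ.G_formula` on `far y` (`G_zero` off it): `s ∑_{far y} g = s t g y`;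
`∑_{a far y} cn y z a * g a = ∑_{w ∈ cns2 y z} ∑_{a ∼ w, a far y} g a = - t ∑_w g w`; `t g z`;
`- s ∑_{a ∼ z, a far y} g a = s (t+1) g z + s ∑_w g w`. `s + t = s^2`, `t + s t + s = s^3`. -/
theorem GQ.inner_G (h : GQ I s t) (hst : s + t = s * s) {g : Pt → ℤ} (hg : LS I g) {y z : Pt}
    (hyz : Far I y z) :
    ∑ a, G I s y z a * g a =
      (s : ℤ) * t * g y + (s : ℤ) ^ 2 * ∑ w ∈ cns2 I y z, g w + (s : ℤ) ^ 3 * g z := by
  have h0 : ∀ a, (cn I y z a : ℤ) * g a =
      ∑ w ∈ cns2 I y z, if Adj I w a then g a else 0 := by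
    intro a
    have h01 : (cn I y z a : ℤ) = ∑ w ∈ cns2 I y z, if Adj I w a then (1 : ℤ) else 0 := by
      rw [Finset.sum_ite, Finset.sum_const_zero, add_zero, Finset.sum_const, nsmul_eq_mul, mul_one]
      unfold cn
      congr 2
      ext w
      rw [mem_cns, Finset.mem_filter, mem_cns2, adj_comm (p := w)]
      tauto
    rw [h01, Finset.sum_mul]
    refine Finset.sum_congr rfl fun w _ => ?_
    split_ifs <;> simp
  have h1 : ∑ a, G I s y z a * g a = ∑ a ∈ far I y, G I s y z a * g a := by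
    refine (Finset.sum_subset (Finset.subset_univ _) fun a _ ha => ?_).symm
    rw [G_zero (fun hh => ha (mem_far.2 hh)), zero_mul]
  have h2 : ∀ a ∈ far I y, G I s y z a * g a = (s : ℤ) * g a -
      (∑ w ∈ cns2 I y z, if Adj I w a then g a else 0) +
      (if a = z then (t : ℤ) * g a else 0) - (if Adj I z a then (s : ℤ) * g a else 0) := by
    intro a ha
    rw [h.G_formula hyz (mem_far.1 ha), ← h0]
    split_ifs <;> ring
  have h3 : ∑ a ∈ far I y, (∑ w ∈ cns2 I y z, if Adj I w a then g a else 0) =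
      -(t : ℤ) * ∑ w ∈ cns2 I y z, g w := by
    rw [Finset.sum_comm, Finset.mul_sum]
    refine Finset.sum_congr rfl fun w hw => ?_
    rw [← h.sum_nb_far hg (mem_cns2.1 hw).1, ← Finset.sum_filter]
    refine Finset.sum_congr ?_ fun _ _ => rfl
    ext a
    simp only [Finset.mem_filter, mem_far, Finset.mem_univ, true_and]
    tauto
  have h4 : ∑ a ∈ far I y, (if a = z then (t : ℤ) * g a else 0) = (t : ℤ) * g z := by
    rw [Finset.sum_ite_eq' (far I y) z, if_pos (mem_far.2 hyz)]
  have h5 : ∑ a ∈ far I y, (if Adj I z a then (s : ℤ) * g a else 0) =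
      (s : ℤ) * (-((t : ℤ) + 1) * g z - ∑ w ∈ cns2 I y z, g w) := by
    rw [← h.sum_nb_far' hg hyz, Finset.mul_sum, ← Finset.sum_filter]
    refine Finset.sum_congr ?_ fun _ _ => rfl
    ext a
    simp only [Finset.mem_filter, mem_far, Finset.mem_univ, true_and]
    tauto
  rw [h1, Finset.sum_congr rfl h2, Finset.sum_sub_distrib, Finset.sum_add_distrib,
    Finset.sum_sub_distrib, h3, h4, h5, ← Finset.mul_sum, h.sum_far hg y]
  have h6 : (s : ℤ) + t = s * s := by exact_mod_cast hst
  have h7 : (t : ℤ) = s * s - s := by linarith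
  rw [h7]
  ring

end Pool.CCff5b
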