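import Pool.Agent.W_ccff5b_h86.GenD

set_option autoImplicit false

namespace Pool.CCff5b

open Finset
open scoped Classical

variable {Pt Ln : Type} [Fintype Pt] [Fintype Ln] {I : Pt → Ln → Prop} {s t : ℕ}

/-- partition of the points by their relation to `y` -/
private theorem GenE_split (h : GQ I s t) (k : Pt → ℤ) (y : Pt) :
    ∑ z, k z = k y + ∑ z ∈ nb I y, k z + ∑ z ∈ far I y, k z := by
  have h1 : (univ : Finset Pt) = insert y (nb I y ∪ far I y) := by
    ext z
    simp only [mem_univ, mem_insert, mem_union, nb, far, mem_filter, true_and, true_iff]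
    exact eq_or_adj_or_far I y z
  have h2 : y ∉ nb I y ∪ far I y := by
    simp only [mem_union, nb, far, mem_filter, mem_univ, true_and, not_or]
    exact ⟨not_adj_self, h.not_far_self⟩
  have h3 : Disjoint (nb I y) (far I y) := by
    rw [Finset.disjoint_left]
    intro z hz hz'
    simp only [nb, far, mem_filter, mem_univ, true_and] at hz hz'
    exact hz.not_far hz'
  rw [h1, sum_insert h2, sum_union h3, add_assoc]

/-- **Task GenE.** For `f, g` with zero line sums:
`∑_{z far y} f(z) ⟨G^y_z, g⟩ = s^3 ∑ f g + s^4 (s-2) f(y) g(y) - s^4 ∑_{z ∼ y} f(z) g(z)`.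
Proof. Insert `GQ.inner_G`. `∑_{z far y} f z = t f y` (`GQ.sum_far`);
`∑_{z far y} f z ∑_{w ∈ cns2 y z} g w = ∑_{w ∼ y} g w ∑_{z ∼ w, z far y} f z = - t ∑_{w ∼ y} f w g w`
(`GQ.sum_nb_far`); `∑_{z far y} f z g z = ∑ f g - f y g y - ∑_{z ∼ y} f z g z`. Total
`s^3 ∑ f g + (s t^2 - s^3) f y g y - (s^2 t + s^3) ∑_{z ∼ y} f g`, with `t = s^2 - s`. -/
theorem GQ.sum_inner (h : GQ I s t) (hst : s + t = s * s) {f g : Pt → ℤ} (hf : LS I f)
    (hg : LS I g) (y : Pt) :
    ∑ z ∈ far I y, f z * (∑ a, G I s y z a * g a) =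
      (s : ℤ) ^ 3 * ∑ z, f z * g z + (s : ℤ) ^ 4 * ((s : ℤ) - 2) * (f y * g y)
        - (s : ℤ) ^ 4 * ∑ z ∈ nb I y, f z * g z := by
  have ht : (t : ℤ) = (s : ℤ) ^ 2 - s := by
    have : ((s + t : ℕ) : ℤ) = ((s * s : ℕ) : ℤ) := by rw [hst]
    push_cast at this
    linarith [this]
  have h1 : ∑ z ∈ far I y, f z * (∑ a, G I s y z a * g a) =
      ∑ z ∈ far I y, ((s : ℤ) * t * g y * f z +
        (s : ℤ) ^ 2 * (f z * ∑ w ∈ cns2 I y z, g w) + (s : ℤ) ^ 3 * (f z * g z)) := by
    refine sum_congr rfl fun z hz => ?_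
    simp only [far, mem_filter, mem_univ, true_and] at hz
    rw [h.inner_G hst hg hz]
    ring
  have h2 : ∑ z ∈ far I y, f z * ∑ w ∈ cns2 I y z, g w =
      -(t : ℤ) * ∑ w ∈ nb I y, f w * g w := by
    simp only [mul_sum]
    rw [sum_comm' (t' := nb I y)
      (s' := fun w => univ.filter (fun z => Adj I w z ∧ Far I y z))]
    · refine sum_congr rfl fun w hw => ?_
      simp only [nb, mem_filter, mem_univ, true_and] at hw
      rw [← sum_mul, h.sum_nb_far hf hw]
      ring
    · intro z w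
      simp only [far, cns2, nb, mem_filter, mem_univ, true_and]
      constructor
      · rintro ⟨a, b, c⟩
        exact ⟨⟨c.symm, a⟩, b⟩
      · rintro ⟨⟨a, b⟩, c⟩
        exact ⟨b, c, a.symm⟩
  have h3 := GenE_split h (fun z => f z * g z) y
  rw [h1, sum_add_distrib, sum_add_distrib, ← mul_sum, ← mul_sum, ← mul_sum, h2, h.sum_far hf y]
  rw [h3, ht]
  ring

end Pool.CCff5b
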