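import Mathlib

set_option autoImplicit false

namespace Pool.CCff5b

open Finset

/-- `M_uv = s^2 g_uv + ∑_z g_uz g_yz g_vz - s g_yu g_yv` -/
def Mf {P : Type} (D : Finset P) (g : P → P → ℤ) (s : ℤ) (y u v : P) : ℤ :=
  s ^ 2 * g u v + ∑ z ∈ D, g u z * g y z * g v z - s * (g y u * g y v)

end Pool.CCff5b
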