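import Pool.Agent.W_ccff5b_h86.GenC
import Pool.Agent.W_ccff5b_h86.GenE
import Pool.Agent.W_ccff5b_h86.GenM

set_option autoImplicit false

namespace Pool.CCff5b

open Finset
open scoped Classical

variable {Pt Ln : Type} [Fintype Pt] [Fintype Ln] {I : Pt → Ln → Prop} {s t : ℕ}

/-- **Task GenF.** Key formula. For `y, u, v` far from `x`:
`∑_{z far y} G^x_u(z) ⟨G^y_z, G^x_v⟩ = s^3 M_uv`.
Proof. `GQ.sum_inner` with `f = G^x_u`, `g = G^x_v` (`GQ.LS_G`), `∑ f g = s^3 G_u v`
(`GQ.sum_G_mul_G`), the sum over `nb y` is the sum over `z ∼ y`, `z far x` (`G_zero`), and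
`s * (that sum)` is expressed by the triple sum in `GQ.triple_sum`. Arithmetic: `t = s^2 - s`,
`s^3 - s^4 + (t+1) s^2 = s^2`, `s^2 - 2 s - t = - s`. (`G_symm` to exchange indices.) -/
theorem GQ.key (h : GQ I s t) (hst : s + t = s * s) (hs : 1 ≤ s) {x y u v : Pt}
    (hy : Far I x y) (hu : Far I x u) (hv : Far I x v) :
    ∑ z ∈ far I y, G I s x u z * (∑ a, G I s y z a * G I s x v a) =
      (s : ℤ) ^ 3 * Mf (far I x) (G I s x) s y u v := by
  rw [h.sum_inner hst (h.LS_G hst hu) (h.LS_G hst hv) y, h.sum_G_mul_G hst hu hv]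
  have h1 : ∑ z ∈ nb I y, G I s x u z * G I s x v z =
      ∑ z ∈ univ.filter (fun z => Adj I y z ∧ Far I x z), G I s x u z * G I s x v z := by
    symm
    refine Finset.sum_subset (fun z hz => ?_) fun z hz hz' => ?_
    · exact mem_nb.2 (Finset.mem_filter.1 hz).2.1
    · have hf : ¬ Far I x z := fun hf => hz' (Finset.mem_filter.2 ⟨Finset.mem_univ z,
        mem_nb.1 hz, hf⟩)
      rw [G_zero hf, zero_mul]
  have h2 : ∑ z ∈ far I x, G I s x u z * G I s x y z * G I s x v z =
      ∑ z, G I s x y z * G I s x u z * G I s x v z := by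
    rw [← Finset.sum_subset (Finset.subset_univ (far I x)) (fun z _ hz => by
      rw [G_zero (fun hf => hz (mem_far.2 hf)), zero_mul, zero_mul])]
    exact Finset.sum_congr rfl fun z _ => by ring
  have h3 := h.triple_sum hst hs hy hu hv
  have ht : (t : ℤ) = (s : ℤ) * s - s := by
    have h4 : ((s + t : ℕ) : ℤ) = ((s * s : ℕ) : ℤ) := by rw [hst]
    push_cast at h4
    linarith
  unfold Mf
  rw [h2, h3, h1, G_symm hy hu, G_symm hy hv, ht]
  ring

end Pool.CCff5b
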