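import Pool.Agent.W_ccff5b_h86.GenM

set_option autoImplicit false

namespace Pool.CCff5b

open Finset

/-- **Task GenG (1).** `∑_u M_uu = s^2 (s-1) |D| + ∑_z g_yz ∑_u g_uz^2 - s ∑_u g_yu^2
= s^2 (s-1) s^3 (s-1) + 0 - s s^3 (s-1)` (`∑_u g_uz^2 = s^3 (s-1)` is constant, `∑_z g_yz = 0`). -/
theorem Mf_trace {P : Type} (D : Finset P) (g : P → P → ℤ) (s : ℤ) (y : P) (hy : y ∈ D)
    (hsymm : ∀ u ∈ D, ∀ v ∈ D, g u v = g v u)
    (hg : ∀ u ∈ D, ∀ v ∈ D, ∑ z ∈ D, g u z * g v z = s ^ 3 * g u v)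
    (hd : ∀ u ∈ D, g u u = s - 1) (hcard : (D.card : ℤ) = s ^ 3 * (s - 1))
    (h0 : ∀ u ∈ D, ∑ z ∈ D, g u z = 0) :
    ∑ u ∈ D, Mf D g s y u u = s ^ 4 * (s - 1) * (s ^ 2 - s - 1) := by
  have e1 : ∑ u ∈ D, s ^ 2 * g u u = s ^ 2 * (s - 1) * (s ^ 3 * (s - 1)) := by
    rw [← hcard, Finset.sum_congr rfl (fun u hu => by rw [hd u hu]), Finset.sum_const, nsmul_eq_mul]
    ring
  have e2 : ∑ u ∈ D, ∑ z ∈ D, g u z * g y z * g u z = 0 := by
    rw [Finset.sum_comm]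
    have h : ∀ z ∈ D, ∑ u ∈ D, g u z * g y z * g u z = s ^ 3 * (s - 1) * g y z := by
      intro z hz
      have h1 : ∑ u ∈ D, g u z * g y z * g u z = g y z * ∑ u ∈ D, g z u * g z u := by
        rw [Finset.mul_sum]
        refine Finset.sum_congr rfl ?_
        intro u hu
        rw [hsymm u hu z hz]
        ring
      rw [h1, hg z hz z hz, hd z hz]
      ring
    rw [Finset.sum_congr rfl h, ← Finset.mul_sum, h0 y hy, mul_zero]
  have e3 : ∑ u ∈ D, s * (g y u * g y u) = s * (s ^ 3 * (s - 1)) := by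
    rw [← Finset.mul_sum, hg y hy y hy, hd y hy]
  simp only [Mf]
  rw [Finset.sum_sub_distrib, Finset.sum_add_distrib, e1, e2, e3]
  ring

/-- **Task GenG (2).** `∑_v M_uv g_yv = s^2 s^3 g_uy + ∑_z g_uz g_yz (s^3 g_yz) - s g_yu s^3 (s-1)
= (s^5 + s^5 (s-2) - s^4 (s-1)) g_yu`. -/
theorem Mf_mul {P : Type} (D : Finset P) (g : P → P → ℤ) (s : ℤ) (y : P) (hy : y ∈ D)
    (hsymm : ∀ u ∈ D, ∀ v ∈ D, g u v = g v u)
    (hg : ∀ u ∈ D, ∀ v ∈ D, ∑ z ∈ D, g u z * g v z = s ^ 3 * g u v)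
    (hd : ∀ u ∈ D, g u u = s - 1)
    (h3 : ∀ u ∈ D, ∀ v ∈ D, ∑ z ∈ D, (g u z) ^ 2 * g v z = s ^ 2 * (s - 2) * g u v) (u : P)
    (hu : u ∈ D) :
    ∑ v ∈ D, Mf D g s y u v * g y v = s ^ 4 * (s - 1) ^ 2 * g y u := by
  have e1 : ∑ v ∈ D, s ^ 2 * g u v * g y v = s ^ 2 * (s ^ 3 * g y u) := by
    rw [hsymm y hy u hu, ← hg u hu y hy, Finset.mul_sum]
    refine Finset.sum_congr rfl ?_
    intro v _
    ring
  have e2 : ∑ v ∈ D, (∑ z ∈ D, g u z * g y z * g v z) * g y v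
      = s ^ 3 * (s ^ 2 * (s - 2) * g y u) := by
    simp_rw [Finset.sum_mul]
    rw [Finset.sum_comm]
    have h : ∀ z ∈ D, ∑ v ∈ D, g u z * g y z * g v z * g y v
        = s ^ 3 * ((g y z) ^ 2 * g u z) := by
      intro z hz
      have h1 : ∑ v ∈ D, g u z * g y z * g v z * g y v
          = g u z * g y z * ∑ v ∈ D, g z v * g y v := by
        rw [Finset.mul_sum]
        refine Finset.sum_congr rfl ?_
        intro v hv
        rw [hsymm v hv z hz]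
        ring
      rw [h1, hg z hz y hy, hsymm z hz y hy]
      ring
    rw [Finset.sum_congr rfl h, ← Finset.mul_sum, h3 y hy u hu]
  have e3 : ∑ v ∈ D, s * (g y u * g y v) * g y v = s * g y u * (s ^ 3 * (s - 1)) := by
    rw [← hd y hy, ← hg y hy y hy, Finset.mul_sum]
    refine Finset.sum_congr rfl ?_
    intro v _
    ring
  have e4 : ∑ v ∈ D, Mf D g s y u v * g y v = ∑ v ∈ D, s ^ 2 * g u v * g y v
      + ∑ v ∈ D, (∑ z ∈ D, g u z * g y z * g v z) * g y v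
      - ∑ v ∈ D, s * (g y u * g y v) * g y v := by
    rw [← Finset.sum_add_distrib, ← Finset.sum_sub_distrib]
    refine Finset.sum_congr rfl ?_
    intro v _
    simp only [Mf]
    ring
  rw [e4, e1, e2, e3]
  ring

end Pool.CCff5b
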