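import Pool.Agent.W_ccff5b_h86.GenM

set_option autoImplicit false

namespace Pool.CCff5b

open Finset

/-- **Task GenH.** `∑_{u,v} M_uv^2`. With `a = s^2 g_uv`, `b = ∑_z g_uz g_yz g_vz`, `c = - s g_yu g_yv`:
`∑ a^2 = s^4 ∑_u s^3 g_uu = s^10 (s-1)^2`;
`∑ b^2 = ∑_{z,z'} g_yz g_yz' (∑_u g_uz g_uz')^2 = s^6 ∑_{z,z'} g_yz g_yz' g_zz'^2
  = s^6 ∑_z g_yz s^2 (s-2) g_zy = s^8 (s-2) s^3 (s-1)` (by `h3`);
`∑ c^2 = s^2 (s^3 (s-1))^2`;
`2 ∑ a b = 2 s^2 ∑_z g_yz (∑_{u,v} g_zu g_uv g_vz) = 2 s^2 ∑_z g_yz s^6 (s-1) = 0`;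
`2 ∑ a c = - 2 s^3 ∑_{u,v} g_uv g_yu g_yv = - 2 s^3 s^6 (s-1)`;
`2 ∑ b c = - 2 s ∑_z g_yz (∑_u g_uz g_yu)^2 = - 2 s s^6 ∑_z g_yz^3 = - 2 s^7 s^2 (s-2) (s-1)`.
(All inner sums by `hg`, `hsymm`; `∑_z g_yz^3` by `h3` with `u = v = y`.) -/
theorem Mf_sq {P : Type} (D : Finset P) (g : P → P → ℤ) (s : ℤ) (y : P) (hy : y ∈ D)
    (hsymm : ∀ u ∈ D, ∀ v ∈ D, g u v = g v u)
    (hg : ∀ u ∈ D, ∀ v ∈ D, ∑ z ∈ D, g u z * g v z = s ^ 3 * g u v)
    (hd : ∀ u ∈ D, g u u = s - 1) (hcard : (D.card : ℤ) = s ^ 3 * (s - 1))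
    (h0 : ∀ u ∈ D, ∑ z ∈ D, g u z = 0)
    (h3 : ∀ u ∈ D, ∀ v ∈ D, ∑ z ∈ D, (g u z) ^ 2 * g v z = s ^ 2 * (s - 2) * g u v) :
    ∑ u ∈ D, ∑ v ∈ D, (Mf D g s y u v) ^ 2 =
      s ^ 8 * (s - 1) * (s ^ 4 - s ^ 3 - 3 * s ^ 2 + 3 * s - 1) := by
  -- the second form of `hg`
  have hg' : ∀ u ∈ D, ∀ v ∈ D, ∑ z ∈ D, g z u * g z v = s ^ 3 * g u v := by
    intro u hu v hv
    rw [← hg u hu v hv]
    refine Finset.sum_congr rfl ?_
    intro z hz
    rw [hsymm z hz u hu, hsymm z hz v hv]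
  -- the six sums
  have haa : ∑ u ∈ D, ∑ v ∈ D, (s ^ 2 * g u v) ^ 2 = s ^ 10 * (s - 1) ^ 2 := by
    have h : ∀ u ∈ D, ∑ v ∈ D, (s ^ 2 * g u v) ^ 2 = s ^ 7 * (s - 1) := by
      intro u hu
      have h1 : ∑ v ∈ D, (s ^ 2 * g u v) ^ 2 = s ^ 4 * ∑ v ∈ D, g u v * g u v := by
        rw [Finset.mul_sum]
        refine Finset.sum_congr rfl ?_
        intro v _
        ring
      rw [h1, hg u hu u hu, hd u hu]
      ring
    rw [Finset.sum_congr rfl h, Finset.sum_const, nsmul_eq_mul, hcard]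
    ring
  have hcc : ∑ u ∈ D, ∑ v ∈ D, (s * (g y u * g y v)) ^ 2 = s ^ 8 * (s - 1) ^ 2 := by
    have h : ∀ u ∈ D, ∑ v ∈ D, (s * (g y u * g y v)) ^ 2
        = s ^ 5 * (s - 1) * (g y u * g y u) := by
      intro u hu
      have h1 : ∑ v ∈ D, (s * (g y u * g y v)) ^ 2
          = s ^ 2 * (g y u * g y u) * ∑ v ∈ D, g y v * g y v := by
        rw [Finset.mul_sum]
        refine Finset.sum_congr rfl ?_
        intro v _
        ring
      rw [h1, hg y hy y hy, hd y hy]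
      ring
    rw [Finset.sum_congr rfl h, ← Finset.mul_sum, hg y hy y hy, hd y hy]
    ring
  have hac : ∑ u ∈ D, ∑ v ∈ D, (s ^ 2 * g u v) * (s * (g y u * g y v)) = s ^ 9 * (s - 1) := by
    have h : ∀ u ∈ D, ∑ v ∈ D, (s ^ 2 * g u v) * (s * (g y u * g y v))
        = s ^ 6 * (g y u * g y u) := by
      intro u hu
      have h1 : ∑ v ∈ D, (s ^ 2 * g u v) * (s * (g y u * g y v))
          = s ^ 3 * g y u * ∑ v ∈ D, g u v * g y v := by
        rw [Finset.mul_sum]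
        refine Finset.sum_congr rfl ?_
        intro v _
        ring
      rw [h1, hg u hu y hy, hsymm u hu y hy]
      ring
    rw [Finset.sum_congr rfl h, ← Finset.mul_sum, hg y hy y hy, hd y hy]
    ring
  have hab : ∑ u ∈ D, ∑ v ∈ D, (s ^ 2 * g u v) * (∑ z ∈ D, g u z * g y z * g v z) = 0 := by
    have h : ∀ u ∈ D, ∑ v ∈ D, (s ^ 2 * g u v) * (∑ z ∈ D, g u z * g y z * g v z)
        = ∑ z ∈ D, s ^ 5 * (g y z * (g u z * g u z)) := by
      intro u hu
      simp_rw [Finset.mul_sum]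
      rw [Finset.sum_comm]
      refine Finset.sum_congr rfl ?_
      intro z hz
      have h1 : ∑ v ∈ D, s ^ 2 * g u v * (g u z * g y z * g v z)
          = s ^ 2 * (g u z * g y z) * ∑ v ∈ D, g u v * g z v := by
        rw [Finset.mul_sum]
        refine Finset.sum_congr rfl ?_
        intro v hv
        rw [hsymm v hv z hz]
        ring
      rw [h1, hg u hu z hz]
      ring
    rw [Finset.sum_congr rfl h, Finset.sum_comm]
    have h2 : ∀ z ∈ D, ∑ u ∈ D, s ^ 5 * (g y z * (g u z * g u z)) = s ^ 8 * (s - 1) * g y z := by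
      intro z hz
      have h1 : ∑ u ∈ D, s ^ 5 * (g y z * (g u z * g u z))
          = s ^ 5 * g y z * ∑ u ∈ D, g u z * g u z := by
        rw [Finset.mul_sum]
        refine Finset.sum_congr rfl ?_
        intro u _
        ring
      rw [h1, hg' z hz z hz, hd z hz]
      ring
    rw [Finset.sum_congr rfl h2, ← Finset.mul_sum, h0 y hy, mul_zero]
  have hbc : ∑ u ∈ D, ∑ v ∈ D, (∑ z ∈ D, g u z * g y z * g v z) * (s * (g y u * g y v))
      = s ^ 9 * (s - 2) * (s - 1) := by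
    have h : ∀ u ∈ D, ∑ v ∈ D, (∑ z ∈ D, g u z * g y z * g v z) * (s * (g y u * g y v))
        = ∑ z ∈ D, s ^ 4 * (g y u * g u z * (g y z * g y z)) := by
      intro u hu
      simp_rw [Finset.sum_mul]
      rw [Finset.sum_comm]
      refine Finset.sum_congr rfl ?_
      intro z hz
      have h1 : ∑ v ∈ D, g u z * g y z * g v z * (s * (g y u * g y v))
          = s * (g u z * g y z * g y u) * ∑ v ∈ D, g z v * g y v := by
        rw [Finset.mul_sum]
        refine Finset.sum_congr rfl ?_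
        intro v hv
        rw [hsymm v hv z hz]
        ring
      rw [h1, hg z hz y hy, hsymm z hz y hy]
      ring
    rw [Finset.sum_congr rfl h, Finset.sum_comm]
    have h2 : ∀ z ∈ D, ∑ u ∈ D, s ^ 4 * (g y u * g u z * (g y z * g y z))
        = s ^ 7 * ((g y z) ^ 2 * g y z) := by
      intro z hz
      have h1 : ∑ u ∈ D, s ^ 4 * (g y u * g u z * (g y z * g y z))
          = s ^ 4 * (g y z * g y z) * ∑ u ∈ D, g y u * g z u := by
        rw [Finset.mul_sum]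
        refine Finset.sum_congr rfl ?_
        intro u hu
        rw [hsymm u hu z hz]
        ring
      rw [h1, hg y hy z hz]
      ring
    rw [Finset.sum_congr rfl h2, ← Finset.mul_sum, h3 y hy y hy, hd y hy]
    ring
  have hbb : ∑ u ∈ D, ∑ v ∈ D, (∑ z ∈ D, g u z * g y z * g v z) ^ 2
      = s ^ 11 * (s - 2) * (s - 1) := by
    have h : ∀ u ∈ D, ∑ v ∈ D, (∑ z ∈ D, g u z * g y z * g v z) ^ 2
        = ∑ z ∈ D, ∑ w ∈ D, s ^ 3 * (g u z * g y z * (g u w * g y w) * g z w) := by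
      intro u hu
      have h1 : ∀ v ∈ D, (∑ z ∈ D, g u z * g y z * g v z) ^ 2
          = ∑ z ∈ D, ∑ w ∈ D, (g u z * g y z * g v z) * (g u w * g y w * g v w) := by
        intro v _
        rw [sq, Finset.sum_mul_sum]
      rw [Finset.sum_congr rfl h1, Finset.sum_comm]
      refine Finset.sum_congr rfl ?_
      intro z hz
      rw [Finset.sum_comm]
      refine Finset.sum_congr rfl ?_
      intro w hw
      have h2 : ∑ v ∈ D, g u z * g y z * g v z * (g u w * g y w * g v w)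
          = g u z * g y z * (g u w * g y w) * ∑ v ∈ D, g v z * g v w := by
        rw [Finset.mul_sum]
        refine Finset.sum_congr rfl ?_
        intro v _
        ring
      rw [h2, hg' z hz w hw]
      ring
    rw [Finset.sum_congr rfl h, Finset.sum_comm]
    have h4 : ∀ z ∈ D, ∑ u ∈ D, ∑ w ∈ D, s ^ 3 * (g u z * g y z * (g u w * g y w) * g z w)
        = s ^ 8 * (s - 2) * (g y z * g y z) := by
      intro z hz
      rw [Finset.sum_comm]
      have h5 : ∀ w ∈ D, ∑ u ∈ D, s ^ 3 * (g u z * g y z * (g u w * g y w) * g z w)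
          = s ^ 6 * g y z * ((g z w) ^ 2 * g y w) := by
        intro w hw
        have h6 : ∑ u ∈ D, s ^ 3 * (g u z * g y z * (g u w * g y w) * g z w)
            = s ^ 3 * (g y z * g y w * g z w) * ∑ u ∈ D, g u z * g u w := by
          rw [Finset.mul_sum]
          refine Finset.sum_congr rfl ?_
          intro u _
          ring
        rw [h6, hg' z hz w hw]
        ring
      rw [Finset.sum_congr rfl h5, ← Finset.mul_sum, h3 z hz y hy, hsymm z hz y hy]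
      ring
    rw [Finset.sum_congr rfl h4, ← Finset.mul_sum, hg y hy y hy, hd y hy]
    ring
  have key : ∑ u ∈ D, ∑ v ∈ D, (Mf D g s y u v) ^ 2
      = ∑ u ∈ D, ∑ v ∈ D, (s ^ 2 * g u v) ^ 2
        + ∑ u ∈ D, ∑ v ∈ D, (∑ z ∈ D, g u z * g y z * g v z) ^ 2
        + ∑ u ∈ D, ∑ v ∈ D, (s * (g y u * g y v)) ^ 2
        + 2 * ∑ u ∈ D, ∑ v ∈ D, (s ^ 2 * g u v) * (∑ z ∈ D, g u z * g y z * g v z)
        - 2 * ∑ u ∈ D, ∑ v ∈ D, (s ^ 2 * g u v) * (s * (g y u * g y v))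
        - 2 * ∑ u ∈ D, ∑ v ∈ D, (∑ z ∈ D, g u z * g y z * g v z) * (s * (g y u * g y v)) := by
    simp only [Finset.mul_sum (a := (2 : ℤ)), ← Finset.sum_add_distrib, ← Finset.sum_sub_distrib]
    refine Finset.sum_congr rfl ?_
    intro u _
    refine Finset.sum_congr rfl ?_
    intro v _
    simp only [Mf]
    ring
  rw [key, haa, hbb, hcc, hab, hac, hbc]
  ring

end Pool.CCff5b
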