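import Mathlib

set_option autoImplicit false

namespace Pool.CCff5b

open Matrix

/-- **Task GenL (1).** The trace of an idempotent real matrix is a natural number (its rank).
(`LinearMap.IsProj.trace`, `Matrix.toLin'`, or `LinearMap.IsIdempotentElem...`.) -/
theorem trace_idem {ι : Type} [Fintype ι] [DecidableEq ι] (A : Matrix ι ι ℝ) (hA : A * A = A) :
    ∃ n : ℕ, A.trace = n := by
  have h1 : IsIdempotentElem (Matrix.toLin' A) := by
    unfold IsIdempotentElem
    rw [Module.End.mul_eq_comp, ← Matrix.toLin'_mul, hA]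
  obtain ⟨p, hp⟩ := (LinearMap.isProj_iff_isIdempotentElem _).2 h1
  refine ⟨Module.finrank ℝ p, ?_⟩
  rw [← hp.trace, Matrix.trace_toLin'_eq]

/-- **Task GenL (2).** Let `A, B` be symmetric idempotent real matrices, `R = A B A`, `g ≠ 0`,
`A g = g`, `R g = lam g`, `tr R - tr R^2 = lam - lam^2`. Then `tr R = lam + n` with `n ∈ ℕ`.
Proof. `E = g gᵀ / |g|^2` (idempotent, symmetric, trace 1, `R E = E R = lam E`, `A E = E`). `W = (1 - A) B A`;
`WᵀW = A B (1-A) B A = A B A - A B A B A = R - R^2`. `V = W (1 - E)`: `VᵀV = (1-E)(R - R^2)(1-E)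
= R - R^2 - (lam - lam^2) E`, trace `0`. So `V = 0` (`Matrix.trace_conjTranspose_mul_self_eq_zero_iff`
or sum of squares), `R - R^2 = (lam - lam^2) E`. Then `R' = R - lam E` satisfies `R'^2 = R^2 - lam^2 E = R'`,
and `tr R' = tr R - lam` is a natural number by (1). -/
theorem int_trace {ι : Type} [Fintype ι] [DecidableEq ι] (A B : Matrix ι ι ℝ)
    (hA : Aᵀ = A) (hA2 : A * A = A) (hB : Bᵀ = B) (hB2 : B * B = B) (g : ι → ℝ) (lam : ℝ)
    (hg : g ⬝ᵥ g ≠ 0) (hAg : A *ᵥ g = g) (hRg : (A * B * A) *ᵥ g = lam • g)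
    (htr : (A * B * A).trace - ((A * B * A) * (A * B * A)).trace = lam - lam ^ 2) :
    ∃ n : ℕ, (A * B * A).trace = lam + n := by
  set R : Matrix ι ι ℝ := A * B * A with hR
  have hRT : Rᵀ = R := by
    rw [hR, transpose_mul, transpose_mul, hA, hB, Matrix.mul_assoc]
  have hgR : g ᵥ* R = lam • g := by
    have : (Rᵀ) *ᵥ g = lam • g := by rw [hRT]; exact hRg
    rwa [mulVec_transpose] at this
  set E : Matrix ι ι ℝ := (g ⬝ᵥ g)⁻¹ • vecMulVec g g with hE
  have hET : Eᵀ = E := by
    rw [hE, transpose_smul, transpose_vecMulVec]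
  have hEE : E * E = E := by
    rw [hE, smul_mul_smul_comm, vecMulVec_mul_vecMulVec, vecMulVec_smul, smul_smul, mul_assoc,
      inv_mul_cancel₀ hg, mul_one]
  have hEtr : E.trace = 1 := by
    rw [hE, trace_smul, trace_vecMulVec, smul_eq_mul, inv_mul_cancel₀ hg]
  have hRE : R * E = lam • E := by
    rw [hE, Matrix.mul_smul, mul_vecMulVec, hRg, smul_vecMulVec, smul_comm]
  have hER : E * R = lam • E := by
    rw [hE, Matrix.smul_mul, vecMulVec_mul, hgR, vecMulVec_smul, smul_comm]
  clear_value E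
  set W : Matrix ι ι ℝ := (1 - A) * B * A with hW
  have hWW : Wᵀ * W = R - R * R := by
    have : Wᵀ = A * B * (1 - A) := by
      rw [hW, transpose_mul, transpose_mul, hA, hB, transpose_sub, transpose_one, hA,
        Matrix.mul_assoc]
    rw [this, hW, hR]
    have h1 : (1 - A) * (1 - A) = 1 - A := by
      rw [Matrix.mul_sub, Matrix.sub_mul, Matrix.sub_mul, hA2]; simp
    calc A * B * (1 - A) * ((1 - A) * B * A) = A * B * ((1 - A) * (1 - A)) * B * A := by
          simp only [Matrix.mul_assoc]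
      _ = A * B * (1 - A) * B * A := by rw [h1]
      _ = A * (B * B) * A - A * B * A * B * A := by
          simp only [Matrix.mul_sub, Matrix.sub_mul, Matrix.mul_one, Matrix.mul_assoc]
      _ = A * B * A - A * B * (A * A) * B * A := by rw [hB2, hA2]
      _ = A * B * A - A * B * A * (A * B * A) := by simp only [Matrix.mul_assoc]
  set V : Matrix ι ι ℝ := W * (1 - E) with hV
  have hVV : Vᵀ * V = R - R * R - (lam - lam ^ 2) • E := by
    have h1 : Vᵀ = (1 - E) * Wᵀ := by
      rw [hV, transpose_mul, transpose_sub, transpose_one, hET]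
    have h2 : Vᵀ * V = (1 - E) * (R - R * R) * (1 - E) := by
      rw [h1, hV, ← hWW]; simp only [Matrix.mul_assoc]
    have h3 : (R * R) * E = (lam ^ 2) • E := by
      rw [Matrix.mul_assoc, hRE, Matrix.mul_smul, hRE, smul_smul, pow_two]
    have h4 : E * (R * R) = (lam ^ 2) • E := by
      rw [← Matrix.mul_assoc, hER, Matrix.smul_mul, hER, smul_smul, pow_two]
    rw [h2]
    rw [Matrix.sub_mul 1 E, Matrix.one_mul, Matrix.mul_sub E, hER, h4]
    rw [Matrix.mul_sub _ 1 E, Matrix.mul_one]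
    rw [Matrix.sub_mul (R - R * R), Matrix.sub_mul R, hRE, h3, Matrix.sub_mul, Matrix.smul_mul,
      Matrix.smul_mul, hEE, sub_smul]
    abel
  have hVtr : (Vᵀ * V).trace = 0 := by
    rw [hVV, trace_sub, trace_sub, trace_smul, hEtr, htr]; simp
  have hV0 : V = 0 := by
    have := (Matrix.trace_conjTranspose_mul_self_eq_zero_iff (A := V)).1 (by
      rw [conjTranspose_eq_transpose_of_trivial]; exact hVtr)
    exact this
  have hRR : R - R * R = (lam - lam ^ 2) • E := by
    rw [hV0] at hVV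
    simp only [Matrix.mul_zero] at hVV
    exact (sub_eq_zero.1 hVV.symm)
  have hRR' : R * R = R - (lam - lam ^ 2) • E := by rw [← hRR]; abel
  have hR' : (R - lam • E) * (R - lam • E) = R - lam • E := by
    rw [Matrix.mul_sub, Matrix.sub_mul, Matrix.sub_mul, Matrix.mul_smul, Matrix.mul_smul,
      Matrix.smul_mul, Matrix.smul_mul, hRE, hER, hEE, hRR', sub_smul, pow_two, ← smul_smul]
    abel
  obtain ⟨n, hn⟩ := trace_idem _ hR'
  refine ⟨n, ?_⟩
  rw [trace_sub, trace_smul, hEtr, smul_eq_mul, mul_one] at hn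
  linarith

end Pool.CCff5b
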