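import Pool.Agent.W_ccff5b_h86.Repro
import Pool.Agent.W_ccff5b_h86.CountB

set_option autoImplicit false

namespace Pool.CCff5b

open Finset Matrix
open scoped Classical

variable {Pt Ln : Type} [Fintype Pt] [Fintype Ln] {I : Pt → Ln → Prop} {s t : ℕ}

/-- the projection `G^x / s^3` -/
noncomputable def QM (I : Pt → Ln → Prop) (s : ℕ) (x : Pt) : Matrix Pt Pt ℝ :=
  Matrix.of (fun u v => if Far I x u then (G I s x u v : ℝ) / (s : ℝ) ^ 3 else 0)

/-- **Task GenN (1).** symmetric (`G_symm`, `G_zero`) -/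
theorem QM_symm (x : Pt) : (QM I s x)ᵀ = QM I s x := by
  ext u v
  simp only [QM, Matrix.transpose_apply, Matrix.of_apply]
  by_cases h1 : Far I x u
  · by_cases h2 : Far I x v
    · rw [if_pos h1, if_pos h2, G_symm h2 h1]
    · rw [if_pos h1, if_neg h2, G_zero h2]
      simp
  · by_cases h2 : Far I x v
    · rw [if_neg h1, if_pos h2, G_zero h1]
      simp
    · rw [if_neg h1, if_neg h2]

private theorem sum_GG_real (h : GQ I s t) (hst : s + t = s * s) {x y z : Pt} (hxy : Far I x y)
    (hxz : Far I x z) :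
    ∑ u, (G I s x y u : ℝ) * (G I s x z u : ℝ) = (s : ℝ) ^ 3 * (G I s x y z : ℝ) := by
  have h1 := h.sum_G_mul_G hst hxy hxz
  exact_mod_cast h1

/-- **Task GenN (2).** idempotent (`GQ.sum_G_mul_G`, cast to `ℝ`, `G_symm`, `G_zero`) -/
theorem GQ.QM_idem (h : GQ I s t) (hst : s + t = s * s) (hs : 1 ≤ s) (x : Pt) :
    QM I s x * QM I s x = QM I s x := by
  have hs0 : (s : ℝ) ≠ 0 := by
    have : (1 : ℝ) ≤ (s : ℝ) := by exact_mod_cast hs
    positivity
  ext u v
  have hsym : ∀ w, QM I s x w v = QM I s x v w := fun w => by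
    have := congrFun (congrFun (QM_symm (I := I) (s := s) x) v) w
    rw [Matrix.transpose_apply] at this
    exact this
  rw [Matrix.mul_apply]
  by_cases h1 : Far I x u
  · by_cases h2 : Far I x v
    · have e : ∀ w, QM I s x u w * QM I s x w v =
          ((G I s x u w : ℝ) * (G I s x v w : ℝ)) * (((s : ℝ) ^ 3)⁻¹ * ((s : ℝ) ^ 3)⁻¹) := by
        intro w
        rw [hsym w]
        simp only [QM, Matrix.of_apply, if_pos h1, if_pos h2]
        rw [div_eq_mul_inv, div_eq_mul_inv]
        ring
      rw [Finset.sum_congr rfl fun w _ => e w, ← Finset.sum_mul, sum_GG_real h hst h1 h2]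
      simp only [QM, Matrix.of_apply, if_pos h1]
      field_simp
    · have e : ∀ w, QM I s x u w * QM I s x w v = 0 := by
        intro w
        rw [hsym w]
        simp only [QM, Matrix.of_apply, if_neg h2, mul_zero]
      rw [Finset.sum_congr rfl fun w _ => e w, Finset.sum_const_zero]
      simp only [QM, Matrix.of_apply, if_pos h1]
      rw [G_zero h2]
      simp
  · have e : ∀ w, QM I s x u w * QM I s x w v = 0 := by
      intro w
      simp only [QM, Matrix.of_apply, if_neg h1, zero_mul]
    rw [Finset.sum_congr rfl fun w _ => e w, Finset.sum_const_zero]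
    simp only [QM, Matrix.of_apply, if_neg h1]

/-- **Task GenN (3).** `Q_x G^x_y = G^x_y` -/
theorem GQ.QM_mulVec (h : GQ I s t) (hst : s + t = s * s) (hs : 1 ≤ s) {x y : Pt}
    (hxy : Far I x y) :
    QM I s x *ᵥ (fun z => (G I s x y z : ℝ)) = (fun z => (G I s x y z : ℝ)) := by
  have hs0 : (s : ℝ) ≠ 0 := by
    have : (1 : ℝ) ≤ (s : ℝ) := by exact_mod_cast hs
    positivity
  ext u
  simp only [Matrix.mulVec, dotProduct]
  by_cases h1 : Far I x u
  · have e : ∀ w, QM I s x u w * (G I s x y w : ℝ) =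
        ((G I s x u w : ℝ) * (G I s x y w : ℝ)) * ((s : ℝ) ^ 3)⁻¹ := by
      intro w
      simp only [QM, Matrix.of_apply, if_pos h1]
      rw [div_eq_mul_inv]
      ring
    rw [Finset.sum_congr rfl fun w _ => e w, ← Finset.sum_mul, sum_GG_real h hst h1 hxy,
      G_symm h1 hxy]
    field_simp
  · have e : ∀ w, QM I s x u w * (G I s x y w : ℝ) = 0 := by
      intro w
      simp only [QM, Matrix.of_apply, if_neg h1, zero_mul]
    rw [Finset.sum_congr rfl fun w _ => e w, Finset.sum_const_zero, G_zero h1]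
    simp

end Pool.CCff5b
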