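import Pool.Agent.W_ccff5b_h86.GenF
import Pool.Agent.W_ccff5b_h86.GenN

set_option autoImplicit false

namespace Pool.CCff5b

open Finset Matrix
open scoped Classical

variable {Pt Ln : Type} [Fintype Pt] [Fintype Ln] {I : Pt → Ln → Prop} {s t : ℕ}

/-- **Task GenP.** The entries of `R = Q_x Q_y Q_x` for `y` far from `x`:
`R_uv = M_uv / s^6` for `u, v` far from `x`, and `0` otherwise.
Proof. `R_uv = ∑_b (∑_a A_ua B_ab) A_bv`; `A_ua = 0` if `u` is not far from `x`; `A_bv = 0` if `v` is not far
from `x` (`G_zero`). Otherwise `A_bv = G^x_v(b) / s^3` for all `b` (`G_symm`, `G_zero`), `B_ab = 0` unless `a`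
is far from `y`, and `R_uv = s^(-9) ∑_{a far y} G^x_u(a) ∑_b G^y_a(b) G^x_v(b)`: `GQ.key`. -/
theorem GQ.R_entry (h : GQ I s t) (hst : s + t = s * s) (hs : 1 ≤ s) {x y : Pt}
    (hxy : Far I x y) (u v : Pt) :
    (QM I s x * QM I s y * QM I s x) u v =
      if Far I x u ∧ Far I x v then (Mf (far I x) (G I s x) s y u v : ℝ) / (s : ℝ) ^ 6 else 0 := by
  have hs0 : (s : ℝ) ≠ 0 := by
    have : (1 : ℝ) ≤ s := by exact_mod_cast hs
    positivity
  have hA : ∀ b, QM I s x b v = if Far I x v then (G I s x v b : ℝ) / (s : ℝ) ^ 3 else 0 := by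
    intro b
    have h1 := congrFun (congrFun (QM_symm (I := I) (s := s) x) v) b
    rw [Matrix.transpose_apply] at h1
    rw [h1]
    rfl
  rw [Matrix.mul_apply]
  simp only [Matrix.mul_apply, hA]
  by_cases hu : Far I x u
  · by_cases hv : Far I x v
    · rw [if_pos ⟨hu, hv⟩]
      have key := h.key hst hs hxy hu hv
      have key' : ∑ z ∈ far I y, (G I s x u z : ℝ) *
          (∑ a, (G I s y z a : ℝ) * (G I s x v a : ℝ)) =
          (s : ℝ) ^ 3 * (Mf (far I x) (G I s x) s y u v : ℝ) := by
        exact_mod_cast key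
      have e : ∀ a, ∑ b, QM I s x u a * QM I s y a b * ((G I s x v b : ℝ) / (s : ℝ) ^ 3) =
          (if Far I y a then (G I s x u a : ℝ) *
            (∑ b, (G I s y a b : ℝ) * (G I s x v b : ℝ)) else 0) / (s : ℝ) ^ 9 := by
        intro a
        by_cases ha : Far I y a
        · rw [if_pos ha, Finset.mul_sum, Finset.sum_div]
          refine Finset.sum_congr rfl fun b _ => ?_
          simp only [QM, Matrix.of_apply, if_pos hu, if_pos ha]
          field_simp
        · rw [if_neg ha, zero_div]
          refine Finset.sum_eq_zero fun b _ => ?_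
          simp only [QM, Matrix.of_apply, if_neg ha, mul_zero, zero_mul]
      have e2 : ∑ a, (if Far I y a then (G I s x u a : ℝ) *
            (∑ b, (G I s y a b : ℝ) * (G I s x v b : ℝ)) else 0) =
          ∑ z ∈ far I y, (G I s x u z : ℝ) *
          (∑ a, (G I s y z a : ℝ) * (G I s x v a : ℝ)) := by
        rw [far, Finset.sum_filter]
      simp only [if_pos hv, Finset.sum_mul]
      rw [Finset.sum_comm, Finset.sum_congr rfl (fun a _ => e a), ← Finset.sum_div, e2, key']
      field_simp
    · rw [if_neg (fun h1 => hv h1.2)]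
      simp only [if_neg hv, mul_zero, Finset.sum_const_zero]
  · rw [if_neg (fun h1 => hu h1.1)]
    refine Finset.sum_eq_zero fun b _ => ?_
    have h0 : ∑ a, QM I s x u a * QM I s y a b = 0 := by
      refine Finset.sum_eq_zero fun a _ => ?_
      simp only [QM, Matrix.of_apply, if_neg hu, zero_mul]
    rw [h0, zero_mul]

end Pool.CCff5b
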