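import Pool.Agent.W_ccff5b_h86.GenP
import Pool.Agent.W_ccff5b_h86.GenG
import Pool.Agent.W_ccff5b_h86.GenH
import Pool.Agent.W_ccff5b_h86.GenL

set_option autoImplicit false

namespace Pool.CCff5b

open Finset Matrix
open scoped Classical

variable {Pt Ln : Type} [Fintype Pt] [Fintype Ln] {I : Pt → Ln → Prop} {s t : ℕ}

/-- sums over `far x` of products with a column of `G^x` are full sums -/
theorem sum_far_eq_univ (x y : Pt) (f : Pt → ℤ) :
    ∑ z ∈ far I x, G I s x y z * f z = ∑ z, G I s x y z * f z := by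
  apply Finset.sum_subset (Finset.subset_univ _)
  intro u _ hu
  rw [G_zero (fun h' => hu (mem_far.2 h')), zero_mul]

/-- No generalized quadrangle of order `(s, s^2 - s)` for `s ≥ 3`. -/
theorem GQ.no_extremal (h : GQ I s t) (hst : s + t = s * s) (hs : 3 ≤ s) (x : Pt) : False := by
  have hs1 : 1 ≤ s := by omega
  have ht : (t : ℤ) = (s : ℤ) * s - s := by
    have : ((s + t : ℕ) : ℤ) = ((s * s : ℕ) : ℤ) := by exact_mod_cast hst
    push_cast at this
    linarith
  have htpos : 0 < t := by nlinarith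
  have hne : (far I x).Nonempty := by
    rw [← Finset.card_pos, h.card_far x]
    positivity
  obtain ⟨y, hy'⟩ := hne
  have hxy : Far I x y := mem_far.1 hy'
  have hs0 : (s : ℝ) ≠ 0 := by
    have : s ≠ 0 := by omega
    exact_mod_cast this
  have hs1' : (s : ℝ) - 1 ≠ 0 := by
    have : (3 : ℝ) ≤ s := by exact_mod_cast hs
    linarith
  -- the data for the abstract sums
  have hsymm : ∀ u ∈ far I x, ∀ v ∈ far I x, G I s x u v = G I s x v u :=
    fun u hu v hv => G_symm (mem_far.1 hu) (mem_far.1 hv)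
  have hg : ∀ u ∈ far I x, ∀ v ∈ far I x,
      ∑ z ∈ far I x, G I s x u z * G I s x v z = (s : ℤ) ^ 3 * G I s x u v := by
    intro u hu v hv
    rw [sum_far_eq_univ, h.sum_G_mul_G hst (mem_far.1 hu) (mem_far.1 hv)]
  have hd : ∀ u ∈ far I x, G I s x u u = (s : ℤ) - 1 := fun u hu => G_self (mem_far.1 hu)
  have hcard : ((far I x).card : ℤ) = (s : ℤ) ^ 3 * ((s : ℤ) - 1) := by
    rw [h.card_far x]
    push_cast
    rw [ht]
    ring
  have h0 : ∀ u ∈ far I x, ∑ z ∈ far I x, G I s x u z = 0 := by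
    intro u hu
    have h1 := sum_far_eq_univ (I := I) (s := s) x u (fun _ => 1)
    simp only [mul_one] at h1
    rw [h1]
    exact h.sum_univ (h.LS_G hst (mem_far.1 hu))
  have h3 : ∀ u ∈ far I x, ∀ v ∈ far I x, ∑ z ∈ far I x, (G I s x u z) ^ 2 * G I s x v z =
      (s : ℤ) ^ 2 * ((s : ℤ) - 2) * G I s x u v := by
    intro u hu v hv
    rw [← h.sum_sq_mul hst hs1 (mem_far.1 hu) (mem_far.1 hv)]
    have h1 := sum_far_eq_univ (I := I) (s := s) x u (fun z => G I s x u z * G I s x v z)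
    calc ∑ z ∈ far I x, (G I s x u z) ^ 2 * G I s x v z
        = ∑ z ∈ far I x, G I s x u z * (G I s x u z * G I s x v z) :=
          Finset.sum_congr rfl fun z _ => by ring
      _ = ∑ z, G I s x u z * (G I s x u z * G I s x v z) := h1
      _ = ∑ z, (G I s x u z) ^ 2 * G I s x v z := Finset.sum_congr rfl fun z _ => by ring
  have hT1 := Mf_trace (far I x) (G I s x) s y hy' hsymm hg hd hcard h0
  have hT2 := Mf_mul (far I x) (G I s x) s y hy' hsymm hg hd h3
  have hT3 := Mf_sq (far I x) (G I s x) s y hy' hsymm hg hd hcard h0 h3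
  -- the matrices
  set A := QM I s x with hAdef
  set B := QM I s y with hBdef
  have hR := fun u v => h.R_entry hst hs1 hxy u v
  rw [← hAdef, ← hBdef] at hR
  have hRT : (A * B * A)ᵀ = A * B * A := by
    rw [Matrix.transpose_mul, Matrix.transpose_mul, QM_symm, QM_symm, ← Matrix.mul_assoc]
  -- trace of R
  have htr1 : (A * B * A).trace = ((s : ℝ) - 1) * ((s : ℝ) ^ 2 - s - 1) / (s : ℝ) ^ 2 := by
    have h1 : (A * B * A).trace = ∑ u ∈ far I x,
        (Mf (far I x) (G I s x) s y u u : ℝ) / (s : ℝ) ^ 6 := by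
      rw [Matrix.trace]
      simp only [Matrix.diag_apply]
      rw [far, Finset.sum_filter]
      refine Finset.sum_congr rfl fun u _ => ?_
      rw [hR u u]
      simp only [and_self]
      rfl
    rw [h1, ← Finset.sum_div]
    have h2 : (∑ u ∈ far I x, (Mf (far I x) (G I s x) s y u u : ℝ)) =
        (s : ℝ) ^ 4 * ((s : ℝ) - 1) * ((s : ℝ) ^ 2 - s - 1) := by
      exact_mod_cast hT1
    rw [h2]
    field_simp
  -- trace of R^2
  have htr2 : ((A * B * A) * (A * B * A)).trace =
      ((s : ℝ) - 1) * ((s : ℝ) ^ 4 - (s : ℝ) ^ 3 - 3 * (s : ℝ) ^ 2 + 3 * s - 1) / (s : ℝ) ^ 4 := by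
    have h1 : ((A * B * A) * (A * B * A)).trace = ∑ u ∈ far I x, ∑ v ∈ far I x,
        (Mf (far I x) (G I s x) s y u v : ℝ) ^ 2 / (s : ℝ) ^ 12 := by
      have h2 : ((A * B * A) * (A * B * A)).trace =
          ∑ u, ∑ v, ((A * B * A) u v) ^ 2 := by
        rw [Matrix.trace]
        refine Finset.sum_congr rfl fun u _ => ?_
        rw [Matrix.diag_apply, Matrix.mul_apply]
        refine Finset.sum_congr rfl fun v _ => ?_
        have h3 : (A * B * A) v u = (A * B * A) u v := by
          conv_lhs => rw [← hRT]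
          rfl
        rw [h3, sq]
      rw [h2, far, Finset.sum_filter]
      refine Finset.sum_congr rfl fun u _ => ?_
      by_cases hu : Far I x u
      · rw [if_pos hu, Finset.sum_filter]
        refine Finset.sum_congr rfl fun v _ => ?_
        rw [hR u v]
        by_cases hv : Far I x v
        · rw [if_pos ⟨hu, hv⟩, if_pos hv]
          have : (s : ℝ) ^ 12 = ((s : ℝ) ^ 6) ^ 2 := by ring
          rw [this, ← div_pow]
          rfl
        · rw [if_neg (fun h' => hv h'.2), if_neg hv]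
          norm_num
      · rw [if_neg hu]
        refine Finset.sum_eq_zero fun v _ => ?_
        rw [hR u v, if_neg (fun h' => hu h'.1)]
        norm_num
    rw [h1]
    have h2 : (∑ u ∈ far I x, ∑ v ∈ far I x, (Mf (far I x) (G I s x) s y u v : ℝ) ^ 2) =
        (s : ℝ) ^ 8 * ((s : ℝ) - 1) *
          ((s : ℝ) ^ 4 - (s : ℝ) ^ 3 - 3 * (s : ℝ) ^ 2 + 3 * s - 1) := by
      exact_mod_cast hT3
    simp only [← Finset.sum_div]
    rw [h2]
    field_simp
  -- the vector
  have hgg : (fun z => (G I s x y z : ℝ)) ⬝ᵥ (fun z => (G I s x y z : ℝ)) ≠ 0 := by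
    have h1 : (fun z => (G I s x y z : ℝ)) ⬝ᵥ (fun z => (G I s x y z : ℝ)) =
        (s : ℝ) ^ 3 * ((s : ℝ) - 1) := by
      have h2 := h.sum_G_mul_G hst hxy hxy
      rw [G_self hxy] at h2
      simp only [dotProduct]
      exact_mod_cast h2
    rw [h1]
    positivity
  have hRg : (A * B * A) *ᵥ (fun z => (G I s x y z : ℝ)) =
      (((s : ℝ) - 1) ^ 2 / (s : ℝ) ^ 2) • (fun z => (G I s x y z : ℝ)) := by
    funext u
    simp only [Matrix.mulVec, dotProduct, Pi.smul_apply, smul_eq_mul]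
    by_cases hu : Far I x u
    · have h1 : ∑ v, (A * B * A) u v * (G I s x y v : ℝ) =
          ∑ v ∈ far I x, (Mf (far I x) (G I s x) s y u v : ℝ) * (G I s x y v : ℝ) /
            (s : ℝ) ^ 6 := by
        rw [far, Finset.sum_filter]
        refine Finset.sum_congr rfl fun v _ => ?_
        rw [hR u v]
        by_cases hv : Far I x v
        · rw [if_pos ⟨hu, hv⟩, if_pos hv]
          rw [div_mul_eq_mul_div]
          rfl
        · rw [if_neg (fun h' => hv h'.2), if_neg hv, zero_mul]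
      rw [h1, ← Finset.sum_div]
      have h2 := hT2 u (mem_far.2 hu)
      have h3 : (∑ v ∈ far I x, (Mf (far I x) (G I s x) s y u v : ℝ) * (G I s x y v : ℝ)) =
          (s : ℝ) ^ 4 * ((s : ℝ) - 1) ^ 2 * (G I s x y u : ℝ) := by
        exact_mod_cast h2
      rw [h3]
      field_simp
    · have h1 : G I s x y u = 0 := G_zero hu
      rw [h1]
      simp only [Int.cast_zero, mul_zero]
      refine Finset.sum_eq_zero fun v _ => ?_
      rw [hR u v, if_neg (fun h' => hu h'.1), zero_mul]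
  obtain ⟨n, hn⟩ := int_trace A B (QM_symm x) (h.QM_idem hst hs1 x) (QM_symm y)
    (h.QM_idem hst hs1 y) (fun z => (G I s x y z : ℝ)) (((s : ℝ) - 1) ^ 2 / (s : ℝ) ^ 2) hgg
    (h.QM_mulVec hst hs1 hxy) hRg (by
      rw [htr1, htr2]
      field_simp
      ring)
  rw [htr1] at hn
  have hn2 : (s : ℝ) * n = (s : ℝ) ^ 2 - 3 * s + 2 := by
    field_simp at hn
    have hs2 : (s : ℝ) ^ 2 ≠ 0 := pow_ne_zero 2 hs0
    have : (s : ℝ) * ((s : ℝ) * n) = (s : ℝ) * ((s : ℝ) ^ 2 - 3 * s + 2) := by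
      nlinarith [hn]
    exact mul_left_cancel₀ hs0 this
  have hn3 : (s : ℤ) * n = (s : ℤ) ^ 2 - 3 * s + 2 := by exact_mod_cast hn2
  have hdvd : (s : ℤ) ∣ 2 := by
    refine ⟨(n : ℤ) - s + 3, ?_⟩
    linarith [hn3, show (s : ℤ) * ((n : ℤ) - s + 3) = (s : ℤ) * n - (s : ℤ) ^ 2 + 3 * s by ring]
  have hle := Int.le_of_dvd (by norm_num) hdvd
  omega

end Pool.CCff5b
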