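import Pool.Agent.W_ccff5b_h86.CountA

set_option autoImplicit false

namespace Pool.CCff5b

open Finset
open scoped Classical

variable {Pt Ln : Type} [Fintype Pt] [Fintype Ln] {I : Pt → Ln → Prop} {s t : ℕ}

theorem LineD_total (h : GQ I s t) {x y m p : Pt} {l : Ln} (hxy : Far I x y) (hx : ¬ I x l)
    (hy : ¬ I y l) (hm : I m l) (hp : I p l) (hxm : Adj I x m) (hyp : Adj I y p) (hmp : m ≠ p) :
    ∑ z ∈ pts I l, cn I x y z = t + 1 := by
  rw [← h.card_cns2 hxy]
  have hoff : ∀ w ∈ cns2 I x y, ¬ I w l := by
    intro w hw hwl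
    rw [mem_cns2] at hw
    have h1 : w = m := h.proj_unique hx hwl hm hw.1 hxm
    have h2 : w = p := h.proj_unique hy hwl hp hw.2 hyp
    exact hmp (h1.symm.trans h2)
  have h1 : ∀ z ∈ pts I l, cn I x y z = ∑ w ∈ cns2 I x y, if Adj I z w then 1 else 0 := by
    intro z _
    rw [← Finset.card_filter]
    unfold cn
    congr 1
    ext w
    simp only [mem_cns, mem_cns2, Finset.mem_filter]
    tauto
  rw [Finset.sum_congr rfl h1, Finset.sum_comm, Finset.card_eq_sum_ones]
  refine Finset.sum_congr rfl fun w hw => ?_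
  rw [← Finset.card_filter, Finset.card_eq_one]
  obtain ⟨q, hq1, hq2⟩ := h.exists_proj (hoff w hw)
  refine ⟨q, ?_⟩
  ext z
  simp only [Finset.mem_filter, mem_pts, Finset.mem_singleton]
  constructor
  · rintro ⟨hz1, hz2⟩
    exact h.proj_unique (hoff w hw) hz1 hq1 hz2.symm hq2
  · rintro rfl
    exact ⟨hq1, hq2.symm⟩

/-- **Task LineD.** `x, y` far, both off the line `l`, with different projections `m`, `p` on `l`.
Then the numbers of common neighbours of `x, y, z`, `z ∈ l`, `z ≠ m, p`, add up to `t - 1`.
Proof. Double counting of the pairs `(z, w)`, `w ∈ cns2 I x y` (`t+1` elements),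
`z ∈ l`, `z ≠ m, p`, `z ∼ w`. No `w` is on `l` (a common neighbour on `l` would be both `m` and `p` by
`GQ.proj_unique`), so each `w` is collinear with exactly one point of `l`.
Exactly one `w` is collinear with `p`: the unique point `w0` of the line `yp` collinear with `x` (`x` is
not on this line as `x` is far from `y`; if `w ∼ p`, `w ∼ y` then `w` is on the line `yp` by `GQ.tri`;
`p ≁ x` since `m ≠ p` is the projection of `x`; `w0 ≠ y` since `x` far from `y`; `w0 ≠ p`).
Exactly one `w` is collinear with `m` (the same with `x` and `y` exchanged). These two are different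
(a point off `l` is collinear with only one point of `l`). The other `t - 1` points `w` give exactly
one pair each. -/
theorem GQ.sum_cn_diff (h : GQ I s t) {x y m p : Pt} {l : Ln} (hxy : Far I x y) (hx : ¬ I x l)
    (hy : ¬ I y l) (hm : I m l) (hp : I p l) (hxm : Adj I x m) (hyp : Adj I y p) (hmp : m ≠ p) :
    ∑ z ∈ ((pts I l).erase m).erase p, cn I x y z + 1 = t := by
  have htot := LineD_total h hxy hx hy hm hp hxm hyp hmp
  have hxp : Far I x p := by
    refine far_of_ne (fun hh => hx (by rw [hh]; exact hp)) fun hh => ?_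
    exact hmp (h.proj_unique hx hm hp hxm hh)
  have hym : Far I y m := by
    refine far_of_ne (fun hh => hy (by rw [hh]; exact hm)) fun hh => ?_
    exact hmp (h.proj_unique hy hm hp hh hyp)
  have h1 : cn I x y p = 1 := h.cn_of_adj hxy hxp hyp
  have h2 : cn I x y m = 1 := by
    rw [cn_swap12]
    exact h.cn_of_adj hxy.symm hym hxm
  have h3 : m ∈ pts I l := mem_pts.2 hm
  have h4 : p ∈ (pts I l).erase m := Finset.mem_erase.2 ⟨Ne.symm hmp, mem_pts.2 hp⟩
  have h5 := Finset.add_sum_erase (pts I l) (fun z => cn I x y z) h3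
  have h6 := Finset.add_sum_erase ((pts I l).erase m) (fun z => cn I x y z) h4

  omega

end Pool.CCff5b
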