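import Pool.Agent.W_ccff5b_h86.LineC
import Pool.Agent.W_ccff5b_h86.LineD

set_option autoImplicit false

namespace Pool.CCff5b

open Finset
open scoped Classical

variable {Pt Ln : Type} [Fintype Pt] [Fintype Ln] {I : Pt → Ln → Prop} {s t : ℕ}

/-- **Task LineG.** `G^x_y` has zero line sums.
Proof. Let `l` be a line. If `x ∈ l`, all points of `l` are not far from `x`, all values are `0`.
Otherwise let `m ∈ l` be the point collinear with `x` (`exists_proj`), `G m = 0`, the `s` other points
of `l` are far from `x` (`proj_unique`, `far_of_ne`).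
* `y ∈ l`: `y ≠ m`; value `s - 1` at `y` (`G_self`), `-1` at the `s - 1` other points (`G_adj`).
* `y ∉ l`, `y ∼ m`: the other points `z` are far from `y`, `G_triad`, `GQ.sum_cn_same`:
  `s * s - (s + t) = 0`.
* `y ∉ l`, `y ∼ p`, `p ∈ l`, `p ≠ m`: `-1` at `p`, `G_triad` at the `s - 1` others, `GQ.sum_cn_diff`:
  `-1 + (s-1) * s - (t-1) = 0`. -/
theorem GQ.LS_G (h : GQ I s t) (hst : s + t = s * s) {x y : Pt} (hxy : Far I x y) :
    LS I (G I s x y) := by
  intro l
  by_cases hx : I x l
  · refine Finset.sum_eq_zero fun z hz => G_zero ?_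
    intro hf
    exact hf l hx (mem_pts.1 hz)
  obtain ⟨m, hm, hxm⟩ := h.exists_proj hx
  have hfar : ∀ z, I z l → z ≠ m → Far I x z := by
    intro z hz hzm
    refine far_of_ne ?_ ?_
    · rintro rfl
      exact hx hz
    · intro hxz
      exact hzm (h.proj_unique hx hz hm hxz hxm)
  rw [← Finset.add_sum_erase _ _ (mem_pts.2 hm), G_zero hxm.not_far, zero_add]
  have hc1 : ((pts I l).erase m).card = s := by
    rw [Finset.card_erase_of_mem (mem_pts.2 hm), h.pts_card l]
    simp
  have hst' : (s : ℤ) + t = s * s := by exact_mod_cast hst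
  by_cases hy : I y l
  · have hym : y ≠ m := by
      rintro rfl
      exact hxm.not_far hxy
    have hyB : y ∈ (pts I l).erase m := by
      rw [Finset.mem_erase, mem_pts]
      exact ⟨hym, hy⟩
    rw [← Finset.add_sum_erase _ _ hyB, G_self hxy]
    have hc2 : (((pts I l).erase m).erase y).card + 1 = s := by
      rw [← hc1]
      exact Finset.card_erase_add_one hyB
    have e1 : ∀ z ∈ ((pts I l).erase m).erase y, G I s x y z = -1 := by
      intro z hz
      rw [Finset.mem_erase, Finset.mem_erase, mem_pts] at hz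
      exact G_adj (hfar z hz.2.2 hz.2.1) ⟨Ne.symm hz.1, l, hy, hz.2.2⟩
    rw [Finset.sum_congr rfl e1, Finset.sum_const]
    have hc3 : ((((pts I l).erase m).erase y).card : ℤ) + 1 = s := by exact_mod_cast hc2
    rw [nsmul_eq_mul]
    linarith
  · obtain ⟨p, hp, hyp⟩ := h.exists_proj hy
    have hfary : ∀ z, I z l → z ≠ p → Far I y z := by
      intro z hz hzp
      refine far_of_ne ?_ ?_
      · rintro rfl
        exact hy hz
      · intro hyz
        exact hzp (h.proj_unique hy hz hp hyz hyp)
    by_cases hpm : p = m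
    · subst hpm
      have e1 : ∀ z ∈ (pts I l).erase p, G I s x y z = (s : ℤ) - cn I x y z := by
        intro z hz
        rw [Finset.mem_erase, mem_pts] at hz
        exact h.G_triad (hfar z hz.2 hz.1) (hfary z hz.2 hz.1)
      have e2 : ((∑ z ∈ (pts I l).erase p, cn I x y z : ℕ) : ℤ) = s + t := by
        rw [h.sum_cn_same hxy hx hy hm hxm hyp]
        push_cast
        ring
      rw [Finset.sum_congr rfl e1, Finset.sum_sub_distrib, Finset.sum_const, hc1, nsmul_eq_mul]
      push_cast at e2
      rw [e2, hst']
      ring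
    · have hpB : p ∈ (pts I l).erase m := by
        rw [Finset.mem_erase, mem_pts]
        exact ⟨hpm, hp⟩
      rw [← Finset.add_sum_erase _ _ hpB, G_adj (hfar p hp hpm) hyp]
      have hc2 : (((pts I l).erase m).erase p).card + 1 = s := by
        rw [← hc1]
        exact Finset.card_erase_add_one hpB
      have hc3 : ((((pts I l).erase m).erase p).card : ℤ) + 1 = s := by exact_mod_cast hc2
      have e1 : ∀ z ∈ ((pts I l).erase m).erase p, G I s x y z = (s : ℤ) - cn I x y z := by
        intro z hz
        rw [Finset.mem_erase, Finset.mem_erase, mem_pts] at hz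
        exact h.G_triad (hfar z hz.2.2 hz.2.1) (hfary z hz.2.2 hz.1)
      have e2 : ((∑ z ∈ ((pts I l).erase m).erase p, cn I x y z : ℕ) : ℤ) + 1 = t := by
        exact_mod_cast h.sum_cn_diff hxy hx hy hm hp hxm hyp (Ne.symm hpm)
      rw [Finset.sum_congr rfl e1, Finset.sum_sub_distrib, Finset.sum_const, nsmul_eq_mul]
      push_cast at e2
      have e3 : ((((pts I l).erase m).erase p).card : ℤ) = s - 1 := by linarith
      rw [e3]
      have e4 : (∑ z ∈ ((pts I l).erase m).erase p, (cn I x y z : ℤ)) = t - 1 := by linarith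
      rw [e4]
      linarith

end Pool.CCff5b
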