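import Pool.Agent.W_ccff5b_h86.Repro

set_option autoImplicit false

namespace Pool.CCff5b

open Finset
open scoped Classical

variable {Pt Ln : Type} [Fintype Pt] [Fintype Ln] {I : Pt → Ln → Prop}

/-- **Task Parity.** Parity. `x` far from `y`, `w ∼ x`, `val := G^x_y` takes only the values
`-1, 0, 1, 3` on `far x`, and all its zeros in `far x` are collinear with `w`; `u ∈ far x` with
`val u = 0`. Contradiction.
Proof. `u ∼ w`. There are `13` lines through `u`, so there is a line `l ∋ u` not through `w` (at most one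
line contains `u` and `w`, `h.two`). `x ∉ l` (`x` far from `u`). `l` has `5` points: `u`, the projection
`m` of `x` (`val m = 0`; `m ≠ u`), and three others `z`, far from `x`, and not collinear with `w` (`u` is the
only point of `l` collinear with `w`, `GQ.proj_unique`), so `val z ≠ 0`, `val z ∈ {-1, 1, 3}` is odd. But
`∑_{z ∈ l} val z = 0` (`GQ.LS_G`) and the sum of three odd numbers is odd. -/
theorem GQ.parity (h : GQ I 4 12) {x y w u : Pt} (hxy : Far I x y)
    (hval : ∀ z, Far I x z → G I 4 x y z = -1 ∨ G I 4 x y z = 0 ∨ G I 4 x y z = 1 ∨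
      G I 4 x y z = 3)
    (hzero : ∀ z, Far I x z → G I 4 x y z = 0 → Adj I w z) (hu : Far I x u)
    (hu0 : G I 4 x y u = 0) : False := by
  have hwu := hzero u hu hu0
  obtain ⟨l, hul, hwl⟩ : ∃ l, I u l ∧ ¬ I w l := by
    by_contra hcon
    push Not at hcon
    have h1 : (lns I u).card ≤ 1 := by
      rw [Finset.card_le_one]
      intro a ha b hb
      rw [mem_lns] at ha hb
      exact h.two u w a b ha (hcon a ha) hb (hcon b hb) hwu.ne.symm
    rw [h.lns_card u] at h1
    omega
  have hxl : ¬ I x l := fun hx => hu l hx hul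
  obtain ⟨m, hm, hxm⟩ := h.exists_proj hxl
  have hmu : m ≠ u := by
    rintro rfl
    exact hxm.not_far hu
  have hfar : ∀ z, I z l → z ≠ m → Far I x z := by
    intro z hz hzm
    refine far_of_ne ?_ ?_
    · rintro rfl
      exact hxl hz
    · intro hxz
      exact hzm (h.proj_unique hxl hz hm hxz hxm)
  have hsum := h.LS_G (by norm_num) hxy l
  rw [← Finset.add_sum_erase _ _ (mem_pts.2 hm), G_zero hxm.not_far, zero_add] at hsum
  have huE : u ∈ (pts I l).erase m := by
    rw [Finset.mem_erase, mem_pts]
    exact ⟨hmu.symm, hul⟩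
  rw [← Finset.add_sum_erase _ _ huE] at hsum
  have hu0' : G I ((4 : ℕ)) x y u = 0 := hu0
  rw [hu0', zero_add] at hsum
  have hodd : ∀ z ∈ ((pts I l).erase m).erase u, ∃ k : ℤ, G I 4 x y z = 2 * k + 1 := by
    intro z hz
    rw [Finset.mem_erase, Finset.mem_erase, mem_pts] at hz
    have hf := hfar z hz.2.2 hz.2.1
    rcases hval z hf with h1 | h1 | h1 | h1
    · exact ⟨-1, by rw [h1]; norm_num⟩
    · exfalso
      exact hz.1 (h.proj_unique hwl hz.2.2 hul (hzero z hf h1) hwu)
    · exact ⟨0, by rw [h1]; norm_num⟩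
    · exact ⟨1, by rw [h1]; norm_num⟩
  choose! k hk using hodd
  rw [Finset.sum_congr rfl hk, Finset.sum_add_distrib, ← Finset.mul_sum, Finset.sum_const] at hsum
  have hc : (((pts I l).erase m).erase u).card = 3 := by
    rw [Finset.card_erase_of_mem huE, Finset.card_erase_of_mem (mem_pts.2 hm), h.pts_card l]
  rw [hc] at hsum
  simp only [nsmul_eq_mul] at hsum
  push_cast at hsum
  omega

end Pool.CCff5b
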