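import Pool.Agent.W_ccff5b_h86.Four

set_option autoImplicit false

namespace Pool.CCff5b

open Finset
open scoped Classical

variable {Pt Ln : Type} [Fintype Pt] [Fintype Ln] {I : Pt → Ln → Prop}

/-- **Task Zeros.** `y_0, ..., y_3` distinct, far from `x`, `val := G^x_{y_0}` is `3` at all `y_i`,
`w ∼ x` is collinear with all `y_i`, exactly 32 points of `far x` have `val = 0`. Then all these
points are collinear with `w`.
Proof. `W = {z ∼ w, z far from x}` has `48` elements (`GQ.offs_eq`, `GQ.card_offs`), and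
`∑_{z ∈ W} val^2 = 48` (`GQ.sum_sq_at` for `x, y_0, w`). The four points `y_i ∈ W` contribute
`4 * 9 = 36`; every other `z ∈ W` with `val z ≠ 0` contributes `≥ 1`; so at most `12` of them, at most
`16` elements of `W` have `val ≠ 0`, at least `32` have `val = 0`. As `far x` has only 32 points with
`val = 0`, all of them are in `W` (`Finset.eq_of_subset_of_card_le`). -/
theorem GQ.zeros_adj (h : GQ I 4 12) {x w : Pt} {y : Fin 4 → Pt} (hinj : Function.Injective y)
    (hfar : ∀ i, Far I x (y i)) (htop : ∀ j, G I 4 x (y 0) (y j) = 3)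
    (hxw : Adj I x w) (hyw : ∀ i, Adj I (y i) w)
    (h32 : ((far I x).filter (fun z => G I 4 x (y 0) z = 0)).card = 32) {z : Pt}
    (hz : Far I x z) (hz0 : G I 4 x (y 0) z = 0) : Adj I w z := by
  set v : Pt → ℤ := fun z => G I 4 x (y 0) z with hv
  set W : Finset Pt := univ.filter (fun z => Adj I w z ∧ Far I x z) with hW
  have hWcard : W.card = 48 := by
    obtain ⟨hne, l, hx, hw⟩ := hxw
    rw [hW, ← h.offs_eq hx hw hne, h.card_offs hw]
  have hsum : ∑ z ∈ W, (v z) ^ 2 = 48 := by
    have h1 := h.sum_sq_at (by norm_num) (by norm_num) (hfar 0) hxw (hyw 0)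
    simp only [hv, hW]
    rw [h1]
    norm_num
  set Y : Finset Pt := univ.image y with hY
  have hYcard : Y.card = 4 := by
    rw [hY, Finset.card_image_of_injective _ hinj]
    simp
  have hYW : Y ⊆ W := by
    intro u hu
    rw [hY, Finset.mem_image] at hu
    obtain ⟨i, _, rfl⟩ := hu
    rw [hW, Finset.mem_filter]
    exact ⟨Finset.mem_univ _, (hyw i).symm, hfar i⟩
  have hYsum : ∑ z ∈ Y, (v z) ^ 2 = 36 := by
    have h1 : ∀ z ∈ Y, (v z) ^ 2 = 9 := by
      intro u hu
      rw [hY, Finset.mem_image] at hu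
      obtain ⟨i, _, rfl⟩ := hu
      have := htop i
      simp only [hv]
      rw [this]
      norm_num
    rw [Finset.sum_congr rfl h1, Finset.sum_const, hYcard]
    norm_num
  have hrest : ∑ z ∈ W \ Y, (v z) ^ 2 = 12 := by
    have h1 := Finset.sum_sdiff (f := fun z => (v z) ^ 2) hYW
    linarith
  have hcardrest : (W \ Y).card = 44 := by
    rw [Finset.card_sdiff_of_subset hYW, hWcard, hYcard]
  have hnz : (((W \ Y).filter (fun z => ¬ v z = 0)).card : ℤ) ≤ 12 := by
    rw [← hrest, Finset.card_filter, Nat.cast_sum]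
    apply Finset.sum_le_sum
    intro u _
    by_cases hu : v u = 0
    · simp [hu]
    · simp only [hu, not_false_eq_true, if_true, Nat.cast_one]
      have : 0 < (v u) ^ 2 := by positivity
      omega
  have hzc := Finset.card_filter_add_card_filter_not (s := W \ Y) (fun z => v z = 0)
  have hsub : (W \ Y).filter (fun z => v z = 0) ⊆ (far I x).filter (fun z => v z = 0) := by
    intro u hu
    rw [Finset.mem_filter, Finset.mem_sdiff, hW, Finset.mem_filter] at hu
    rw [Finset.mem_filter, mem_far]
    exact ⟨hu.1.1.2.2, hu.2⟩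
  have heq := Finset.eq_of_subset_of_card_le hsub (by
    rw [h32]
    omega)
  have hmem : z ∈ (W \ Y).filter (fun z => v z = 0) := by
    rw [heq, Finset.mem_filter, mem_far]
    exact ⟨hz, hz0⟩
  rw [Finset.mem_filter, Finset.mem_sdiff, hW, Finset.mem_filter] at hmem
  exact hmem.1.1.2.1

end Pool.CCff5b
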