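import Pool.Agent.W_ccff5b_h86.ExW
import Pool.Agent.W_ccff5b_h86.Parity
import Pool.Agent.W_ccff5b_h86.Zeros

set_option autoImplicit false

namespace Pool.CCff5b

open Finset
open scoped Classical

variable {Pt Ln : Type} [Fintype Pt] [Fintype Ln] {I : Pt → Ln → Prop}

/-- number of points of `far x` with a given value of `G^x_y` -/
theorem GQ.card_val (h : GQ I 4 12) {x y : Pt} (hxy : Far I x y) (i : ℤ) :
    (((far I x).filter (fun z => G I 4 x y z = i)).card : ℤ) =
      (if (3 : ℤ) = i then 1 else 0) + 39 * (if (-1 : ℤ) = i then 1 else 0) + nn I x y i := by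
  have h1 : (((far I x).filter (fun z => G I 4 x y z = i)).card : ℤ) =
      ∑ z ∈ far I x, if G I 4 x y z = i then (1 : ℤ) else 0 := by
    rw [Finset.card_filter]
    push_cast
    rfl
  rw [h1, h.sum_far_split hxy]
  have h2 : G I 4 x y y = 3 := by rw [G_self hxy]; norm_num
  have h3 : ∑ z ∈ univ.filter (fun z => Adj I y z ∧ Far I x z),
      (if G I 4 x y z = i then (1 : ℤ) else 0) = 39 * (if (-1 : ℤ) = i then 1 else 0) := by
    have h4 : ∀ z ∈ univ.filter (fun z => Adj I y z ∧ Far I x z),
        (if G I 4 x y z = i then (1 : ℤ) else 0) = (if (-1 : ℤ) = i then 1 else 0) := by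
      intro z hz
      rw [Finset.mem_filter] at hz
      rw [G_adj hz.2.2 hz.2.1]
    rw [Finset.sum_congr rfl h4, Finset.sum_const]
    have h5 := h.card_nb_far hxy
    have h6 : (univ.filter (fun z => Adj I y z ∧ Far I x z)).card = 39 := by omega
    rw [h6]
    simp
  have h4 : ∑ z ∈ tr I x y, (if G I 4 x y z = i then (1 : ℤ) else 0) = nn I x y i := by
    unfold nn
    rw [Finset.card_filter]
    push_cast
    rfl
  rw [h2, h3, h4]

/-- At most two points `z` far from `x, y` have `G^x_y(z) = 3`. -/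
theorem GQ.nn_three_le (h : GQ I 4 12) {x y : Pt} (hxy : Far I x y) : nn I x y 3 ≤ 2 := by
  obtain ⟨e2, e1, em, e0⟩ := h.nn_eqs hxy
  by_contra hcon
  have h3 : nn I x y 3 = 3 := by omega
  have h2 : nn I x y 2 = 0 := by omega
  have hm : nn I x y (-1) = 45 := by omega
  have h0 : nn I x y 0 = 32 := by omega
  have hst : 4 + 12 = 4 * 4 := by norm_num
  obtain ⟨a, b, c, hab, hac, hbc, hset⟩ := Finset.card_eq_three.1 h3
  have key : ∀ z ∈ ({a, b, c} : Finset Pt), Far I x z ∧ Far I y z ∧ G I 4 x y z = 3 := by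
    intro z hz
    rw [← hset, Finset.mem_filter, mem_tr] at hz
    exact ⟨hz.1.1, hz.1.2, hz.2⟩
  have ha := key a (by simp)
  have hb := key b (by simp)
  have hc := key c (by simp)
  have hya := h.far_ne ha.2.1
  have hyb := h.far_ne hb.2.1
  have hyc := h.far_ne hc.2.1
  have hyy : G I 4 x y y = 3 := by rw [G_self hxy]; norm_num
  have hfar : ∀ i, Far I x ((![y, a, b, c] : Fin 4 → Pt) i) := by
    intro i
    fin_cases i
    · exact hxy
    · exact ha.1
    · exact hb.1
    · exact hc.1
  have hval : ∀ i, G I 4 x y ((![y, a, b, c] : Fin 4 → Pt) i) = 3 := by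
    intro i
    fin_cases i
    · exact hyy
    · exact ha.2.2
    · exact hb.2.2
    · exact hc.2.2
  have htop : ∀ i j, G I 4 x ((![y, a, b, c] : Fin 4 → Pt) i) ((![y, a, b, c] : Fin 4 → Pt) j)
      = 3 := by
    intro i j
    rw [← h.G_eq_of_top hst hxy (hfar i) (by rw [hval i]; norm_num)]
    exact hval j
  have hinj : Function.Injective (![y, a, b, c] : Fin 4 → Pt) := by
    intro i j hij
    fin_cases i <;> fin_cases j <;> simp_all
  have hrange : ∀ z, Far I x z → G I 4 x y z = -1 ∨ G I 4 x y z = 0 ∨ G I 4 x y z = 1 ∨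
      G I 4 x y z = 3 := by
    intro z hz
    rcases eq_or_adj_or_far I y z with rfl | h1 | h1
    · exact Or.inr (Or.inr (Or.inr hyy))
    · exact Or.inl (G_adj hz h1)
    · have hmem : z ∈ tr I x y := mem_tr.2 ⟨hz, h1⟩
      rcases h.val_range hxy hmem with h5 | h5 | h5 | h5 | h5
      · exact Or.inl h5
      · exact Or.inr (Or.inl h5)
      · exact Or.inr (Or.inr (Or.inl h5))
      · exfalso
        have h6 : z ∈ (tr I x y).filter (fun z => G I 4 x y z = 2) :=
          Finset.mem_filter.2 ⟨hmem, h5⟩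
        have h7 : (tr I x y).filter (fun z => G I 4 x y z = 2) = ∅ := Finset.card_eq_zero.1 h2
        rw [h7] at h6
        simp at h6
      · exact Or.inr (Or.inr (Or.inr h5))
  have h84 : ((far I x).filter (fun z => G I 4 x y z = -1)).card = 84 := by
    have := h.card_val hxy (-1)
    rw [hm] at this
    norm_num at this
    exact_mod_cast this
  have h32 : ((far I x).filter (fun z => G I 4 x y z = 0)).card = 32 := by
    have := h.card_val hxy 0
    rw [h0] at this
    norm_num at this
    exact_mod_cast this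
  obtain ⟨w, hxw, hyw⟩ := h.exists_w hinj hfar htop h84
  have hzero : ∀ z, Far I x z → G I 4 x y z = 0 → Adj I w z := by
    intro z hz hz0
    exact h.zeros_adj hinj hfar hval hxw hyw h32 hz hz0
  have hne : ((far I x).filter (fun z => G I 4 x y z = 0)).Nonempty := by
    rw [← Finset.card_pos]; omega
  obtain ⟨u, hu⟩ := hne
  rw [Finset.mem_filter, mem_far] at hu
  exact h.parity hxy hrange hzero hu.1 hu.2

end Pool.CCff5b
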