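import Mathlib

set_option autoImplicit false

namespace Pool.CCff5b

open Finset

theorem QuA_m3 {P : Type} (D : Finset P) (H : P → P → P → ℤ) :
    ∑ c ∈ D, ∑ d ∈ D, ∑ y ∈ D, H c d y = ∑ y ∈ D, ∑ c ∈ D, ∑ d ∈ D, H c d y :=
  (Finset.sum_congr rfl fun _ _ => Finset.sum_comm).trans Finset.sum_comm

theorem QuA_m4 {P : Type} (D : Finset P) (H : P → P → P → P → ℤ) :
    ∑ b ∈ D, ∑ c ∈ D, ∑ d ∈ D, ∑ y ∈ D, H b c d y =
      ∑ y ∈ D, ∑ b ∈ D, ∑ c ∈ D, ∑ d ∈ D, H b c d y :=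
  (Finset.sum_congr rfl fun b _ => QuA_m3 D (H b)).trans Finset.sum_comm

theorem QuA_m5 {P : Type} (D : Finset P) (H : P → P → P → P → P → ℤ) :
    ∑ a ∈ D, ∑ b ∈ D, ∑ c ∈ D, ∑ d ∈ D, ∑ y ∈ D, H a b c d y =
      ∑ y ∈ D, ∑ a ∈ D, ∑ b ∈ D, ∑ c ∈ D, ∑ d ∈ D, H a b c d y :=
  (Finset.sum_congr rfl fun a _ => QuA_m4 D (H a)).trans Finset.sum_comm

theorem QuA_pow {P : Type} (D : Finset P) (h : P → ℤ) :
    ∑ a ∈ D, ∑ b ∈ D, ∑ c ∈ D, ∑ d ∈ D, h a * h b * h c * h d = (∑ a ∈ D, h a) ^ 4 := by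
  simp only [← Finset.mul_sum, ← Finset.sum_mul]
  ring

/-- **Task QuA.** `∑_{a,b,c,d ∈ D} S^2 = κ^4 ∑_{y,z} (g y z)^4` for
`S a b c d = ∑_y g y a * g y b * g y c * g y d`: exchange the sums,
`∑_{y,z} (∑_a g y a g z a)^4`. -/
theorem quartic_SS {P : Type} (D : Finset P) (g : P → P → ℤ) (κ : ℤ)
    (hg : ∀ y ∈ D, ∀ z ∈ D, ∑ u ∈ D, g y u * g z u = κ * g y z) :
    ∑ a ∈ D, ∑ b ∈ D, ∑ c ∈ D, ∑ d ∈ D, (∑ y ∈ D, g y a * g y b * g y c * g y d) ^ 2 =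
      κ ^ 4 * ∑ y ∈ D, ∑ z ∈ D, (g y z) ^ 4 := by
  have h1 : ∀ a b c d : P, (∑ y ∈ D, g y a * g y b * g y c * g y d) ^ 2 =
      ∑ y ∈ D, ∑ z ∈ D, (g y a * g z a) * (g y b * g z b) * (g y c * g z c) *
        (g y d * g z d) := by
    intro a b c d
    rw [sq, Finset.sum_mul_sum]
    refine Finset.sum_congr rfl fun y _ => Finset.sum_congr rfl fun z _ => ?_
    ring
  simp only [h1]
  rw [QuA_m5 D (fun a b c d y => ∑ z ∈ D, (g y a * g z a) * (g y b * g z b) *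
    (g y c * g z c) * (g y d * g z d)), Finset.mul_sum]
  refine Finset.sum_congr rfl fun y hy => ?_
  rw [QuA_m5 D (fun a b c d z => (g y a * g z a) * (g y b * g z b) *
    (g y c * g z c) * (g y d * g z d)), Finset.mul_sum]
  refine Finset.sum_congr rfl fun z hz => ?_
  rw [QuA_pow D (fun a => g y a * g z a), hg y hy z hz]
  ring

end Pool.CCff5b
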