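import Pool.Agent.W_ccff5b_h86.RankA
import Pool.Agent.W_ccff5b_h86.LineG

set_option autoImplicit false

namespace Pool.CCff5b

open Finset
open scoped Classical

variable {Pt Ln : Type} [Fintype Pt] [Fintype Ln] {I : Pt → Ln → Prop} {s t : ℕ}

/-- **Task RankB.** `G^x K = s^2 G^x` on `offs I l w`, for `x, w ∈ l`, `x ≠ w`.
Proof. `∑_z G x y z * K z u = s(s-1) G x y u - s ∑_{z ∈ offs, z ∼ u} G x y z`. The points `z ∈ offs I l w`
with `z ∼ u` are the points `≠ w, u` of the line `m` through `w` and `u` (`GQ.tri` with `w ∼ z`, `u ∼ z`;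
`m ≠ l` because `u ∉ l`; a point `≠ w` of `m` is not on `l`, by `h.two`). By `GQ.LS_G`
`0 = ∑_{z ∈ m} G x y z = G x y w + G x y u + ∑_{z}`, and `G x y w = 0` (`w` is not far from `x`: they are
both on `l`). So the sum over `z` is `- G x y u`. -/
theorem GQ.sum_G_K (h : GQ I s t) (hst : s + t = s * s) {l : Ln} {w x y u : Pt} (hw : I w l)
    (hx : I x l) (hxw : x ≠ w) (hy : y ∈ offs I l w) (hu : u ∈ offs I l w) :
    ∑ z ∈ offs I l w, G I s x y z * K I s z u = (s : ℤ) ^ 2 * G I s x y u := by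
  have hxy : Far I x y := by
    rw [h.offs_eq hx hw hxw, Finset.mem_filter] at hy
    exact hy.2.2
  obtain ⟨⟨hwu, m, hwm, hum⟩, hul⟩ := mem_offs.1 hu
  have hml : m ≠ l := by
    rintro rfl
    exact hul hum
  have hset : (offs I l w).filter (fun z => Adj I z u) = ((pts I m).erase w).erase u := by
    ext z
    rw [Finset.mem_filter, mem_offs, Finset.mem_erase, Finset.mem_erase, mem_pts]
    constructor
    · rintro ⟨⟨hwz, _⟩, hzu⟩
      exact ⟨hzu.ne, hwz.ne.symm, h.tri hwu hwm hum hwz hzu.symm⟩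
    · rintro ⟨hzu, hzw, hzm⟩
      exact ⟨⟨⟨hzw.symm, m, hwm, hzm⟩, fun hzl => hml (h.two z w m l hzm hwm hzl hw hzw)⟩,
        ⟨hzu, m, hzm, hum⟩⟩
  have hsum : ∑ z ∈ (offs I l w).filter (fun z => Adj I z u), G I s x y z = - G I s x y u := by
    rw [hset]
    have hLS : ∑ z ∈ pts I m, G I s x y z = 0 := h.LS_G hst hxy m
    have h1 : w ∈ pts I m := mem_pts.2 hwm
    have h2 : u ∈ (pts I m).erase w := Finset.mem_erase.2 ⟨hwu.symm, mem_pts.2 hum⟩
    rw [← Finset.add_sum_erase _ _ h1, ← Finset.add_sum_erase _ _ h2] at hLS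
    have h3 : G I s x y w = 0 := G_zero (fun hf => hf l hx hw)
    linarith
  have hK : ∀ z ∈ offs I l w, G I s x y z * K I s z u =
      (if z = u then G I s x y z * ((s : ℤ) * ((s : ℤ) - 1)) else 0) +
        (if Adj I z u then G I s x y z * (-(s : ℤ)) else 0) := by
    intro z _
    unfold K
    by_cases h1 : z = u
    · have h2 : ¬ Adj I z u := by
        rw [h1]
        exact not_adj_self
      rw [if_pos h1, if_pos h1, if_neg h2, add_zero]
    · rw [if_neg h1, if_neg h1]
      split_ifs <;> ring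
  rw [Finset.sum_congr rfl hK, Finset.sum_add_distrib, ← Finset.sum_filter, ← Finset.sum_filter,
    ← Finset.sum_mul, ← Finset.sum_mul, hsum]
  have hfil : (offs I l w).filter (fun z => z = u) = {u} := by
    ext z
    rw [Finset.mem_filter, Finset.mem_singleton]
    constructor
    · exact fun hz => hz.2
    · intro hz
      exact ⟨by rw [hz]; exact hu, hz⟩
  rw [hfil, Finset.sum_singleton]
  ring

end Pool.CCff5b
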