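import Mathlib

set_option autoImplicit false

namespace Pool.CCff5b

open Finset

theorem RankC_aux {P : Type} (D Y : Finset P) (g g' : P → P → ℤ) :
    ∑ u ∈ D, ∑ v ∈ D, (∑ y ∈ Y, g y u * g' y v) ^ 2 =
      ∑ y ∈ Y, ∑ z ∈ Y, (∑ u ∈ D, g y u * g z u) * (∑ v ∈ D, g' y v * g' z v) := by
  have e1 : ∀ u v, (∑ y ∈ Y, g y u * g' y v) ^ 2 =
      ∑ y ∈ Y, ∑ z ∈ Y, (g y u * g z u) * (g' y v * g' z v) := by
    intro u v
    rw [sq, Finset.sum_mul_sum]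
    refine Finset.sum_congr rfl fun i _ => Finset.sum_congr rfl fun j _ => ?_
    ring
  have e2 : ∀ y z, (∑ u ∈ D, g y u * g z u) * (∑ v ∈ D, g' y v * g' z v) =
      ∑ u ∈ D, ∑ v ∈ D, (g y u * g z u) * (g' y v * g' z v) := by
    intro y z
    rw [Finset.sum_mul_sum]
  simp only [e1, e2]
  calc ∑ u ∈ D, ∑ v ∈ D, ∑ y ∈ Y, ∑ z ∈ Y, (g y u * g z u) * (g' y v * g' z v)
      = ∑ u ∈ D, ∑ y ∈ Y, ∑ v ∈ D, ∑ z ∈ Y, (g y u * g z u) * (g' y v * g' z v) :=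
        Finset.sum_congr rfl fun k _ => Finset.sum_comm
    _ = ∑ y ∈ Y, ∑ u ∈ D, ∑ v ∈ D, ∑ z ∈ Y, (g y u * g z u) * (g' y v * g' z v) :=
        Finset.sum_comm
    _ = ∑ y ∈ Y, ∑ u ∈ D, ∑ z ∈ Y, ∑ v ∈ D, (g y u * g z u) * (g' y v * g' z v) :=
        Finset.sum_congr rfl fun i _ => Finset.sum_congr rfl fun k _ => Finset.sum_comm
    _ = ∑ y ∈ Y, ∑ z ∈ Y, ∑ u ∈ D, ∑ v ∈ D, (g y u * g z u) * (g' y v * g' z v) :=
        Finset.sum_congr rfl fun i _ => Finset.sum_comm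

/-- **Task RankC (1).** Expand the squares and exchange the sums:
`∑_{u,v} (∑_y g y u g' y v)^2 = ∑_{y,z ∈ Y} (∑_u g y u g z u) (∑_v g' y v g' z v)`. -/
theorem sum_prod_eq {P : Type} [Fintype P] (Y : Finset P) (g g' : P → P → ℤ) (κ : ℤ)
    (hg : ∀ y ∈ Y, ∀ z ∈ Y, ∑ u, g y u * g z u = κ * g y z)
    (hg' : ∀ y ∈ Y, ∀ z ∈ Y, ∑ u, g' y u * g' z u = κ * g' y z) :
    κ ^ 2 * ∑ y ∈ Y, ∑ z ∈ Y, g y z * g' y z = ∑ u, ∑ v, (∑ y ∈ Y, g y u * g' y v) ^ 2 := by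
  rw [RankC_aux, Finset.mul_sum]
  refine Finset.sum_congr rfl fun y hy => ?_
  rw [Finset.mul_sum]
  refine Finset.sum_congr rfl fun z hz => ?_
  rw [hg y hy z hz, hg' y hy z hz]
  ring

/-- **Task RankC (2).** `0 ≤ ∑_{u,v ∈ D} (∑_{y ∈ Y} g y u g y v - a g u v)^2`, expanded:
first term `κ^2 ∑_{y,z ∈ Y} g y z^2`; middle: `∑_y ∑_u g y u (∑_v g y v g u v) = ∑_y ∑_u κ (g y u)^2 =
∑_y κ^2 g y y`; last `∑_{u,v} (g u v)^2 = ∑_u κ g u u`. -/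
theorem trace_ineq {P : Type} (D Y : Finset P) (hYD : Y ⊆ D) (g : P → P → ℤ) (κ δ a : ℤ)
    (hsymm : ∀ y ∈ D, ∀ z ∈ D, g y z = g z y)
    (hg : ∀ y ∈ D, ∀ z ∈ D, ∑ u ∈ D, g y u * g z u = κ * g y z) (hd : ∀ y ∈ D, g y y = δ) :
    0 ≤ κ ^ 2 * (∑ y ∈ Y, ∑ z ∈ Y, g y z * g y z) - 2 * a * κ ^ 2 * ((Y.card : ℤ) * δ)
      + a ^ 2 * (κ * ((D.card : ℤ) * δ)) := by
  have row : ∀ y ∈ D, ∑ u ∈ D, g y u * g y u = κ * δ := fun y hy => by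
    rw [hg y hy y hy, hd y hy]
  have h0 : 0 ≤ ∑ u ∈ D, ∑ v ∈ D, (∑ y ∈ Y, g y u * g y v - a * g u v) ^ 2 :=
    Finset.sum_nonneg fun u _ => Finset.sum_nonneg fun v _ => sq_nonneg _
  have e1 : ∑ u ∈ D, ∑ v ∈ D, (∑ y ∈ Y, g y u * g y v - a * g u v) ^ 2 =
      ∑ u ∈ D, ∑ v ∈ D, (∑ y ∈ Y, g y u * g y v) ^ 2 -
        2 * a * (∑ u ∈ D, ∑ v ∈ D, (∑ y ∈ Y, g y u * g y v) * g u v) +
        a ^ 2 * ∑ u ∈ D, ∑ v ∈ D, g u v * g u v := by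
    rw [Finset.mul_sum, Finset.mul_sum, ← Finset.sum_sub_distrib, ← Finset.sum_add_distrib]
    refine Finset.sum_congr rfl fun u _ => ?_
    rw [Finset.mul_sum, Finset.mul_sum, ← Finset.sum_sub_distrib, ← Finset.sum_add_distrib]
    refine Finset.sum_congr rfl fun v _ => ?_
    ring
  have e2 : ∑ u ∈ D, ∑ v ∈ D, (∑ y ∈ Y, g y u * g y v) ^ 2 =
      κ ^ 2 * (∑ y ∈ Y, ∑ z ∈ Y, g y z * g y z) := by
    rw [RankC_aux, Finset.mul_sum]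
    refine Finset.sum_congr rfl fun y hy => ?_
    rw [Finset.mul_sum]
    refine Finset.sum_congr rfl fun z hz => ?_
    rw [hg y (hYD hy) z (hYD hz)]
    ring
  have e3 : ∑ u ∈ D, ∑ v ∈ D, (∑ y ∈ Y, g y u * g y v) * g u v =
      κ ^ 2 * ((Y.card : ℤ) * δ) := by
    have h1 : ∑ u ∈ D, ∑ v ∈ D, (∑ y ∈ Y, g y u * g y v) * g u v =
        ∑ y ∈ Y, ∑ u ∈ D, ∑ v ∈ D, g y u * (g y v * g u v) := by
      simp only [Finset.sum_mul]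
      calc ∑ u ∈ D, ∑ v ∈ D, ∑ y ∈ Y, g y u * g y v * g u v
          = ∑ u ∈ D, ∑ y ∈ Y, ∑ v ∈ D, g y u * g y v * g u v :=
            Finset.sum_congr rfl fun u _ => Finset.sum_comm
        _ = ∑ y ∈ Y, ∑ u ∈ D, ∑ v ∈ D, g y u * g y v * g u v := Finset.sum_comm
        _ = _ := by
            refine Finset.sum_congr rfl fun y _ => Finset.sum_congr rfl fun u _ =>
              Finset.sum_congr rfl fun v _ => ?_
            ring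
    rw [h1]
    have h2 : ∀ y ∈ Y, ∑ u ∈ D, ∑ v ∈ D, g y u * (g y v * g u v) = κ ^ 2 * δ := by
      intro y hy
      have h3 : ∀ u ∈ D, ∑ v ∈ D, g y u * (g y v * g u v) = κ * (g y u * g y u) := by
        intro u hu
        rw [← Finset.mul_sum, hg y (hYD hy) u hu]
        ring
      rw [Finset.sum_congr rfl h3, ← Finset.mul_sum, row y (hYD hy)]
      ring
    rw [Finset.sum_congr rfl h2, Finset.sum_const, nsmul_eq_mul]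
    ring
  have e4 : ∑ u ∈ D, ∑ v ∈ D, g u v * g u v = κ * ((D.card : ℤ) * δ) := by
    rw [Finset.sum_congr rfl row, Finset.sum_const, nsmul_eq_mul]
    ring
  rw [e1, e2, e3, e4] at h0
  linarith

end Pool.CCff5b
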