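import Pool.Agent.W_ccff5b_h86.GApi

set_option autoImplicit false

namespace Pool.CCff5b

open Finset
open scoped Classical

variable {Pt Ln : Type} [Fintype Pt] [Fintype Ln] {I : Pt → Ln → Prop} {s t : ℕ}

/-- **Task SumA (1).** `nb I y` is the disjoint union of the `(pts I l).erase y`, `l ∋ y`
(`Finset.sum_biUnion`, disjoint by `h.two`), and each of these sums is `0 - f y`. -/
theorem GQ.sum_nb (h : GQ I s t) {f : Pt → ℤ} (hf : LS I f) (y : Pt) :
    ∑ z ∈ nb I y, f z = -((t : ℤ) + 1) * f y := by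
  have h1 : nb I y = (lns I y).biUnion (fun l => (pts I l).erase y) := by
    ext z
    simp only [mem_nb, Finset.mem_biUnion, mem_lns, Finset.mem_erase, mem_pts]
    constructor
    · rintro ⟨hne, l, hy, hz⟩
      exact ⟨l, hy, hne.symm, hz⟩
    · rintro ⟨l, hy, hne, hz⟩
      exact ⟨hne.symm, l, hy, hz⟩
  rw [h1, Finset.sum_biUnion]
  · have h2 : ∀ l ∈ lns I y, ∑ z ∈ (pts I l).erase y, f z = -f y := by
      intro l hl
      have hy : y ∈ pts I l := mem_pts.2 (mem_lns.1 hl)
      have h3 := Finset.add_sum_erase (pts I l) f hy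
      rw [hf l] at h3
      linarith
    rw [Finset.sum_congr rfl h2, Finset.sum_const, h.lns_card, nsmul_eq_mul]
    push_cast
    ring
  · intro l hl m hm hlm
    refine Finset.disjoint_left.2 fun z hz hz' => hlm ?_
    have hl' : I y l := mem_lns.1 hl
    have hm' : I y m := mem_lns.1 hm
    rw [Finset.mem_erase, mem_pts] at hz hz'
    exact h.two z y l m hz.2 hl' hz'.2 hm' hz.1

/-- **Task SumA (2).** Sum over all lines: `0 = ∑_l ∑_{z ∈ l} f z = (t+1) ∑_z f z`. -/
theorem GQ.sum_univ (h : GQ I s t) {f : Pt → ℤ} (hf : LS I f) : ∑ z, f z = 0 := by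
  have h1 : ∑ l : Ln, ∑ z ∈ pts I l, f z = ∑ z : Pt, ∑ l ∈ lns I z, f z := by
    refine Finset.sum_comm' ?_
    intro l z
    simp
  rw [Finset.sum_congr rfl (fun l _ => hf l), Finset.sum_const_zero] at h1
  have h2 : ∑ z : Pt, ∑ l ∈ lns I z, f z = ((t : ℤ) + 1) * ∑ z, f z := by
    rw [Finset.mul_sum]
    refine Finset.sum_congr rfl fun z _ => ?_
    rw [Finset.sum_const, h.lns_card, nsmul_eq_mul]
    push_cast
    rfl
  rw [h2] at h1
  have h3 : ((t : ℤ) + 1) ≠ 0 := by positivity
  exact (mul_eq_zero.1 h1.symm).resolve_left h3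

/-- **Task SumA (3).** `F_x` has zero line sums: if `x ∈ l`: `s^2 + s * (-s)`; otherwise exactly
one point of `l` is collinear with `x` (`exists_proj`, `proj_unique`) and the `s` others are far:
`-s + s * 1`. -/
theorem GQ.LS_F (h : GQ I s t) (x : Pt) : LS I (F I s x) := by
  intro l
  by_cases hx : I x l
  · have hm : x ∈ pts I l := mem_pts.2 hx
    rw [← Finset.add_sum_erase (pts I l) _ hm, F_self]
    have h1 : ∀ z ∈ (pts I l).erase x, F I s x z = -(s : ℤ) := by
      intro z hz
      rw [Finset.mem_erase, mem_pts] at hz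
      exact F_adj ⟨hz.1.symm, l, hx, hz.2⟩
    rw [Finset.sum_congr rfl h1, Finset.sum_const, Finset.card_erase_of_mem hm, h.pts_card,
      nsmul_eq_mul, Nat.add_sub_cancel]
    ring
  · obtain ⟨q, hq, hxq⟩ := h.exists_proj hx
    have hm : q ∈ pts I l := mem_pts.2 hq
    rw [← Finset.add_sum_erase (pts I l) _ hm, F_adj hxq]
    have h1 : ∀ z ∈ (pts I l).erase q, F I s x z = 1 := by
      intro z hz
      rw [Finset.mem_erase, mem_pts] at hz
      refine h.F_far (far_of_ne ?_ fun hadj => hz.1 (h.proj_unique hx hz.2 hq hadj hxq))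
      rintro rfl
      exact hx hz.2
    rw [Finset.sum_congr rfl h1, Finset.sum_const, Finset.card_erase_of_mem hm, h.pts_card,
      nsmul_eq_mul, Nat.add_sub_cancel]
    ring

/-- **Task SumA (4).** Split the sum into `z = x`, `z ∈ nb I x`, `z ∈ far I x`:
`s^2 f x - s * (-(t+1) f x) + (0 - f x + (t+1) f x)` by (1), (2). -/
theorem GQ.sum_F_mul (h : GQ I s t) {f : Pt → ℤ} (hf : LS I f) (x : Pt) :
    ∑ z, F I s x z * f z = ((s : ℤ) + 1) * ((s : ℤ) + t) * f x := by
  have h1 : ∀ z, F I s x z * f z = f z + (if z = x then ((s : ℤ) ^ 2 - 1) * f z else 0) +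
      (if Adj I x z then -((s : ℤ) + 1) * f z else 0) := by
    intro z
    by_cases hz : z = x
    · subst hz
      rw [F_self, if_pos rfl, if_neg not_adj_self]
      ring
    · by_cases ha : Adj I x z
      · rw [F_adj ha, if_neg hz, if_pos ha]
        ring
      · rw [if_neg hz, if_neg ha, h.F_far (far_of_ne (fun e => hz e.symm) ha)]
        ring
  rw [Finset.sum_congr rfl (fun z _ => h1 z), Finset.sum_add_distrib, Finset.sum_add_distrib,
    h.sum_univ hf, Finset.sum_ite_eq' Finset.univ x, if_pos (Finset.mem_univ _),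
    ← Finset.sum_filter]
  have h2 : ∑ z ∈ Finset.univ.filter (fun z => Adj I x z), -((s : ℤ) + 1) * f z =
      -((s : ℤ) + 1) * ∑ z ∈ nb I x, f z := by
    rw [Finset.mul_sum]
    rfl
  rw [h2, h.sum_nb hf]
  ring

end Pool.CCff5b
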