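import Pool.Agent.W_ccff5b_h86.LineG
import Pool.Agent.W_ccff5b_h86.SumA

set_option autoImplicit false

namespace Pool.CCff5b

open Finset
open scoped Classical

variable {Pt Ln : Type} [Fintype Pt] [Fintype Ln] {I : Pt → Ln → Prop} {s t : ℕ}

/-- **Task Repro (1).** Uniform formula on `far x`: by cases `z = y` (`cn_self`, `GQ.card_cns2`),
`z ∼ y` (`GQ.cn_of_adj`), `z` far from `y` (`G_triad`). -/
theorem GQ.G_formula (h : GQ I s t) {x y z : Pt} (hxy : Far I x y) (hxz : Far I x z) :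
    G I s x y z = (s : ℤ) - cn I x y z + (if z = y then (t : ℤ) else 0) -
      (if Adj I y z then (s : ℤ) else 0) := by
  rcases eq_or_adj_or_far I y z with rfl | h1 | h1
  · rw [G_self hxy, cn_self, h.card_cns2 hxy, if_pos rfl, if_neg not_adj_self]
    push_cast
    ring
  · rw [G_adj hxz h1, h.cn_of_adj hxy hxz h1, if_neg h1.ne.symm, if_pos h1]
    push_cast
    ring
  · rw [h.G_triad hxz h1, if_neg (h.far_ne h1).symm, if_neg h1.not_adj]
    ring

omit [Fintype Ln] in
private theorem cn_eq_sum (x y z : Pt) :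
    (cn I x y z : ℤ) = ∑ w ∈ cns2 I x y, if Adj I w z then (1 : ℤ) else 0 := by
  rw [Finset.sum_ite, Finset.sum_const_zero, add_zero, Finset.sum_const, nsmul_eq_mul, mul_one]
  unfold cn
  congr 2
  ext w
  rw [mem_cns, Finset.mem_filter, mem_cns2, adj_comm (p := w)]
  tauto

/-- **Task Repro (2).** For `f` with zero line sums, vanishing off `far x`: sum of (1) times `f`:
`s ∑ f = 0` (`GQ.sum_univ`); `∑_z cn I x y z * f z = ∑_{w ∈ cns2 I x y} ∑_{z ∈ nb w} f z
= ∑_w -(t+1) f w = 0` since `w` is not far from `x`; `t f y`; `- s ∑_{z ∈ nb y} f z = s (t+1) f y`.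
Total `(t + s(t+1)) f y = s^3 f y` as `t = s^2 - s`. (`f z = 0` for `z` not far from `x` allows to
replace sums over `far x` by sums over everything.) -/
theorem GQ.sum_G_mul (h : GQ I s t) (hst : s + t = s * s) {x y : Pt} (hxy : Far I x y) {f : Pt → ℤ}
    (hf : LS I f) (hf0 : ∀ z, ¬ Far I x z → f z = 0) :
    ∑ z, G I s x y z * f z = (s : ℤ) ^ 3 * f y := by
  have h1 : ∀ z, G I s x y z * f z = (s : ℤ) * f z - (cn I x y z : ℤ) * f z +
      (if z = y then (t : ℤ) * f z else 0) - (if Adj I y z then (s : ℤ) * f z else 0) := by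
    intro z
    by_cases hz : Far I x z
    · rw [h.G_formula hxy hz]
      split_ifs <;> ring
    · rw [hf0 z hz]
      simp
  have h2 : ∑ z, (s : ℤ) * f z = 0 := by
    rw [← Finset.mul_sum, h.sum_univ hf, mul_zero]
  have h3 : ∑ z, (cn I x y z : ℤ) * f z = 0 := by
    have h31 : ∀ z, (cn I x y z : ℤ) * f z =
        ∑ w ∈ cns2 I x y, if Adj I w z then f z else 0 := by
      intro z
      rw [cn_eq_sum, Finset.sum_mul]
      refine Finset.sum_congr rfl fun w _ => ?_
      split_ifs <;> simp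
    rw [Finset.sum_congr rfl fun z _ => h31 z, Finset.sum_comm]
    refine Finset.sum_eq_zero fun w hw => ?_
    rw [← Finset.sum_filter]
    have h32 := h.sum_nb hf w
    unfold nb at h32
    rw [h32, hf0 w ((mem_cns2.1 hw).1.not_far), mul_zero]
  have h4 : ∑ z, (if z = y then (t : ℤ) * f z else 0) = (t : ℤ) * f y := by
    simp
  have h5 : ∑ z, (if Adj I y z then (s : ℤ) * f z else 0) =
      (s : ℤ) * (-((t : ℤ) + 1) * f y) := by
    rw [← Finset.sum_filter, ← Finset.mul_sum]
    have h51 := h.sum_nb hf y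
    unfold nb at h51
    rw [h51]
  rw [Finset.sum_congr rfl fun z _ => h1 z, Finset.sum_sub_distrib, Finset.sum_add_distrib,
    Finset.sum_sub_distrib, h2, h3, h4, h5]
  have h6 : (s : ℤ) + t = s * s := by exact_mod_cast hst
  have h7 : (t : ℤ) = s * s - s := by linarith
  rw [h7]
  ring

/-- **Task Repro (3).** `G^2 = s^3 G` (apply (2) to `f = G^x_z`, `GQ.LS_G`, `G_zero`, `G_symm`). -/
theorem GQ.sum_G_mul_G (h : GQ I s t) (hst : s + t = s * s) {x y z : Pt} (hxy : Far I x y)
    (hxz : Far I x z) : ∑ u, G I s x y u * G I s x z u = (s : ℤ) ^ 3 * G I s x y z := by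
  rw [h.sum_G_mul hst hxy (h.LS_G hst hxz) fun u hu => G_zero hu, G_symm hxy hxz]

private theorem sum_sub_sq (h : GQ I s t) (hst : s + t = s * s) {x y z : Pt} (hxy : Far I x y)
    (hxz : Far I x z) : ∑ u, (G I s x y u - G I s x z u) ^ 2 =
      2 * (s : ℤ) ^ 3 * ((s : ℤ) - 1 - G I s x y z) := by
  have h1 := h.sum_G_mul_G hst hxy hxy
  have h2 := h.sum_G_mul_G hst hxz hxz
  have h3 := h.sum_G_mul_G hst hxy hxz
  rw [G_self hxy] at h1
  rw [G_self hxz] at h2
  have h4 : ∀ u, (G I s x y u - G I s x z u) ^ 2 = G I s x y u * G I s x y u -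
      2 * (G I s x y u * G I s x z u) + G I s x z u * G I s x z u := fun u => by ring
  rw [Finset.sum_congr rfl fun u _ => h4 u, Finset.sum_add_distrib, Finset.sum_sub_distrib,
    ← Finset.mul_sum, h1, h2, h3]
  ring

/-- **Task Repro (4).** Cauchy-Schwarz: `0 ≤ ∑_u (G y u - G z u)^2 = 2 s^3 (s-1) - 2 s^3 G y z`
(and `s > 0`; if `s = 0` then `t = 0`, trivial: there all is `0`-ish; you may use `hs`). -/
theorem GQ.G_le (h : GQ I s t) (hst : s + t = s * s) (hs : 1 ≤ s) {x y z : Pt} (hxy : Far I x y)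
    (hxz : Far I x z) : G I s x y z ≤ (s : ℤ) - 1 := by
  have h1 := sum_sub_sq h hst hxy hxz
  have h2 : 0 ≤ ∑ u, (G I s x y u - G I s x z u) ^ 2 := Finset.sum_nonneg fun u _ => sq_nonneg _
  rw [h1] at h2
  have h3 : (0 : ℤ) < 2 * (s : ℤ) ^ 3 := by positivity
  have h4 := nonneg_of_mul_nonneg_right h2 h3
  linarith

/-- **Task Repro (5).** Equality case: `∑_u (G y u - G z u)^2 = 0`. -/
theorem GQ.G_eq_of_top (h : GQ I s t) (hst : s + t = s * s) {x y z : Pt} (hxy : Far I x y)
    (hxz : Far I x z) (hyz : G I s x y z = (s : ℤ) - 1) (u : Pt) : G I s x y u = G I s x z u := by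
  have h1 := sum_sub_sq h hst hxy hxz
  rw [hyz, sub_self, mul_zero] at h1
  have h2 := (Finset.sum_eq_zero_iff_of_nonneg fun u _ => sq_nonneg _).1 h1 u (Finset.mem_univ u)
  have h3 := pow_eq_zero_iff (two_ne_zero) |>.1 h2
  linarith

end Pool.CCff5b
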