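import Pool.Agent.W_ccff5b_h86.RankB
import Pool.Agent.W_ccff5b_h86.RankC
import Pool.Agent.W_ccff5b_h86.Repro

set_option autoImplicit false

namespace Pool.CCff5b

open Finset
open scoped Classical

variable {Pt Ln : Type} [Fintype Pt] [Fintype Ln] {I : Pt → Ln → Prop} {s t : ℕ}

private theorem rankE_sq (h : GQ I s t) (hst : s + t = s * s) {l : Ln} {w a b : Pt}
    (hw : I w l) (ha : I a l) (hb : I b l) (haw : a ≠ w) (hbw : b ≠ w) :
    ((s : ℤ) ^ 3) ^ 2 * ∑ y ∈ offs I l w, ∑ z ∈ offs I l w, G I s a y z * G I s b y z =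
      ∑ u, ∑ v, (∑ y ∈ offs I l w, G I s a y u * G I s b y v) ^ 2 := by
  have hfar : ∀ c : Pt, I c l → c ≠ w → ∀ y ∈ offs I l w, Far I c y := by
    intro c hc hcw y hy
    rw [h.offs_eq hc hw hcw] at hy
    exact (Finset.mem_filter.1 hy).2.2
  exact sum_prod_eq (offs I l w) (G I s a) (G I s b) ((s : ℤ) ^ 3)
    (fun y hy z hz => h.sum_G_mul_G hst (hfar a ha haw y hy) (hfar a ha haw z hz))
    (fun y hy z hz => h.sum_G_mul_G hst (hfar b hb hbw y hy) (hfar b hb hbw z hz))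

/-- **Task RankE.** `l` a line, `w, x, x' ∈ l` distinct, `Y = offs I l w`. Then
`∑_{z ∈ Y} G^x_z(u) G^x'_z(v) = 0` for all `u, v`.
Proof. `X = (pts I l).erase w`, `T a b := ∑_{y ∈ Y} ∑_{z ∈ Y} G a y z * G b y z` for `a, b ∈ X`. By
`sum_prod_eq` (`κ = s^3`, hypotheses from `GQ.sum_G_mul_G`; `Y ⊆ far a` by `GQ.offs_eq`)
`s^6 T a b = ∑_{u,v} (∑_{y ∈ Y} G a y u * G b y v)^2 ≥ 0`.
By `trace_ineq` with `D = far I x`, `a = s^2`, `κ = s^3`, `δ = s - 1`, `|Y| = s t` (`GQ.card_offs`),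
`|D| = s^2 t` (`GQ.card_far`): `s^6 T x x ≥ s^9 t (s-1)`, so `T x x ≥ s^3 t (s-1)`
(the sum over `u ∈ far x` is the sum over all `u`, `G_zero`; `G_symm`, `G_self`).
`∑_{b ∈ X} T x b = ∑_{y,z ∈ Y} G x y z * K y z = ∑_y s^2 G x y y = s t * s^2 (s-1)` by `GQ.sum_G_line`,
`GQ.sum_G_K` (`K` is symmetric). So `∑_{b ∈ X, b ≠ x} T x b ≤ 0`, all terms are `≥ 0`, hence
`T x x' = 0`, and the sum of squares is `0`. -/
theorem GQ.sum_G_G_eq_zero (h : GQ I s t) (hst : s + t = s * s) (hs : 1 ≤ s) {l : Ln} {w x x' : Pt}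
    (hw : I w l) (hx : I x l) (hx' : I x' l) (hxw : x ≠ w) (hxw' : x' ≠ w) (hne : x ≠ x')
    (u v : Pt) : ∑ z ∈ offs I l w, G I s x z u * G I s x' z v = 0 := by
  have hs0 : (0 : ℤ) < (s : ℤ) := by exact_mod_cast hs
  have hfar : ∀ c : Pt, I c l → c ≠ w → ∀ y ∈ offs I l w, Far I c y := by
    intro c hc hcw y hy
    rw [h.offs_eq hc hw hcw] at hy
    exact (Finset.mem_filter.1 hy).2.2
  have hpos : ∀ b : Pt, I b l → b ≠ w →
      0 ≤ ∑ y ∈ offs I l w, ∑ z ∈ offs I l w, G I s x y z * G I s b y z := by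
    intro b hb hbw
    have h1 := rankE_sq h hst hw hx hb hxw hbw
    have h2 : 0 ≤ ∑ u, ∑ v, (∑ y ∈ offs I l w, G I s x y u * G I s b y v) ^ 2 :=
      Finset.sum_nonneg fun _ _ => Finset.sum_nonneg fun _ _ => sq_nonneg _
    rw [← h1] at h2
    exact nonneg_of_mul_nonneg_right h2 (by positivity)
  -- lower bound of the diagonal term
  have hdiag : (s : ℤ) ^ 3 * (t : ℤ) * ((s : ℤ) - 1) ≤
      ∑ y ∈ offs I l w, ∑ z ∈ offs I l w, G I s x y z * G I s x y z := by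
    have h1 := trace_ineq (far I x) (offs I l w)
      (fun y hy => mem_far.2 (hfar x hx hxw y hy)) (G I s x) ((s : ℤ) ^ 3) ((s : ℤ) - 1)
      ((s : ℤ) ^ 2)
      (fun y hy z hz => G_symm (mem_far.1 hy) (mem_far.1 hz))
      (fun y hy z hz => by
        rw [← h.sum_G_mul_G hst (mem_far.1 hy) (mem_far.1 hz)]
        refine Finset.sum_subset (Finset.subset_univ _) fun u _ hu => ?_
        rw [G_zero (fun hf => hu (mem_far.2 hf)), zero_mul])
      (fun y hy => G_self (mem_far.1 hy))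
    rw [h.card_offs hw, h.card_far x] at h1
    push_cast at h1
    have h2 : 0 ≤ (s : ℤ) ^ 6 * ((∑ y ∈ offs I l w, ∑ z ∈ offs I l w, G I s x y z * G I s x y z) -
        (s : ℤ) ^ 3 * (t : ℤ) * ((s : ℤ) - 1)) := by
      linarith [h1, show ((s : ℤ) ^ 6 * ((∑ y ∈ offs I l w, ∑ z ∈ offs I l w,
        G I s x y z * G I s x y z) - (s : ℤ) ^ 3 * (t : ℤ) * ((s : ℤ) - 1))) =
        ((s : ℤ) ^ 3) ^ 2 * (∑ y ∈ offs I l w, ∑ z ∈ offs I l w, G I s x y z * G I s x y z) -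
        2 * (s : ℤ) ^ 2 * ((s : ℤ) ^ 3) ^ 2 * ((s : ℤ) * (t : ℤ) * ((s : ℤ) - 1)) +
        ((s : ℤ) ^ 2) ^ 2 * ((s : ℤ) ^ 3 * ((s : ℤ) ^ 2 * (t : ℤ) * ((s : ℤ) - 1))) by ring]
    have h3 := nonneg_of_mul_nonneg_right h2 (by positivity)
    linarith
  -- the sum over the line
  have hK : ∀ y z : Pt, K I s y z = K I s z y := by
    intro y z
    unfold K
    by_cases h1 : z = y
    · subst h1; rfl
    · have h1' : ¬ y = z := fun h => h1 h.symm
      simp only [h1, h1', if_false, adj_comm (p := y) (q := z)]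
  have hsum : ∑ b ∈ (pts I l).erase w,
      (∑ y ∈ offs I l w, ∑ z ∈ offs I l w, G I s x y z * G I s b y z) =
      (s : ℤ) ^ 3 * (t : ℤ) * ((s : ℤ) - 1) := by
    calc ∑ b ∈ (pts I l).erase w,
          (∑ y ∈ offs I l w, ∑ z ∈ offs I l w, G I s x y z * G I s b y z)
        = ∑ y ∈ offs I l w, ∑ z ∈ offs I l w, G I s x y z *
            ∑ b ∈ (pts I l).erase w, G I s b y z := by
          rw [Finset.sum_comm]
          refine Finset.sum_congr rfl fun y _ => ?_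
          rw [Finset.sum_comm]
          refine Finset.sum_congr rfl fun z _ => ?_
          rw [Finset.mul_sum]
      _ = ∑ y ∈ offs I l w, ∑ z ∈ offs I l w, G I s x y z * K I s z y := by
          refine Finset.sum_congr rfl fun y hy => Finset.sum_congr rfl fun z hz => ?_
          rw [h.sum_G_line hst hw hy hz, hK]
      _ = ∑ y ∈ offs I l w, (s : ℤ) ^ 2 * ((s : ℤ) - 1) := by
          refine Finset.sum_congr rfl fun y hy => ?_
          rw [h.sum_G_K hst hw hx hxw hy hy, G_self (hfar x hx hxw y hy)]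
      _ = (s : ℤ) ^ 3 * (t : ℤ) * ((s : ℤ) - 1) := by
          rw [Finset.sum_const, h.card_offs hw, nsmul_eq_mul]
          push_cast
          ring
  have hxm : x ∈ (pts I l).erase w := Finset.mem_erase.2 ⟨hxw, mem_pts.2 hx⟩
  have hxm' : x' ∈ ((pts I l).erase w).erase x :=
    Finset.mem_erase.2 ⟨hne.symm, Finset.mem_erase.2 ⟨hxw', mem_pts.2 hx'⟩⟩
  have hle : (∑ y ∈ offs I l w, ∑ z ∈ offs I l w, G I s x y z * G I s x y z) +
      (∑ y ∈ offs I l w, ∑ z ∈ offs I l w, G I s x y z * G I s x' y z) ≤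
      (s : ℤ) ^ 3 * (t : ℤ) * ((s : ℤ) - 1) := by
    rw [← hsum, ← Finset.add_sum_erase _ _ hxm]
    have h1 := Finset.single_le_sum
      (f := fun b => ∑ y ∈ offs I l w, ∑ z ∈ offs I l w, G I s x y z * G I s b y z)
      (s := ((pts I l).erase w).erase x) (fun b hb => ?_) hxm'
    · linarith
    · have hb' := Finset.mem_erase.1 (Finset.mem_erase.1 hb).2
      exact hpos b (mem_pts.1 hb'.2) hb'.1
  have hzero : (∑ y ∈ offs I l w, ∑ z ∈ offs I l w, G I s x y z * G I s x' y z) = 0 := by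
    have := hpos x' hx' hxw'
    linarith
  have hsq := rankE_sq h hst hw hx hx' hxw hxw'
  rw [hzero, mul_zero] at hsq
  have h1 : ∑ v, (∑ y ∈ offs I l w, G I s x y u * G I s x' y v) ^ 2 = 0 :=
    (Finset.sum_eq_zero_iff_of_nonneg
      (fun u _ => Finset.sum_nonneg fun v _ => sq_nonneg _)).1 hsq.symm u (Finset.mem_univ u)
  have h2 : (∑ y ∈ offs I l w, G I s x y u * G I s x' y v) ^ 2 = 0 :=
    (Finset.sum_eq_zero_iff_of_nonneg (fun v _ => sq_nonneg _)).1 h1 v (Finset.mem_univ v)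
  exact pow_eq_zero_iff (two_ne_zero) |>.1 h2

end Pool.CCff5b
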