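import Pool.Agent.W_ccff5b_h86.RankE

set_option autoImplicit false

namespace Pool.CCff5b

open Finset
open scoped Classical

variable {Pt Ln : Type} [Fintype Pt] [Fintype Ln] {I : Pt → Ln → Prop} {s t : ℕ}

/-- **Task RankF.** For a common neighbour `w` of the far points `x, y`:
the sum of `(G^x_y(z))^2` over `z ∼ w`, `z` far from `x`, is `s^2 (s-1)`.
Proof. `l` = the line `xw`, `Y = offs I l w` = the summation set (`GQ.offs_eq`), `y ∈ Y`.
For `z ∈ Y`: `G x y z = G x z y` and `G x z y = K z y - ∑_{x' ∈ X, x' ≠ x} G x' z y` (`GQ.sum_G_line`).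
So `∑_z (G x y z)^2 = ∑_z G x y z * K z y - ∑_{x'} ∑_z G x z y * G x' z y = s^2 G x y y - 0`
(`GQ.sum_G_K`, `GQ.sum_G_G_eq_zero`). -/
theorem GQ.sum_sq_at (h : GQ I s t) (hst : s + t = s * s) (hs : 1 ≤ s) {x y w : Pt}
    (hxy : Far I x y) (hxw : Adj I x w) (hyw : Adj I y w) :
    ∑ z ∈ univ.filter (fun z => Adj I w z ∧ Far I x z), (G I s x y z) ^ 2 =
      (s : ℤ) ^ 2 * ((s : ℤ) - 1) := by
  obtain ⟨hne, l, hxl, hwl⟩ := hxw
  rw [← h.offs_eq hxl hwl hne]
  have hfar : ∀ z ∈ offs I l w, Far I x z := by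
    intro z hz
    rw [h.offs_eq hxl hwl hne] at hz
    exact (Finset.mem_filter.1 hz).2.2
  have hy : y ∈ offs I l w := mem_offs.2 ⟨hyw.symm, hxy l hxl⟩
  have hxm : x ∈ (pts I l).erase w := Finset.mem_erase.2 ⟨hne, mem_pts.2 hxl⟩
  have h1 : ∀ z ∈ offs I l w, (G I s x y z) ^ 2 =
      G I s x y z * K I s z y -
        ∑ x' ∈ ((pts I l).erase w).erase x, G I s x z y * G I s x' z y := by
    intro z hz
    have h2 := h.sum_G_line hst hwl hz hy
    rw [← Finset.add_sum_erase _ _ hxm] at h2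
    have h3 : G I s x y z = G I s x z y := G_symm hxy (hfar z hz)
    rw [← h2, ← Finset.mul_sum, h3]
    ring
  rw [Finset.sum_congr rfl h1, Finset.sum_sub_distrib, h.sum_G_K hst hwl hxl hne hy hy,
    G_self hxy, Finset.sum_comm]
  have h4 : ∑ x' ∈ ((pts I l).erase w).erase x,
      ∑ z ∈ offs I l w, G I s x z y * G I s x' z y = 0 := by
    refine Finset.sum_eq_zero fun x' hx' => ?_
    have h5 := Finset.mem_erase.1 hx'
    have h6 := Finset.mem_erase.1 h5.2
    exact h.sum_G_G_eq_zero hst hs hwl hxl (mem_pts.1 h6.2) hne h6.1 h5.1.symm y y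
  rw [h4, sub_zero]

end Pool.CCff5b
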